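import Pool.Agent.Work.MP_7084a3_h91.Defs

set_option autoImplicit false

/-! # Blocks K (centre, two generators, relabelling) -/

namespace Pool.HA

/-- K1 (uses F7, F4, DPG): for at least three generators the centre is trivial. A central `z` commutes with the
centraliser of every reflection, so by F7 `z = gen s ^ i = gen t ^ j` for two different generators
(`gen s ≠ gen t` by DPG); if `i ≠ 0`, F4 gives `gen s = gen t`; so `i = 0`, `z = 1`. -/
def Stmt_K1 : Prop :=
  ∀ (S : Type) [Finite S] (M : CoxeterMatrix S), HypType M → 3 ≤ Nat.card S → ∀ z : Art M,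
    (∀ y, Commute z y) → z = 1

/-- K2 (uses DCEN): for two generators the centre is not trivial: `(st)^m`, of exponent sum `2m ≠ 0`; `Art M` is
`pr (gen M) s t` (closure of the generators). -/
def Stmt_K2 : Prop :=
  ∀ (S : Type) [Finite S] (M : CoxeterMatrix S), (∀ s t, M s t ≠ 0) → Nat.card S = 2 →
    ∃ z : Art M, z ≠ 1 ∧ ∀ y, Commute z y

/-- K3 (uses DCPC, DCEN, DNCM, DSLG): for two generators the label is an isomorphism invariant. `S = {s,t}`,
`m = M s t ≥ 2`, `A = Art M = pr s t`, `m' = M' s' t'`.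
(a) `m = 2` iff `A` is abelian (for `m ≥ 3` use DNCM with `b = 1`). So let `m, m' ≥ 3`.
(b) Let `k₀` be the least `k > 0` such that `(st)^k` is central (it exists, DCEN); the set of `k ∈ ℤ` with
`(st)^k` central is a subgroup, so `k₀ ∣ m`. If `(st)^k` commutes with `s`, `k > 0`, then a word with `4k`
syllables is trivial: `(ts)^k · (t⁻¹s⁻¹)^k = s⁻¹ (st)^k s (st)^{-k} = 1` (list `[1,…,1,-1,…,-1]`, `2k` ones and `2k` minus ones,
alternating in `t, s`), so by DSLG `4k ≥ 2m`. So `m ≤ 2 k₀` and `k₀ ∣ m`: `k₀ = m` or `2 k₀ = m`. If `m` is even then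
`(st)^{m/2} = Δ` is central (`Δ = altG s t m = altG t s m`, `m` even: `Δ s = s Δ` since `Δ = (st)^{m/2} = (ts)^{m/2}` and
`s (ts)^{m/2} = (st)^{m/2} s`), so `k₀ = m/2`; if `m` is odd `k₀ = m`.
(c) If `y ∈ A`, `y^K` central, `K > 0`, then by DCPC `y` is conjugate to `(st)^l` or `Δ^l`; the least such `K` divides
`k₀`, or is at most `2`; and `k₀ ≥ 2` (`k₀ = m ≥ 3` or `k₀ = m/2 ≥ 2`). So `k₀` is the largest of the least exponents `K`: an
isomorphism invariant; `k₀ = k₀'`.
(d) Parity: if `m` is even there is a homomorphism `f : A → ℤ` with `f s = 0`, `f t = 1`, and `esum`; if `m'` is odd every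
homomorphism `A' → ℤ` has the same value on `s'` and `t'` (conjugate), so any two are proportional:
`f'(x) * g'(y) = f'(y) * g'(x)` for all `x, y`; this fails for `f` and `esum` in `A`. So `m ≡ m'` mod 2 and by (b), (c)
`m = m'`. -/
def Stmt_K3 : Prop :=
  ∀ (S S' : Type) [Finite S] [Finite S'] (M : CoxeterMatrix S) (M' : CoxeterMatrix S'),
    (∀ s t, M s t ≠ 0) → (∀ s t, M' s t ≠ 0) → Nat.card S = 2 → Nat.card S' = 2 →
    Nonempty (Art M ≃* Art M') → ∀ s t s' t', s ≠ t → s' ≠ t' → M s t = M' s' t'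

/-- REL: relabelling gives an isomorphism. -/
def Stmt_REL : Prop :=
  ∀ (S S' : Type) (M : CoxeterMatrix S) (M' : CoxeterMatrix S') (e : S ≃ S'),
    (∀ s t, M' (e s) (e t) = M s t) → Nonempty (Art M ≃* Art M')

end Pool.HA
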