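import Pool.Agent.Work.MP_7084a3_h91.Defs

set_option autoImplicit false

/-! # Blocks X (coset complex), T (elements of the Artin group), C (isomorphisms)

Vertices of type 0, 1, 2: cosets of `1`, `⟨gen s⟩`, `⟨gen s, gen t⟩`.  `v.mem x`: the group element `x` is in the
coset `v`.  Facts such as `three mutually adjacent vertices have types 0, 1, 2 and a common element`,
``h • v = v` iff `x⁻¹ h x ∈ par g v.J` if `v.mem x``, `if `v.J ⊂ w.J`, `v.ad w`, `h` fixes `v` then `h` fixes `w`` are in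
`Basic.lean`. -/

namespace Pool.HA

/-! ## X. The complex -/

/-- TTOK: adjacency is symmetric and irreflexive, `TT` alternating. -/
def Stmt_TTOK : Prop :=
  ∀ (G S : Type) [Group G] (g : S → G), TriOK (V := Vtx g) (A := C2 g) Vtx.ad TT

/-- BD: the boundary of the chain of a filling is the chain of the closed walk; the chain is supported on
flags; its norm is at most the number of triangles. Induction on the derivation. `pair`:
`cch (u :: (P₁ ++ v :: P₂)) = EE u v + cch P₁ + EE v u + cch P₂`, `EE v u = - EE u v`. `tri`: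
`cch (u :: v :: q) = cch (u :: c :: v :: q) - EE u c - EE c v + EE u v` and, for mutually adjacent `u, v, c`
(types `0, 1, 2` in some order, so exactly one `dlt` is nonzero), `bd2 (TT u v c) = EE u v + EE v c + EE c u`,
`nf (TT u v c) = 1`. -/
def Stmt_BD : Prop :=
  ∀ (G S : Type) [Group G] (g : S → G) (l : List (Vtx g)) (D : C2 g) (n : ℕ),
    Fill Vtx.ad TT l D n → bd2 g D = cch l ∧ Flagged D ∧ nrm D ≤ n

/-- EQV (uses FMAP): translation of fillings. -/
def Stmt_EQV : Prop :=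
  ∀ (G S : Type) [Group G] (g : S → G) (h : G) (l : List (Vtx g)) (D : C2 g) (n : ℕ),
    Fill Vtx.ad TT l D n → Fill Vtx.ad TT (l.map (fun v => h • v)) (act2 h D) n

/-- BD1: boundary of the chain of an open walk, and `bd1 (bd2 D) = 0` for flagged `D`. -/
def Stmt_BD1 : Prop :=
  ∀ (G S : Type) [Group G] (g : S → G),
    (∀ (l : List (Vtx g)) (v w : Vtx g), Wk l v w →
      bd1 g (wch l) = Finsupp.single w 1 - Finsupp.single v 1) ∧ (∀ D : C2 g, Flagged D → bd1 g (bd2 g D) = 0)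

/-- CONN: any two vertices of the coset complex of an Artin group are joined by a walk: from `v` (containing
`x`) to the type 0 vertex `x`, then along a word in the generators from `x` to `y`, then to `w` containing `y`. -/
def Stmt_CONN : Prop :=
  ∀ (S : Type) (M : CoxeterMatrix S) (v w : Vtx (gen M)), ∃ l, Wk l v w

/-- WCH: chains of walks (`wch`), concatenation, reversal, closed walks `P Q⁻¹`, translation, `pw`. All by
induction on lists; `EE v u = - EE u v`. -/
def Stmt_WCH : Prop :=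
  ∀ (G S : Type) [Group G] (g : S → G),
    (∀ (P Q : List (Vtx g)) (u v w : Vtx g), Wk P u v → Wk Q v w →
      Wk (P.dropLast ++ Q) u w ∧ wch (P.dropLast ++ Q) = wch P + wch Q) ∧
    (∀ (P : List (Vtx g)) (v w : Vtx g), Wk P v w → Wk P.reverse w v ∧ wch P.reverse = -wch P) ∧
    (∀ (P Q : List (Vtx g)) (v w : Vtx g), Wk P v w → Wk Q v w →
      CW Vtx.ad (P.dropLast ++ Q.reverse.dropLast) ∧
        cch (P.dropLast ++ Q.reverse.dropLast) = wch P - wch Q) ∧
    (∀ (h : G) (P : List (Vtx g)) (v w : Vtx g), Wk P v w →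
      Wk (P.map (fun v => h • v)) (h • v) (h • w) ∧ wch (P.map (fun v => h • v)) = act1 h (wch P)) ∧
    (∀ (x : G) (l : List (Vtx g)) (p : Vtx g) (N : ℕ), Wk l p (x • p) →
      Wk (pw x l N) p (x ^ N • p) ∧ (pw x l N).length = N * (l.length - 1) + 1 ∧
        wch (pw x l N) = ∑ i ∈ Finset.range N, act1 (x ^ i) (wch l))

/-- ACT: compatibility of the actions on chains. -/
def Stmt_ACT : Prop :=
  ∀ (G S : Type) [Group G] (g : S → G),
    (∀ (h : G) (D : C2 g), bd2 g (act2 h D) = act1 h (bd2 g D) ∧ (Flagged D → Flagged (act2 h D)) ∧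
      nrm (act2 h D) = nrm D) ∧
    (∀ (h : G) (c : C1 g), bd1 g (act1 h c) = act0 h (bd1 g c)) ∧
    (∀ D D' : C2 g, Flagged D → Flagged D' → Flagged (D + D') ∧ Flagged (D - D')) ∧
    (∀ (x y : G) (D : C2 g), act2 (x * y) D = act2 x (act2 y D)) ∧
    (∀ (x y : G) (D : C1 g), act1 (x * y) D = act1 x (act1 y D)) ∧
    (∀ (x y : G) (D : C0 g), act0 (x * y) D = act0 x (act0 y D)) ∧
    (∀ D : C2 g, act2 (1 : G) D = D) ∧ (∀ D : C1 g, act1 (1 : G) D = D) ∧
    (∀ D : C0 g, act0 (1 : G) D = D)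

/-- EST0: a cyclic sequence in `S` with `s_i ≠ s_{i+1}`, `s_i ≠ s_{i+2}`. `n ≥ 3` (periodicity). `n = 3`: three
different generators, `3 - ∑ 1/m - 6ε ≥ 2`. `n ≥ 4`: with `f i` the summand, `f i + f (i+1) ≥ 1/2 + 2/3 - 4ε` (two
consecutive labels are not both `2`: `s_i, s_{i+1}, s_{i+2}` is a hyperbolic triple), so
`2 ∑ f ≥ n (7/6 - 4ε) ≥ 4`. -/
def Stmt_EST0 : Prop :=
  ∀ (S : Type) (M : CoxeterMatrix S), HypType M → ∀ ε : ℝ, EpsOK M ε → ∀ (n : ℕ) (s : ℕ → S),
    0 < n → (∀ i, s (i + n) = s i) → (∀ i, s i ≠ s (i + 1)) → (∀ i, s i ≠ s (i + 2)) →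
    2 ≤ ∑ i ∈ Finset.range n, (1 - 1 / (M (s i) (s (i + 1)) : ℝ) - 2 * ε)

/-- LP0 (uses EST0): closed reduced link paths at a type 0 vertex `{x}`. The link vertices are `x⟨s⟩` and
`x A_{st}`, determined by their label sets; steps alternate between the two types, so the number of steps is
even, `2n`; after a rotation the first step starts at a type 1 vertex; let `s_i` be the label of the starting
vertex of step `2i`. Step `2i` and `2i+1` pass through the type 2 vertex with labels `{s_i, s_{i+1}}`, `s_i ≠ s_{i+1}`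
(reduced), `{s_i,s_{i+1}} ≠ {s_{i+1},s_{i+2}}`, so `s_i ≠ s_{i+2}`. Weight `∑ 2 (1/2 - 1/(2 m_i) - ε)`. -/
def Stmt_LP0 : Prop :=
  ∀ (S : Type) [DecidableEq S] (M : CoxeterMatrix S), HypType M → ∀ ε : ℝ, EpsOK M ε →
    ∀ (v : Vtx (gen M)) (ω : List (Stp (Vtx (gen M)))), v.ty = 0 → ω ≠ [] → LPath Vtx.ad v ω →
      (∀ s ∈ ω.getLast?, ∀ t ∈ ω.head?, Cmp s t) → 2 ≤ wts (ang M ε) v ω

/-- LP1: closed reduced link paths at a type 1 vertex: every step has weight `1/2` and joins type 0 and type 2,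
so their number is even; two steps would be a backtrack; so at least 4. -/
def Stmt_LP1 : Prop :=
  ∀ (S : Type) [DecidableEq S] (M : CoxeterMatrix S) (ε : ℝ)
    (v : Vtx (gen M)) (ω : List (Stp (Vtx (gen M)))), v.ty = 1 → ω ≠ [] → LPath Vtx.ad v ω →
      (∀ s ∈ ω.getLast?, ∀ t ∈ ω.head?, Cmp s t) → 2 ≤ wts (ang M ε) v ω

/-- LK2: reduced link paths between type 1 vertices at a type 2 vertex `v` with labels `{a,b}`, `m = M a b`,
starting at a vertex of label `a`. The path is `n, {y₁}, ·, {y₂}, ·, …, {y_{k+1}}, p`: `2(k+1)` steps of weight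
`1/(2m)`; `y_{i+1} = y_i * (gen b or gen a)^{e_i}`, `e_i ≠ 0`, alternating, starting with `gen b` (the type 1 vertex after
`{y₁}` is different from `n`, so it is `y₁⟨b⟩`). Induction on the number of steps, two at a time. -/
def Stmt_LK2 : Prop :=
  ∀ (S : Type) [DecidableEq S] (M : CoxeterMatrix S), HypType M → ∀ (ε : ℝ)
    (v : Vtx (gen M)) (a b : S), a ≠ b → v.J = {a, b} → ∀ ω : List (Stp (Vtx (gen M))), ω ≠ [] →
    LPath Vtx.ad v ω → (∀ s ∈ ω.head?, s.a.J = {a}) → (∀ s ∈ ω.getLast?, s.b.ty = 1) →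
    ∃ (k : ℕ) (y : Art M) (l : List ℤ), l.length = k ∧ (∀ x ∈ l, x ≠ 0) ∧
      (∀ s ∈ ω.head?, s.b.ty = 0 ∧ s.b.mem y ∧ s.a.mem y) ∧
      (∀ s ∈ ω.getLast?, s.a.ty = 0 ∧ s.a.mem (y * altP (gen M b) (gen M a) l) ∧
        s.b.mem (y * altP (gen M b) (gen M a) l) ∧ s.b.J = if Even k then {b} else {a}) ∧
      wts (ang M ε) v ω = (k + 1 : ℝ) / (M a b : ℝ)

/-- LP2 (uses LK2, DSLG): closed reduced link paths at a type 2 vertex. Rotate so that the path starts at a type 1
vertex `n` of label `a`, `b` the other label. LK2 with `p = n`: `k` is odd; `y` and `y * altP b a l` are both in `n`, so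
`altP b a l * a^e = 1`, `e ≠ 0` as the type 0 vertices before and after `n` are different; `l ++ [e]` has even length
`k + 1`, DSLG: `k + 1 ≥ 2m`. -/
def Stmt_LP2 : Prop :=
  ∀ (S : Type) [DecidableEq S] (M : CoxeterMatrix S), HypType M → ∀ (ε : ℝ)
    (v : Vtx (gen M)) (ω : List (Stp (Vtx (gen M)))), v.ty = 2 → ω ≠ [] → LPath Vtx.ad v ω →
      (∀ s ∈ ω.getLast?, ∀ t ∈ ω.head?, Cmp s t) → 2 ≤ wts (ang M ε) v ω

/-- NPC (uses LP0, LP1, LP2): nonpositive curvature. In a triangle with type 2 vertex of labels `{s,t}`,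
`m = M s t ≥ 2`, the angles are `1/2 - 1/(2m) - ε`, `1/2`, `1/(2m)`. Existence of `ε` with `EpsOK M ε`: `S` is finite. -/
def Stmt_NPC : Prop :=
  ∀ (S : Type) [Finite S] [DecidableEq S] (M : CoxeterMatrix S), HypType M →
    ∃ ε : ℝ, NPC (V := Vtx (gen M)) Vtx.ad (ang M ε) ε

/-- STR (uses LK2, DSLG): a walk in the fixed set of a reflection without backtracking is straight.
`q` has type 1 or 2 (a reflection has exponent sum `1`, so it is not trivial and fixes no type 0 vertex).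
Type 1: `n, p` have type 2; a link path from `p` to `n ≠ p` has at least 2 steps, each of weight `1/2`.
Type 2, `m` the label of `q`: `n, p` have type 1. A reduced link path from `p` to `n`: LK2 (with `p` of label `a`):
weight `(k+1)/m`. `r` fixes `p ∋ y`: `y⁻¹ r y` is a power of `gen a` of exponent sum `1`, `r = y a y⁻¹`; in the same way
`r = y w c w⁻¹ y⁻¹`, `w = altP b a l`, `c` the label of `n`. So `w c w⁻¹ a⁻¹ = 1`: the list
`l ++ [1] ++ (l.map neg).reverse ++ [-1]` of even length `2k+2` (alternating in `b, a`), DSLG: `2k + 2 ≥ 2m`. -/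
def Stmt_STR : Prop :=
  ∀ (S : Type) [DecidableEq S] (M : CoxeterMatrix S), HypType M → ∀ (ε : ℝ) (r : Art M)
    (p q n : Vtx (gen M)), Rfl (gen M) r → q.ad p → q.ad n → p ≠ n → r • p = p → r • q = q →
    r • n = n → Str Vtx.ad (ang M ε) q n p

/-- EXC (uses FINS, FROT, FTRI): a closed walk of vertices adjacent to `c` is fillable. `F [c, w₀, …, w_k]` for a path
`w₀, …, w_k`, by induction on `k`: `F (c :: w₁ :: rest)`, insert `[w₁, w₀]` (FINS): `F (c :: w₁ :: w₀ :: w₁ :: rest)`, FTRI at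
`c, w₁, w₀`: `F (c :: w₀ :: w₁ :: rest)`. Finally FTRI at `w_k, c, w₀` (rotated). -/
def Stmt_EXC : Prop :=
  ∀ (V A : Type) [AddCommGroup A] (adj : V → V → Prop) (T : V → V → V → A), TriOK adj T →
    ∀ (c : V) (l : List V), CW adj l → (∀ v ∈ l, adj c v) → ∃ D n, Fill adj T l D n

/-- EXF1 (uses EXC, FINS, FROT, FTRI, FBR, FREV, FCAT, EQV, TTOK): closed walks of words are fillable. For
`L : List (S × Bool)` let `N(L)`: ``wwalk x L` is fillable for all `x`` (by EQV it is enough for one `x`).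
(a) If `L` and `L'` differ by a free reduction (`(s,b),(s,!b)` removed) then `N(L) ↔ N(L')`: removing the
four vertices `o x, e x s, o (x s), e x s` is two backtracks (FBR); inserting: FINS with `r = [a,b]` twice.
(b) `N(L₁)`, `N(L₂)` (closed words) imply `N(L₁ ++ L₂)` (FCAT); `N(L) → N(L⁻¹)` (FREV, rotation); `N` is invariant
under conjugation (insert the closed walk `wwalk (x ū) L` in the fillable walk of `u u⁻¹` by FINS). So `N`
defines a normal subgroup of the free group. (c) It contains the braid relators: all vertices of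
`wwalk x (alt s t m (alt t s m)⁻¹)` are adjacent to the type 2 vertex `c = x A_{st}`: EXC. (d) A word which is
trivial in `Art M` is in the normal closure of the relators. -/
def Stmt_EXF1 : Prop :=
  ∀ (S : Type) (M : CoxeterMatrix S), (∀ s t, M s t ≠ 0) → ∀ (x : Art M) (L : List (S × Bool)),
    (L.map (fun p => if p.2 then gen M p.1 else (gen M p.1)⁻¹)).prod = 1 →
    ∃ D n, Fill Vtx.ad TT (wwalk (gen M) x L) D n

/-- EXF (uses EXF1, FINS, FROT, FTRI, FBR, FCAT, TTOK): every closed walk is fillable. Say that two walks `P, Q`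
with the same ends `a, b` are equivalent, `P ~ Q`, if replacing `P` by `Q` in a closed walk does not change
fillability. Let `o x` be the type 0 vertex `x`. (a) If `v, w` are adjacent and both contain `x` then the walk
`v, w` is equivalent to `v, o x, w` (if `v` or `w` is `o x`: insertion or removal of nothing or of a backtrack;
otherwise they are the three vertices of a triangle; FTRI removes the middle vertex; to insert the middle
vertex insert a backtrack `v, o x, v` (FINS) and use FTRI at `o x, v, w`). (b) If `x, y ∈ v`, then `y = x ū` for a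
word `u` in the letters of `v.J`, and `o x, v, o y` is equivalent to the word walk from `o x` to `o y`: induction on
`u`, for one letter `s`: `o x, x⟨s⟩, o (x s)` and `o x, v, o (x s)` are equivalent (triangles, or `x⟨s⟩ = v`). (If `v` has
type 0 then `x = y`, nothing to do.) So a closed walk `v₀, …, v_k` with `z_i ∈ v_i ∩ v_{i+1}` is equivalent to
`o z_k, v₀, o z₀, v₁, o z₁, …` and then to the walk of a word trivial in `Art M`: EXF1. -/
def Stmt_EXF : Prop :=
  ∀ (S : Type) (M : CoxeterMatrix S), (∀ s t, M s t ≠ 0) → ∀ l : List (Vtx (gen M)),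
    CW Vtx.ad l → ∃ D n, Fill Vtx.ad TT l D n

/-- XISO (uses NPC, STR, ISO, EXF, TTOK, FCW): flagged closed walks. `C = ⌈1/ε⌉`. -/
def Stmt_XISO : Prop :=
  ∀ (S : Type) [Finite S] (M : CoxeterMatrix S), HypType M → ∃ C : ℕ,
    ∀ P : List (Vtx (gen M) × Bool), P ≠ [] → CW Vtx.ad (P.map Prod.fst) → RFlag P →
      2 ≤ nns P ∧ ∃ D n, Fill Vtx.ad TT (P.map Prod.fst) D n ∧ n ≤ C * (nns P - 2)

/-- INJ2 (uses EXF, CONN, NPC, UNI, BD, FCAT, FBR, FREV, FTRI, TTOK): `bd2` is injective on flagged chains.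
Fix a vertex `o` and walks `γ_u` from `o` to `u`. For adjacent `u, v` let `f(u,v)` be the chain of a filling of the closed
walk `γ_u (u v) γ_v⁻¹` (EXF; unique by UNI). Then `f(v,u) = - f(u,v)` and, for a triangle `u, v, c`,
`f(u,v) + f(v,c) + f(c,u) = TT u v c` (concatenate the three closed walks, remove backtracks:
`γ_u (u v c) γ_u⁻¹`, which is also filled by `TT u v c`). Let `h : C1 → C2` be additive with
`h (single (u,v) 1) = f(u,v)`. Then `h (bd2 D) = D` for flagged `D`. -/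
def Stmt_INJ2 : Prop :=
  ∀ (S : Type) [Finite S] (M : CoxeterMatrix S), HypType M → ∀ D : C2 (gen M), Flagged D →
    bd2 (gen M) D = 0 → D = 0

/-- X1 (uses XISO, INJ2, BD, BD1, CONN, ZL, ZPER, ZG). Let `γ` be a walk from `v` to `w`. For each `N` the closed
walk `γ (h^N γ)⁻¹` has a chain `D_N`, `bd2 D_N = wch γ - h^N wch γ`, with norm at most `2 C |γ|`;
`D_N = ∑_{i<N} h^i D_1` by INJ2. `h^k`, `k > 0`, fixes no flag (type 0 vertices have trivial stabiliser), so ZL gives
`D_1 = P - h P`, `P` flagged. `E = wch γ - bd2 P` satisfies `h E = E` and `bd1 E = w - v`. By ZPER each edge of the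
support of `E` is fixed by a power of `h`; let `h^K` fix all of them. ZG: a walk from `v` to `w` in the support
(its edges are adjacent pairs). -/
def Stmt_X1 : Prop :=
  ∀ (S : Type) [Finite S] (M : CoxeterMatrix S), HypType M → ∀ (h : Art M) (v w : Vtx (gen M)),
    (∀ k : ℕ, 0 < k → h ^ k ≠ 1) → v ≠ w → h • v = v → h • w = w →
    ∃ K : ℕ, 0 < K ∧ ∃ l, Wk l v w ∧ Fx (h ^ K) l

/-- X2 (uses XISO, INJ2, BD, BD1, CONN, ZZ1, ZZ2, ZPER). Suppose no `h^a x^b`, `(a,b) ≠ 0`, fixes a vertex. Let `v` be a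
vertex, `α` a walk from `v` to `h v`, `β` a walk from `v` to `x v`. For `M, N` let `D_{M,N}` be the chain of the
closed walk `α^{(M)} · h^M β^{(N)} · (x^N α^{(M)})⁻¹ · (β^{(N)})⁻¹` (`α^{(M)} = pw h α M`); norm `≤ 2C (M |α| + N |β|)`
(if the closed walk is empty take `0`). By INJ2 `D_{M,N} = ∑_{i<M,j<N} h^i x^j D`, `D = D_{1,1}`,
`bd2 D = (1-x) A₀ - (1-h) B₀`, `A₀ = wch α`, `B₀ = wch β`. ZZ1: `D = (1-h) P + (1-x) Q`. So
`(1-x)(A₀ - bd2 Q) = (1-h)(B₀ + bd2 P)`. ZZ2: `A₀ - bd2 Q = (1-h) E`. Apply `bd1`: `(h-1) v = (1-h) bd1 E`, so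
`bd1 E + v` is `h`-invariant, hence `0` by ZPER. The sum of the coefficients gives `0 + 1 = 0`. -/
def Stmt_X2 : Prop :=
  ∀ (S : Type) [Finite S] (M : CoxeterMatrix S), HypType M → ∀ h x : Art M, Commute h x →
    ∃ (a b : ℤ) (v : Vtx (gen M)), ¬(a = 0 ∧ b = 0) ∧ (h ^ a * x ^ b) • v = v

/-- BIG (uses XISO, FTWO, TTOK): reduced walks in fixed sets of reflections with the same ends are equal.
Closed walk `P.dropLast ++ Q.reverse.dropLast`, all positions flagged except `v` and `w`. If it is empty, both are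
`[v]`. If only one of `P, Q` is a single vertex, only one position is not flagged, against XISO. Otherwise
`nns = 2`, so it has a filling with `n = 0`; FTWO. -/
def Stmt_BIG : Prop :=
  ∀ (S : Type) [Finite S] (M : CoxeterMatrix S), HypType M → ∀ (r₁ r₂ : Art M) (v w : Vtx (gen M))
    (P Q : List (Vtx (gen M))), Rfl (gen M) r₁ → Rfl (gen M) r₂ → Wk P v w → Wk Q v w → Fx r₁ P →
    Fx r₂ Q → Red P → Red Q → P = Q

/-- CYC (uses XISO): there is no cyclically reduced closed walk in the fixed set of a reflection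
(all positions are flagged, `nns = 0`). -/
def Stmt_CYC : Prop :=
  ∀ (S : Type) [Finite S] (M : CoxeterMatrix S), HypType M → ∀ (r : Art M)
    (l : List (Vtx (gen M))), Rfl (gen M) r → l ≠ [] → CW Vtx.ad l → Fx r l →
    (∀ x q y, l = x ++ q :: y → ∀ n ∈ (y ++ x).head?, ∀ p ∈ (y ++ x).getLast?, n ≠ p) → False

/-- AXIS: translation axis. Among all walks in the fixed set of `r` from a vertex `p` to `x p` take a shortest one
`l` (over all `p`); it exists by `conn` (`x p` is fixed by `r`). Its length is at least 2 vertices; it is reduced.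
`pw x l N` is reduced: a backtrack at a junction `x^i p` would mean, for `l = (p, y', …, y, x p)`, `y = x y'` (if `l` has
length 2: then `p, x p` adjacent, impossible since they have the same type); if `l` has at least 4 vertices
then `y', …, y = x y'` is shorter; if it has 3, `y = y'` is fixed by `x`, excluded by hypothesis. -/
def Stmt_AXIS : Prop :=
  ∀ (G S : Type) [Group G] (g : S → G) (r x : G), Commute x r → (∃ p : Vtx g, r • p = p) →
    (∀ v w : Vtx g, r • v = v → r • w = w → ∃ l, Wk l v w ∧ Fx r l) →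
    (∀ p : Vtx g, r • p = p → x • p ≠ p) →
    ∃ (p : Vtx g) (l : List (Vtx g)), Wk l p (x • p) ∧ Fx r l ∧ 2 ≤ l.length ∧ ∀ N, Red (pw x l N)

/-- X3 (uses AXIS, F3C, XISO, INJ2, BD, BD1, CONN, ZL, ZX, ZPER). Suppose `c^k` fixes no vertex for `k > 0`. By
AXIS there are `p_i`, `l_i` (walk from `p_i` to `c p_i` in the fixed set of `r_i`) with `pw c l_i N` reduced. Let `δ` be
a walk from `p₁` to `p₂`. Closed walk `pw c l₁ N · c^N δ · (pw c l₂ N)⁻¹ · δ⁻¹`, flagged at the interior positions of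
the two long sides; so its chain `D_N` has norm at most a constant; `D_N = ∑_{i<N} c^i D_1` (INJ2),
`bd2 D_1 = A - B - (1-c) δ`, `A = wch l₁`, `B = wch l₂`. ZL: `D_1 = P - c P`. `A - B = (1-c)(δ + bd2 P)`. `A` is not of the
form `E - c E`: apply `bd1`: `c p₁ - p₁ = (1-c) bd1 E`, `bd1 E + p₁` is invariant, so `0` by ZPER, against the sum
of coefficients. ZX: edges `a` of `l₁` and `b = c^k a` of `l₂`. `b` is fixed by `r₁` (which commutes with `c`) and by
`r₂`; one of its vertices has type 1 (types 1, 2 since a reflection fixes no type 0 vertex), with stabiliser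
generated by a conjugate `r` of a generator; by exponent sums `r₁ = r = r₂`. -/
def Stmt_X3 : Prop :=
  ∀ (S : Type) [Finite S] (M : CoxeterMatrix S), HypType M → ∀ c r₁ r₂ : Art M, Rfl (gen M) r₁ →
    Rfl (gen M) r₂ → r₁ ≠ r₂ → Commute c r₁ → Commute c r₂ →
    ∃ k : ℕ, 0 < k ∧ ∃ v : Vtx (gen M), (c ^ k) • v = v

/-! ## T. Elements -/

/-- TFE (uses DTF): elements fixing a vertex have infinite order or are trivial (type 0: trivial; type 1:
exponent sum; type 2: DTF). -/
def Stmt_TFE : Prop :=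
  ∀ (S : Type) (M : CoxeterMatrix S), (∀ s t, M s t ≠ 0) → ∀ (h : Art M) (v : Vtx (gen M)),
    h • v = v → h ≠ 1 → ∀ k : ℕ, 0 < k → h ^ k ≠ 1

/-- F3 (uses X1, DROOT, TFE): the fixed set of a power of a reflection is that of the reflection, and it is
connected. `r = x s x⁻¹` fixes the type 1 vertex `v = x⟨s⟩`. If `r^k` fixes `w ≠ v`, X1 (for `r^{|k|}`) gives a walk from
`v` to `w` fixed by `r^j`, `j ≠ 0`. By induction each vertex of it is fixed by `r`: if `q` is fixed by `r` and `q'`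
adjacent to `q` is fixed by `r^j`: `q'` has type 1 or 2; if `q` has type 1 then `q'` has type 2 and contains `q`,
fixed by `r`; if `q = y A_{st}` has type 2, `q' = y⟨s⟩` (`y` in both): `(y⁻¹ r y)^j ∈ ⟨s⟩`, `≠ 1`, so by DROOT
`y⁻¹ r y ∈ ⟨s⟩`. So `r w = w` and `v`, `w` are joined in the fixed set. -/
def Stmt_F3 : Prop :=
  ∀ (S : Type) [Finite S] (M : CoxeterMatrix S), HypType M → ∀ r : Art M, Rfl (gen M) r →
    (∀ k : ℤ, k ≠ 0 → ∀ w : Vtx (gen M), (r ^ k) • w = w → r • w = w) ∧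
    (∀ v w : Vtx (gen M), r • v = v → r • w = w → ∃ l, Wk l v w ∧ Fx r l)

/-- F4 (uses F3): `r^k = r₂^j`, `k ≠ 0`, implies `r = r₂` (reflections): `r₂` fixes a type 1 vertex `v₂` with
stabiliser `⟨r₂⟩`; `r^k` fixes it, so `r` fixes it (F3), `r = r₂^i`, `i = 1` by exponent sums. If `y` commutes with
`r^k`, `k ≠ 0`, then `(y r y⁻¹)^k = r^k`, so `y r y⁻¹ = r`. -/
def Stmt_F4 : Prop :=
  ∀ (S : Type) [Finite S] (M : CoxeterMatrix S), HypType M → ∀ r : Art M, Rfl (gen M) r →
    ∀ k : ℤ, k ≠ 0 → (∀ r₂ : Art M, Rfl (gen M) r₂ → ∀ j : ℤ, r ^ k = r₂ ^ j → r = r₂) ∧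
      (∀ y : Art M, Commute y (r ^ k) → Commute y r)

/-- F8 (uses F3, BIG): two reflections fixing two common vertices are equal. F3: walks from `v` to `w` in the
two fixed sets; make them reduced (remove backtracks); equal by BIG; they have an edge, one of its vertices
has type 1, its stabiliser is generated by a reflection; exponent sums. -/
def Stmt_F8 : Prop :=
  ∀ (S : Type) [Finite S] (M : CoxeterMatrix S), HypType M → ∀ (r₁ r₂ : Art M)
    (v w : Vtx (gen M)), Rfl (gen M) r₁ → Rfl (gen M) r₂ → v ≠ w → r₁ • v = v → r₁ • w = w →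
    r₂ • v = v → r₂ • w = w → r₁ = r₂

/-- F6 (uses AXIS, F3, CYC, DROOT, TFE): `x` commutes with `r`, `x^a ∈ ⟨r⟩`, `a > 0`, implies `x ∈ ⟨r⟩`. First `x` fixes a
vertex fixed by `r`: otherwise AXIS gives `l`, and `(pw x l a).dropLast` is a closed walk (`x^a p = p` as
`x^a ∈ ⟨r⟩`), cyclically reduced (use `pw x l (a+1)` for the backtrack at `p`; `x^a` is the identity on the fixed
set of `r`), against CYC. Let `q` be fixed by `r` and `x`. Type 1: the stabiliser of `q` is `⟨r'⟩`, `r'` a reflection,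
`r ∈ ⟨r'⟩`, so `r = r'` (exponent sum) and `x ∈ ⟨r⟩`. Type 2: `r` also fixes a type 1 vertex, so by F3
(connectedness) a type 1 vertex `y⟨s⟩` adjacent to `q`, `y ∈ q`, and `r = y s y⁻¹` (exponent sum);
`(y⁻¹ x y)^a = s^b`. If `b ≠ 0` DROOT: `y⁻¹ x y ∈ ⟨s⟩`. If `b = 0`, `x^a = 1`, `x = 1` by TFE. -/
def Stmt_F6 : Prop :=
  ∀ (S : Type) [Finite S] (M : CoxeterMatrix S), HypType M → ∀ (r x : Art M) (a : ℕ) (b : ℤ),
    Rfl (gen M) r → Commute x r → 0 < a → x ^ a = r ^ b → ∃ i : ℤ, x = r ^ i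

/-- F5 (uses X1, TFE, F4, F6): an element fixing `v` is a power of a reflection, or `v` is the only vertex
fixed by any of its nontrivial powers. If `h^k` (`k ≠ 0`, `h ≠ 1`) fixes `w ≠ v`, X1 for `h^{|k|}` (infinite order by TFE)
gives a walk from `v` to `w` fixed by `h^j`, `j > 0`; its first edge has a type 1 vertex (a nontrivial element fixes
no type 0 vertex), with stabiliser `⟨r⟩`; `h^j = r^i`, `i ≠ 0`. `h` commutes with `r^i`, so with `r` (F4), and F6. -/
def Stmt_F5 : Prop :=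
  ∀ (S : Type) [Finite S] (M : CoxeterMatrix S), HypType M → ∀ (h : Art M) (v : Vtx (gen M)),
    h ≠ 1 → h • v = v → (∃ r, Rfl (gen M) r ∧ ∃ i : ℤ, h = r ^ i) ∨
      (∀ k : ℤ, k ≠ 0 → ∀ w : Vtx (gen M), (h ^ k) • w = w → w = v)

/-- F10 (uses DPG): a reflection fixes two different type 2 vertices of label at least 3. By translation
`r = gen s`. At most one `t` has `M s t = 2` (hyperbolic triples). If there are `t₁ ≠ t₂` with `M s t_i ≥ 3`: the
vertices `A_{s t₁}`, `A_{s t₂}` containing `1`. Otherwise `S = {s,t,r}`, `M s t = 2`, `M s r ≥ 3`: `A_{sr}` and `t A_{sr}`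
(`t⁻¹ s t = s`), different since `gen t ∉ A_{sr}` (DPG). -/
def Stmt_F10 : Prop :=
  ∀ (S : Type) [Finite S] (M : CoxeterMatrix S), HypType M → 3 ≤ Nat.card S → ∀ r : Art M,
    Rfl (gen M) r → ∃ u₁ u₂ : Vtx (gen M), u₁ ≠ u₂ ∧ r • u₁ = u₁ ∧ r • u₂ = u₂ ∧
      (∀ u ∈ [u₁, u₂], u.ty = 2 ∧ 3 ≤ lb M u.J)

/-- CZ (uses F5, F4, F3, DCEN, DCPC): the centre of a type 2 stabiliser. Let `u = x A_{st}`, `M s t ≥ 3`,
`z = x (st)^{M s t} x⁻¹` (`≠ 1`, commutes with the stabiliser of `u`). (1) `z^k`, `k ≠ 0`, fixes only `u`: otherwise by F5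
`z = r^i`, `i ≠ 0`; the stabiliser of `u` commutes with `r^i`, so with `r` (F4); `r` fixes `u` (F3), so `x⁻¹ r x ∈ A_{st}` is
central there; by DCPC (`K = 1`) it is conjugate to `(st)^l` or `Δ^l`, exponent sum `1 = 2l` or `1 = m l`,
impossible. (2) if `y` commutes with `z^k` then `z^k` fixes `y u`, so `y u = u`. -/
def Stmt_CZ : Prop :=
  ∀ (S : Type) [Finite S] (M : CoxeterMatrix S), HypType M → ∀ (s t : S) (x : Art M)
    (u : Vtx (gen M)), s ≠ t → 3 ≤ M s t → (∀ a, a ∈ u.J ↔ a = s ∨ a = t) → u.mem x →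
    ∀ k : ℤ, k ≠ 0 →
      (∀ w : Vtx (gen M), ((x * (gen M s * gen M t) ^ M s t * x⁻¹) ^ k) • w = w → w = u) ∧
      (∀ y : Art M, Commute y ((x * (gen M s * gen M t) ^ M s t * x⁻¹) ^ k) → y • u = u)

/-- INT (uses F5, F3, F8): `h` fixes two different vertices `u₁, u₂` fixed by the reflection `r`: `h ∈ ⟨r⟩`.
`h = 1` or by F5 `h = r'^i`, `i ≠ 0`; F3: `r'` fixes `u₁, u₂`; F8: `r' = r`. -/
def Stmt_INT : Prop :=
  ∀ (S : Type) [Finite S] (M : CoxeterMatrix S), HypType M → ∀ (r h : Art M)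
    (u₁ u₂ : Vtx (gen M)), Rfl (gen M) r → u₁ ≠ u₂ → r • u₁ = u₁ → r • u₂ = u₂ → h • u₁ = u₁ →
    h • u₂ = u₂ → ∃ i : ℤ, h = r ^ i

/-- F7 (uses F10, CZ, INT, DCEN): an element commuting with the centraliser of a reflection `r` is a power of
`r`: for the two vertices `u_i` of F10, `z_{u_i}` commutes with `r`, so with `z`; CZ (2): `z` fixes `u₁, u₂`; INT. -/
def Stmt_F7 : Prop :=
  ∀ (S : Type) [Finite S] (M : CoxeterMatrix S), HypType M → 3 ≤ Nat.card S → ∀ r z : Art M,
    Rfl (gen M) r → (∀ y, Commute y r → Commute z y) → ∃ i : ℤ, z = r ^ i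

/-! ## C. Isomorphisms -/

/-- CA (uses X2, X3, F3, F4, F5, F6, F7, CZ, DNCM, DCEN, DCPC): images of type 2 stabilisers. `u.J = {s,t}`,
`m = M s t ≥ 3`, `x ∈ u`, `a = x s x⁻¹`, `b = x t x⁻¹`, `z = x (st)^m x⁻¹` (commutes with the stabiliser `G_u`), `c = φ z`.
(I) Some `c^k`, `k > 0`, fixes a vertex. Suppose not. Let `y ∈ {a, b}`. X2 for `c, φ y`: `e' = c^α φ(y)^β` fixes a vertex
`v`, `(α,β) ≠ 0`; `β ≠ 0` (otherwise a power of `c` fixes `v`). `e = z^α y^β ≠ 1` (otherwise `y^β` commutes with `G_u`,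
against DNCM). `e'` commutes with `c`, so fixes `c v ≠ v`; F5: `e' = r'^i`, `i ≠ 0`. `e` fixes `u`. F5 for `e`: if `u` is the only
fixed vertex of `e`: for `y' ∈ C(r')`, `φ⁻¹ y'` commutes with `e`, so fixes `u`, so commutes with `z`, so `y'` commutes with
`c`; F7: `c ∈ ⟨r'⟩` fixes a vertex, contradiction. So `e = r₁^j`, `j ≠ 0`; by F4 `C(r₁) = C(e)`, `C(r') = C(e')`, so
`φ(C(r₁)) = C(r')`; by F7 on both sides `φ(r₁) ∈ ⟨r'⟩`, `φ⁻¹(r') ∈ ⟨r₁⟩`, so `φ(r₁) = r'^{±1}`. `r₁` fixes `u` (F3), commutes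
with `y` (`e` does, F4); `c` commutes with `r'`. Doing this for `y = a` and `y = b`: `r₁, r₁'` and `r₂, r₂'`. If `r₁' = r₂'` then
`r₁ = r₂^{±1}`, `r₁ = r₂` by exponent sum, commuting with `a` and `b`; then `x⁻¹ r₁ x` is central in `pr s t`, against DCPC
and exponent sums (as in CZ). So `r₁' ≠ r₂'` both commute with `c`; X3 gives a contradiction.
(II) `c^k ≠ 1` (exponent sum of `z` is `2m`) fixes `v`. If `c^k = r'^i`, `i ≠ 0`: `φ(G_u) ⊆ C(c^k) = C(r')`. `y = a b`,
`y^m = z`: `φ(y)^{mk} = r'^i`, by F6 `φ(y) ∈ ⟨r'⟩` commutes with `φ(G_u)`, so `ab` commutes with `a`, so does `b`, against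
DNCM. So by F5 `v` is the only vertex fixed by `c^k`, hence fixed by `φ(G_u)`; `v` has not type 0 (`c^k ≠ 1`) nor
type 1 (`c^k` would be a power of a reflection); if its label is 2 its stabiliser is abelian, so `a, b` commute,
against DNCM. -/
def Stmt_CA : Prop :=
  ∀ (S S' : Type) [Finite S] [Finite S'] (M : CoxeterMatrix S) (M' : CoxeterMatrix S'),
    HypType M → HypType M' → 3 ≤ Nat.card S → 3 ≤ Nat.card S' → ∀ (φ : Art M ≃* Art M')
    (u : Vtx (gen M)), u.ty = 2 → 3 ≤ lb M u.J →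
    ∃ u' : Vtx (gen M'), u'.ty = 2 ∧ 3 ≤ lb M' u'.J ∧ ∀ h : Art M, h • u = u → φ h • u' = u'

/-- CB (uses CA, CZ, DCEN): the stabilisers correspond: CA for `φ` and for `φ⁻¹`: `G_u ⊆ φ⁻¹ G'_{u'} ⊆ G_{u''}`; `z_u` fixes
`u''`, so `u'' = u` by CZ (1). -/
def Stmt_CB : Prop :=
  ∀ (S S' : Type) [Finite S] [Finite S'] (M : CoxeterMatrix S) (M' : CoxeterMatrix S'),
    HypType M → HypType M' → 3 ≤ Nat.card S → 3 ≤ Nat.card S' → ∀ (φ : Art M ≃* Art M')
    (u : Vtx (gen M)), u.ty = 2 → 3 ≤ lb M u.J →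
    ∃ u' : Vtx (gen M'), u'.ty = 2 ∧ 3 ≤ lb M' u'.J ∧ ∀ h : Art M, h • u = u ↔ φ h • u' = u'

/-- CC (uses CB, CZ, F10, F3, F5, INT, DCEN): reflections go to reflections or their inverses. `r` fixes `u₁ ≠ u₂` (F10);
`u₁' ≠ u₂'` (otherwise the stabilisers of `u₁, u₂` are equal, `z_{u₁}` fixes `u₂`). `φ(r) ≠ 1` fixes `u₁', u₂'`; F5:
`φ(r) = r'^i`, `i ≠ 0`; `r'` fixes `u₁', u₂'` (F3), so `φ⁻¹(r')` fixes `u₁, u₂`; INT: `φ⁻¹(r') = r^l`; `r = r^{l i}`, `l i = 1`. -/
def Stmt_CC : Prop :=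
  ∀ (S S' : Type) [Finite S] [Finite S'] (M : CoxeterMatrix S) (M' : CoxeterMatrix S'),
    HypType M → HypType M' → 3 ≤ Nat.card S → 3 ≤ Nat.card S' → ∀ (φ : Art M ≃* Art M')
    (r : Art M), Rfl (gen M) r → ∃ r', Rfl (gen M') r' ∧ (φ r = r' ∨ φ r = r'⁻¹)

/-- PROD (uses CB, CC, DCPC, DCEN): `M s t ≥ 3`; `φ(gen s gen t)` is conjugate to `(gen s' gen t')^{±1}`, `s' ≠ t'`,
`M' s' t' ≥ 3`. Let `u = A_{st}`, `u' = y A_{s't'}` (CB). `Y = y⁻¹ φ(st) y ∈ pr s' t'`, `Y^{M s t}` commutes with `pr s' t'` (`(st)^{M s t}`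
commutes with `G_u`). DCPC: `Y` is conjugate to `(s't')^l` or `Δ'^l`. By CC the exponent sum of `φ(st)` is `0` or `±2`:
`2 l ∈ {0, ±2}` or `m' l ∈ {0,±2}`, `m' ≥ 3`; `l = 0` is impossible (`φ(st) ≠ 1`), so `Y` is conjugate to `(s't')^{±1}`. -/
def Stmt_PROD : Prop :=
  ∀ (S S' : Type) [Finite S] [Finite S'] (M : CoxeterMatrix S) (M' : CoxeterMatrix S'),
    HypType M → HypType M' → 3 ≤ Nat.card S → 3 ≤ Nat.card S' → ∀ (φ : Art M ≃* Art M')
    (s t : S), s ≠ t → 3 ≤ M s t → ∃ (s' t' : S') (w : Art M'), s' ≠ t' ∧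
      (φ (gen M s * gen M t) = w * (gen M' s' * gen M' t') * w⁻¹ ∨
        φ (gen M s * gen M t) = w * (gen M' s' * gen M' t')⁻¹ * w⁻¹)

/-- WB (uses CC, PROD): the induced isomorphism of Coxeter groups. `Art M → Art M' → M'.Group` (`gen s ↦ simple s`,
well defined: two involutions `a, b` satisfy the braid relation of length `m` iff `(ab)^m = 1`) sends each
generator to a conjugate of a simple reflection, so it factors through `M.Group`; same for `φ⁻¹`; the two
homomorphisms are inverse to each other (check on generators: `φ⁻¹(φ(s)) = s`). -/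
def Stmt_WB : Prop :=
  ∀ (S S' : Type) [Finite S] [Finite S'] (M : CoxeterMatrix S) (M' : CoxeterMatrix S'),
    HypType M → HypType M' → 3 ≤ Nat.card S → 3 ≤ Nat.card S' → Nonempty (Art M ≃* Art M') →
    ∃ ψ : M.Group ≃* M'.Group, (∀ s, ∃ w s', ψ (M.simple s) = w * M'.simple s' * w⁻¹) ∧
      (∀ s', ∃ w s, ψ.symm (M'.simple s') = w * M.simple s * w⁻¹) ∧
      (∀ s t, s ≠ t → 3 ≤ M s t → ∃ w s' t', s' ≠ t' ∧
        ψ (M.simple s * M.simple t) = w * (M'.simple s' * M'.simple t') * w⁻¹)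

end Pool.HA
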