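import Pool.Agent.Work.MP_7084a3_h91.Defs

set_option autoImplicit false

/-! # Blocks F (calculus of fillings), G (Gauss–Bonnet), Z (integer chains with a permutation)

Each `Stmt_X` is a block; the comment above it is its complete proof.  The theorem of the block file
is `theorem stmt_X : Stmt_X` (or `Stmt_Y → … → Stmt_X`, the hypotheses listed in the table).
`closed walk` = list `[v₀,…,v_{L-1}]` read cyclically, `[]` = trivial. `F l D n` = `Fill adj T l D n`. -/

namespace Pool.HA

/-! ## F. Calculus of fillings -/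

/-- FCAT: concatenation of fillings with the same base point.
First `F w D n → F [] D' n' → F w (D+D') (n+n')` by induction on the first derivation (`nil`: clear;
`sph`, `tri`, `pair`: apply the induction hypothesis to one premise).  Then the claim by induction on the
derivation of `F r`: `nil`: the case just done; `sph`: `r = []` too; `pair` with `r = u :: (P₁ ++ v :: P₂)`:
if `P₂ = []` use `pair` with `P₂ := w` (its head is `u`), and add the sphere `D₂` by the first case;
if `P₂ ≠ []` its head is `u`, apply the induction hypothesis to `P₂` and `w`, then `pair`;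
`tri`: induction hypothesis, then `tri`. (If `w = []` it is the first case.) -/
def Stmt_FCAT : Prop :=
  ∀ (V A : Type) [AddCommGroup A] (adj : V → V → Prop) (T : V → V → V → A)
    (r w : List V) (D' D : A) (n' n : ℕ), Fill adj T r D' n' → Fill adj T w D n →
    (∀ z ∈ r.head?, ∀ z' ∈ w.head?, z = z') → Fill adj T (r ++ w) (D' + D) (n' + n)

/-- FINS (uses FCAT): insertion of a closed walk `r` at a passage through its base point.
Induction on the derivation of `F (x ++ y)`, generalising `x, y`. `x = []`: FCAT. `pair`, `x = u :: x'`,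
`P₁ ++ v :: P₂ = x' ++ y`: either `P₁ = x' ++ y'`, `y = y' ++ v :: P₂`, insert in `P₁`
(if `y' = []` the head of `r` is `v`; if also `x' = []` use FCAT with `P₁ = []`), or `x' = P₁ ++ v :: x''`,
`P₂ = x'' ++ y`, insert in `P₂` (if `y = []` the head of `r` is `u`).
`tri`, `w = u :: v :: q`: `x = [u]`: the head of `r` is `v`, `r = v :: r'`; the induction hypothesis at
`[u,c] ++ v :: q` gives `F (u :: c :: v :: (r' ++ v :: q))`, then `tri`; `x = u :: v :: x'`: induction
hypothesis with `x := u :: c :: v :: x'`, then `tri`. -/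
def Stmt_FINS : Prop :=
  ∀ (V A : Type) [AddCommGroup A] (adj : V → V → Prop) (T : V → V → V → A)
    (x y r : List V) (D D' : A) (n n' : ℕ), Fill adj T (x ++ y) D n → Fill adj T r D' n' →
    (∀ z ∈ r.head?, z ∈ (y ++ x).head?) → Fill adj T (x ++ (r ++ y)) (D + D') (n + n')

/-- FCW: a filled closed walk is a closed walk (induction on the derivation). -/
def Stmt_FCW : Prop :=
  ∀ (V A : Type) [AddCommGroup A] (adj : V → V → Prop) (T : V → V → V → A), TriOK adj T →
    ∀ (l : List V) (D : A) (n : ℕ), Fill adj T l D n → CW adj l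

/-- FROT (uses FCAT, FCW): rotation. It is enough to show ROT(n): `F (u :: q) D n → F (q ++ [u]) D n`.
Prove ROT(n) by strong induction on `n`.
TL(k), assuming ROT(k') for all `k' ≤ k`: if `F (v :: (z ++ [u,c])) D k`, `adj u v`, `adj u c`, `adj c v`
then `F (v :: (z ++ [u])) (D + T u v c) (k+1)`. Proof by induction on the derivation.
 * `tri`: `F (v :: c' :: v' :: q') D₀ k₀`, `z ++ [u,c] = v' :: q'`, `D = D₀ + T v v' c'`. If `z = v' :: z'`:
   induction hypothesis for `z := c' :: v' :: z'`, then `tri`. If `z = []`: `v' = u`, `q' = [c]`, we have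
   `F [v,c',u,c] D₀ k₀`; the induction hypothesis with `z := [c']` gives `F [v,c',u] (D₀ + T u v c) (k₀+1)`,
   then `tri`.
 * `pair`: `z ++ [u,c] = P₁ ++ w' :: P₂`, edge `v w'`. `P₂ = []`: `w' = c`, `P₁ = z ++ [u]` has head `c`,
   and `u ≠ c` (`adj u c`), so `z = c :: z''`. Rotating `P₁` (ROT(n₁), as often as needed):
   `F (u :: c :: z'') D₁ n₁`. `pair` for the edge `v u` with `P₁ := u :: c :: z''`, `P₂ := []`:
   `F (v :: (u :: c :: z'') ++ [u])`; `tri` at the edge `v c` with third vertex `u`: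
   `F (v :: c :: z'' ++ [u]) (D₁ + T v c u) (n₁+1)`, `T v c u = T u v c`; add the sphere `D₂` (FCAT).
   `P₂ = [c]`: the head of `P₂` is `v`, but `c ≠ v`. `P₂ = p ++ [u,c]`: if `p = []` then `u = v`, no; so
   `p = v :: z₂`, induction hypothesis for `P₂`, then `pair`.
ROT(n): `pair`: `F (v :: (P₂ ++ [u]))` by `pair` for the edge `v u` with `P₁ := P₂` (head `u`), `P₂ := []`
(plus nothing), then FCAT of `P₁` (head `v` or empty) with it: `F (P₁ ++ (v :: (P₂ ++ [u])))`.
`tri`: `F (u :: c :: v :: q) D k`, `n = k+1`: ROT(k) twice gives `F (v :: q ++ [u,c]) D k`, apply TL(k). -/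
def Stmt_FROT : Prop :=
  ∀ (V A : Type) [AddCommGroup A] (adj : V → V → Prop) (T : V → V → V → A), TriOK adj T →
    ∀ (x y : List V) (D : A) (n : ℕ), Fill adj T (x ++ y) D n → Fill adj T (y ++ x) D n

/-- FTRI (uses FROT): a triangle can be added at any edge: rotate, `tri`, rotate back. -/
def Stmt_FTRI : Prop :=
  ∀ (V A : Type) [AddCommGroup A] (adj : V → V → Prop) (T : V → V → V → A), TriOK adj T →
    ∀ (x y : List V) (u v c : V) (D : A) (n : ℕ), adj u v → adj u c → adj c v →
      Fill adj T (x ++ u :: c :: v :: y) D n → Fill adj T (x ++ u :: v :: y) (D + T u v c) (n + 1)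

/-- FBR (uses FROT, FCW): backtracks can be removed.
First `F (a :: (z ++ [a,b])) D n → F (a :: z) D n` by induction on the derivation (`z ≠ []` by FCW and
irreflexivity; `z = z₀ :: z'`). `tri`: `F (a :: c :: z₀ :: z' ++ [a,b])`: induction hypothesis, `tri`.
`pair`, edge `a w`, `z ++ [a,b] = P₁ ++ w :: P₂`: `P₂ = []`: `w = b`, `P₁ = z ++ [a]` has head `b`, so
`z = b :: z'`, and `F (b :: z' ++ [a]) D₁ n₁`; rotate it to `a :: b :: z'`, add the sphere `D₂` (FCAT).
`P₂ = [b]`: head `a = b`, impossible. `P₂ = [a,b]`: `F [a,b] D₂ n₂` gives `F [] D₂ n₂` by `sph`; then `pair`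
with `P₂ := []`. `P₂ = p ++ [a,b]`, `p ≠ []`: the head of `p` is `a`; induction hypothesis for `P₂`, `pair`.
General case: rotate `x ++ a :: b :: a :: y` to `a :: (y ++ x) ++ [a,b]` and back. -/
def Stmt_FBR : Prop :=
  ∀ (V A : Type) [AddCommGroup A] (adj : V → V → Prop) (T : V → V → V → A), TriOK adj T →
    ∀ (x y : List V) (a b : V) (D : A) (n : ℕ), adj a b →
      Fill adj T (x ++ a :: b :: a :: y) D n → Fill adj T (x ++ a :: y) D n

/-- FREV (uses FCAT, FROT): reversal. Induction on the derivation. `pair`: `P₁ = v :: p₁` or `[]`,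
`P₂ = u :: p₂` or `[]`. The reverse of `u :: (P₁ ++ v :: P₂)` is `u :: (P₂.reverse ++ v :: P₁.reverse)`,
which is the concatenation (FCAT) of `rv P₂` and the `pair` for the edge `u v` with `P₁ := rv P₁`,
`P₂ := []`. `tri`: from `F (u :: (q.reverse ++ [v,c])) (-D)` one gets
`F (u :: (q.reverse ++ [v])) (-D - T u v c)` by adding the triangle at the last (closing) edge `v u`
(rotate, `tri`, rotate back; `T v u c = - T u v c`). -/
def Stmt_FREV : Prop :=
  ∀ (V A : Type) [AddCommGroup A] (adj : V → V → Prop) (T : V → V → V → A), TriOK adj T →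
    ∀ (l : List V) (D : A) (n : ℕ), Fill adj T l D n → Fill adj T (rv l) (-D) n

/-- FTREE: a closed walk with a filling without triangles backtracks away from its base point.
Induction on the derivation. `tri`, `nil`, `sph` do not occur. `pair` (`n₁ = n₂ = 0`): if `P₁ ≠ []` it is
`v :: p₁` and the induction hypothesis finds a backtrack in `v :: p₁ ++ [v]`, a contiguous part of
`u :: (P₁ ++ v :: P₂) ++ [u]`; if `P₁ = []` the list starts `u, v, u` (also if `P₂ = []`). -/
def Stmt_FTREE : Prop :=
  ∀ (V A : Type) [AddCommGroup A] (adj : V → V → Prop) (T : V → V → V → A)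
    (q : V) (z : List V) (D : A), Fill adj T (q :: z) D 0 →
      ∃ (x : List V) (a b : V) (y : List V), q :: z ++ [q] = x ++ a :: b :: a :: y

/-- FTWO (uses FTREE, FBR, FCW, FROT): two reduced walks with the same ends whose difference has a
filling without triangles are equal. Induction on `P.length + Q.length`. Let
`l = P.dropLast ++ Q.reverse.dropLast`, `v` the common head. If `l = []` both are `[v]`. Otherwise
`l ++ [v] = P.dropLast ++ Q.reverse` has a backtrack inside by FTREE. `P` and `Q.reverse` are reduced, so the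
backtrack is at the common last vertex `w`, and `P, Q` have length at least 2:
`P = P' ++ [a,w]`, `Q = Q' ++ [a,w]`. Remove it by FBR (if `Q' = []` then `a = v` and the backtrack uses the
closing step: rotate first; if also `P' = []` done): the closed walk of `P' ++ [a]`, `Q' ++ [a]` is filled
with no triangle. -/
def Stmt_FTWO : Prop :=
  ∀ (V A : Type) [AddCommGroup A] (adj : V → V → Prop) (T : V → V → V → A), TriOK adj T →
    ∀ (P Q : List V) (D : A), P ≠ [] → Q ≠ [] → Red P → Red Q → P.head? = Q.head? →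
      P.getLast? = Q.getLast? → Fill adj T (P.dropLast ++ Q.reverse.dropLast) D 0 → P = Q

/-- FMAP: fillings are functorial (induction on the derivation). -/
def Stmt_FMAP : Prop :=
  ∀ (V V' A A' : Type) [AddCommGroup A] [AddCommGroup A'] (adj : V → V → Prop)
    (adj' : V' → V' → Prop) (T : V → V → V → A) (T' : V' → V' → V' → A') (f : V → V') (F : A →+ A'),
    (∀ u v, adj u v → adj' (f u) (f v)) →
    (∀ u v c, adj u v → adj u c → adj c v → F (T u v c) = T' (f u) (f v) (f c)) →
    ∀ (l : List V) (D : A) (n : ℕ), Fill adj T l D n → Fill adj' T' (l.map f) (F D) n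

/-! ## G. Gauss–Bonnet -/

/-- CLO: a closed sector has weight at least two. No gap: `NPC.loop`. A step with `k = 2`, or two steps
with `k = 1`: the others have nonnegative weight. One step `g` with `k = 1` and no step with `k = 2`:
`ω = x ++ g :: y`, the path `y ++ x` is a reduced link path from `g.b` to `g.a`; if it is empty then
`g.b = g.a`, against `Str`; otherwise its weight is at least one by `Str`. -/
def Stmt_CLO : Prop :=
  ∀ (V : Type) (adj : V → V → Prop) (ang : V → V → V → ℝ) (ε : ℝ), NPC adj ang ε →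
    ∀ (v : V) (ω : List (Stp V)), SecOK adj ang v ω →
      (∀ s ∈ ω.getLast?, ∀ t ∈ ω.head?, Cmp s t) → 2 ≤ wts ang v ω

/-- GB (uses CLO, FCAT, FTRI, FBR, FROT): Gauss–Bonnet. Induction on the derivation of
`F (Q.map fst) D n`, for all `Q`. `nil`, `sph`: `Q = []`.

`tri`: the walk is `u :: v :: q`, `F (u :: c :: v :: q) D₀ n₀`, `D = D₀ + T u v c`, `n = n₀ + 1`,
`Q = (u,ω₀) :: (v,ω₁) :: Q'`. New state
`Q* = (u, ⟨c,v,0⟩ :: ω₀) :: (c, [⟨v,u,0⟩]) :: (v, ω₁ ++ [⟨u,c,0⟩]) :: Q'`, with `D₀, n₀`. The sum of `1 - wts` goes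
up by `1 - (ang u c v + ang c v u + ang v u c) = ε` and `ε n` goes down by `ε`, so it is enough to check the
hypotheses for `Q*`. StOK: if `ω₀` starts with a triangle step `⟨v,e,0⟩` one needs `c ≠ e` (`Cmp`): if `e = c`,
InvB for the entry `(u,ω₀)` and `F (u :: c :: v :: q) (D - T u v c) n₀` give `n + 1 ≤ n₀`. By `Nxt` the last
step of `ω₁` is then `⟨e,u,0⟩` with the same `e`. The rest is direct. MinF: by `tri`. InvB: edge `u c`, label
`v`: `F (u :: v :: c :: v :: q) (D₀ - T u c v) n'` gives by FBR `F (u :: v :: q) D n'`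
(`- T u c v = T u v c`), so `n ≤ n'`; edge `c v`, label `u`: `F (u :: c :: u :: v :: q) (D₀ - T c v u) n'`
gives `F (u :: v :: q) D' n'` with `D' = D₀ - T c v u = D`, same; an old edge (an edge of `Q` other than the
first): apply FTRI at the edge `u v`, third vertex `c`: old InvB gives `n + 1 ≤ n' + 1`. InvC: two old edges:
FTRI and old InvC. New edge `u c` with label `v` and an old edge `c u` with label `v`:
`F (u :: v :: c :: v :: …) D₀ n'` with `v` inserted in the old edge `c u` of `q`; remove the backtrack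
`v,c,v` by FBR; now it is the walk `u :: v :: q` with `v` inserted in the edge `c u`, and
`D₀ = D - T c u v`, so the old InvB gives `n + 1 ≤ n'`. New edge `c v` with label `u` and an old edge `v c`
with label `u`: the same (`D₀ = D - T v c u`). The two new edges are not opposite (`u ≠ v`).

`pair`: the walk is `u :: (P₁ ++ v :: P₂)`, `Q = (u,ωa) :: (Q₁ ++ (v,ωb) :: Q₂)`. (*) If `ωa` and `ωb` start
with triangle steps `⟨v,e,0⟩`, `⟨u,e',0⟩` then `e ≠ e'`: otherwise `F (u :: e :: (P₁ ++ v :: e :: P₂)) D n`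
(`pair` for the edge `u e` with `P₁ := e :: (P₁ ++ v :: [])`, itself `pair` for the edge `e v`), against
InvC. If `Q₁ = []`: the sector `ωb` is closed by (*) (its last step ends at `u` and carries the label `e` by
`Nxt`, its first step starts at `u` and carries `e'`), so `2 ≤ wts ωb` by CLO; `D₁ = 0` by the hypothesis on
spheres, so `n₁ = 0` by MinF. If `Q₁ = (v,ω₁) :: Q₁'`: apply the induction hypothesis to
`(v, ω₁ ++ ωb) :: Q₁'`, `D₁`, `n₁` (`Cmp` at the junction by (*); MinF, InvB, InvC by `pair` with the given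
filling of `P₂`): `S₁ + ε n₁ ≤ -2`. Same for `u`: if `Q₂ = []`, `ωa` is closed, `2 ≤ wts ωa`, `n₂ = 0`; if
`Q₂ = (u,ω₂) :: Q₂'` use `(u, ω₂ ++ ωa) :: Q₂'`. Sum: both nonempty: `S = S₁ + S₂ + 2`; one empty:
`S = S₂ + 1 + (1 - wts ωb)`; both empty: `S = 2 - wts ωa - wts ωb`. In all cases `S + ε n ≤ -2`. -/
def Stmt_GB : Prop :=
  ∀ (V A : Type) [AddCommGroup A] (adj : V → V → Prop) (T : V → V → V → A)
    (ang : V → V → V → ℝ) (ε : ℝ), TriOK adj T → NPC adj ang ε →
    ∀ (Q : List (V × List (Stp V))) (D : A) (n : ℕ), Q ≠ [] → StOK adj ang Q →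
      MinF adj T (Q.map Prod.fst) D n → InvB adj T Q D n → InvC adj T Q D n →
      (∀ (D' : A) (n' : ℕ), n' ≤ n → Fill adj T [] D' n' → D' = 0) →
      (Q.map (fun E => 1 - wts ang E.1 E.2)).sum + ε * n ≤ -2

/-- ASPH (uses GB, FBR, FCAT): every sphere is zero. By strong induction on `n`: all spheres with fewer
triangles are zero. Inner claim, by induction on the derivation: if `F l D n` with `l = []` or
`l = [u,v]`, `adj u v`, then `D = 0`. `nil`: clear. `sph`: inner hypothesis. `pair`: `P₁ = P₂ = []`,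
`D = D₁ + D₂`, `n₁ + n₂ = n`; each `D_i` is `0` by the outer (`n_i < n`) or the inner hypothesis. `tri`:
`l = [u,v]`, `F [u,c,v] D₀ n₀`, `n = n₀+1`, `D = D₀ + T u v c`. Suppose `D ≠ 0`. By the outer hypothesis,
`F [] D n'` implies `n ≤ n'` (*), and so does `F [a,b] D n'` for adjacent `a, b` (by `sph`). Apply GB to
`Q = [(u,[⟨c,v,0⟩]), (c,[⟨v,u,0⟩]), (v,[⟨u,c,0⟩])]`, `D₀`, `n₀`. StOK: direct. MinF: if
`F [u,c,v] D₀ n'` then `F [u,v] D (n'+1)` by `tri`, so `n ≤ n'+1`. InvB: e.g. edge `u c`, label `v`: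
`F [u,v,c,v] (D₀ - T u c v) n'` gives by FBR (backtrack `v,c,v`) `F [u,v] D n'`
(`- T u c v = T u v c`), so `n ≤ n'`; the other two edges are similar (rotate). InvC: there is no pair of
opposite edges. Spheres: outer hypothesis. Conclusion of GB: `3 - (ang u c v + ang c v u + ang v u c) + ε n₀ ≤ -2`,
i.e. `2 + ε + ε n₀ ≤ -2`, absurd. -/
def Stmt_ASPH : Prop :=
  ∀ (V A : Type) [AddCommGroup A] (adj : V → V → Prop) (T : V → V → V → A)
    (ang : V → V → V → ℝ) (ε : ℝ), TriOK adj T → NPC adj ang ε →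
    ∀ (D : A) (n : ℕ), Fill adj T [] D n → D = 0

/-- UNI (uses ASPH, FREV, FCAT, FBR, FCW): the chain of a filling depends only on the closed walk.
`F l D₁ n₁`, `F (rv l) (-D₂) n₂` (FREV); `F (l ++ rv l) (D₁ - D₂) _` (FCAT, same head `u`), `l = u :: q`,
`l ++ rv l = u :: (q ++ u :: q.reverse)`. Remove the backtracks at the middle with FBR until `[u, x]` is left
(`q ≠ []` by FCW), then `sph` and ASPH. -/
def Stmt_UNI : Prop :=
  ∀ (V A : Type) [AddCommGroup A] (adj : V → V → Prop) (T : V → V → V → A)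
    (ang : V → V → V → ℝ) (ε : ℝ), TriOK adj T → NPC adj ang ε →
    ∀ (l : List V) (D₁ D₂ : A) (n₁ n₂ : ℕ), Fill adj T l D₁ n₁ → Fill adj T l D₂ n₂ → D₁ = D₂

/-- ISO (uses GB, ASPH, FCW): linear isoperimetric inequality with straight sides. Take the minimal `n` with
`F (P.map fst) D n`. Apply GB to the state with entries `(q, [⟨next, prev, k⟩])`, `k = 1` if `q` is flagged,
`k = 2` otherwise (the adjacencies from FCW). InvB and InvC are vacuous (no `k = 0`). The sum of `1 - wts`
is `-nns P`. -/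
def Stmt_ISO : Prop :=
  ∀ (V A : Type) [AddCommGroup A] (adj : V → V → Prop) (T : V → V → V → A)
    (ang : V → V → V → ℝ) (ε : ℝ), TriOK adj T → NPC adj ang ε →
    ∀ (P : List (V × Bool)), P ≠ [] → FlagOK adj ang P →
    ∀ (D : A) (n₀ : ℕ), Fill adj T (P.map Prod.fst) D n₀ →
      ∃ n, Fill adj T (P.map Prod.fst) D n ∧ ε * n + 2 ≤ nns P

/-! ## Z. Integer chains with a permutation

`mv σ D` is the image of `D`; `(mv σ D) x = D (σ⁻¹ x)`. -/

/-- ZPER: an invariant finitely supported function is supported on periodic points (the support is a finite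
set mapped to itself by `σ`). -/
def Stmt_ZPER : Prop :=
  ∀ (X : Type) (σ : Equiv.Perm X) (D : X →₀ ℤ), mv σ D = D →
    ∀ x ∈ D.support, ∃ k : ℕ, 0 < k ∧ (σ ^ k) x = x

/-- ZO: if `σ` is free on the support and all orbit sums vanish, then `D = P - σ P`.
Let `π` be the quotient map to the orbits of `σ`. Induction on the number of points of the support (or on
`nf D`): if `D ≠ 0` there are two points `x ≠ y = σ^k x` of the support in the same orbit, since the orbit
sum is `0`; then `D' = D - D x • (single x 1 - single y 1)` has smaller support and vanishing orbit sums, and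
`single x 1 - single (σ^k x) 1 = P₀ - σ P₀` with `P₀ = ∑_{0 ≤ i < k} single (σ^i x) 1` (`k > 0`; for `k < 0`
minus the sum over `k ≤ i < 0`). The support of `P` is in the orbits of `D.support`. (Freeness is not needed.) -/
def Stmt_ZO : Prop :=
  ∀ (X : Type) (σ : Equiv.Perm X) (D : X →₀ ℤ),
    D.mapDomain (fun x => (Quotient.mk (MulAction.orbitRel (Subgroup.zpowers σ) X) x)) = 0 →
    ∃ P : X →₀ ℤ, D = P - mv σ P ∧ ∀ x ∈ P.support, ∃ k : ℤ, (σ ^ k) x ∈ D.support

/-- ZL (uses ZO): bounded partial sums. Let `K` bound `|k|` for all `x, σ^k x ∈ D.support` (finite, since the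
action is free on the support). For an orbit with sum `s` and a point `x` of the support in it, the value of
`∑_{i<N} σ^i D` at `σ^j x` is `∑_{i<N} D (σ^(j-i) x)`, equal to `s` for `K ≤ j < N - K`; so
`(N - 2K) |s| ≤ nf (…) ≤ C` for all `N`, `s = 0`. Then ZO. -/
def Stmt_ZL : Prop :=
  ∀ (X : Type) (σ : Equiv.Perm X) (D : X →₀ ℤ) (C : ℕ),
    (∀ x ∈ D.support, ∀ k : ℕ, 0 < k → (σ ^ k) x ≠ x) →
    (∀ N : ℕ, nf (∑ i ∈ Finset.range N, mv (σ ^ i) D) ≤ C) →
    ∃ P : X →₀ ℤ, D = P - mv σ P ∧ ∀ x ∈ P.support, ∃ k : ℤ, (σ ^ k) x ∈ D.support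

/-- ZX: if `A - B = F - σ F` and `A` is not of the form `E - σ E`, then the supports of `A` and `B` meet a
common orbit: otherwise let `Y` be the union of the orbits of the points of `A.support` and
`E := F.filter (· ∈ Y)`; then `A = E - σ E`. -/
def Stmt_ZX : Prop :=
  ∀ (X : Type) (σ : Equiv.Perm X) (A B F : X →₀ ℤ), A - B = F - mv σ F →
    (∀ E : X →₀ ℤ, A ≠ E - mv σ E) →
    ∃ a ∈ A.support, ∃ b ∈ B.support, ∃ k : ℤ, b = (σ ^ k) a

/-- ZZ1 (uses ZO, ZZ0 or directly): commuting permutations acting freely on the support (as `ℤ²`), with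
partial sums of norm `≤ C (M+N)`. For an orbit of `⟨σ,τ⟩` with sum `s` the sum over `i < N, j < N` has value
`s` at `(N - 2K)²` points, so `(N-2K)² |s| ≤ 2 C N` for all `N` and `s = 0`. Let `X̄` be the quotient of `X` by
`⟨σ⟩`, `τ̄` the induced permutation, `D̄` the image of `D`. The `τ̄`-orbit sums of `D̄` vanish, so
`D̄ = Q̄ - τ̄ Q̄` by ZO; lift `Q̄` to `Q` on `X` (choose for each point of the support of `Q̄` a point of its
class); `D - (Q - τ Q)` has vanishing `σ`-orbit sums, so it is `P - σ P` by ZO. -/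
def Stmt_ZZ1 : Prop :=
  ∀ (X : Type) (σ τ : Equiv.Perm X), Commute σ τ → ∀ (D : X →₀ ℤ) (C : ℕ),
    (∀ x ∈ D.support, ∀ a b : ℤ, (σ ^ a * τ ^ b) x = x → a = 0 ∧ b = 0) →
    (∀ M N : ℕ, nf (∑ i ∈ Finset.range M, ∑ j ∈ Finset.range N, mv (σ ^ i * τ ^ j) D) ≤ C * (M + N)) →
    ∃ P Q : X →₀ ℤ, D = (P - mv σ P) + (Q - mv τ Q) ∧
      (∀ x ∈ P.support, ∃ a b : ℤ, (σ ^ a * τ ^ b) x ∈ D.support) ∧
      (∀ x ∈ Q.support, ∃ a b : ℤ, (σ ^ a * τ ^ b) x ∈ D.support)

/-- ZZ2 (uses ZO, ZPER): if `(1 - τ) A = (1 - σ) B` with `σ, τ` commuting and free on the support of `A`, then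
`A = E - σ E`. Modulo `σ` (on the quotient `X̄` by `⟨σ⟩`): `τ̄ Ā = Ā`; a point of the support of `Ā` is the class
of some `y ∈ A.support`, and is periodic under `τ̄` by ZPER: `τ^b y = σ^a y`, `b > 0`, against freeness; so
`Ā = 0` and ZO applies. -/
def Stmt_ZZ2 : Prop :=
  ∀ (X : Type) (σ τ : Equiv.Perm X), Commute σ τ → ∀ (A B : X →₀ ℤ),
    (∀ x ∈ A.support, ∀ a b : ℤ, (σ ^ a * τ ^ b) x = x → a = 0 ∧ b = 0) →
    A - mv τ A = B - mv σ B → ∃ E : X →₀ ℤ, A = E - mv σ E

/-- ZG: an integer combination `E` of edges with boundary `w - v`, `v ≠ w`, contains a path from `v` to `w`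
in its support: let `Y` be the set of vertices joined to `v` by edges of the support (either direction); the
sum over `Y` of the coefficients of the boundary is `0` (each edge has both ends or no end in `Y`), so
`w ∈ Y`. -/
def Stmt_ZG : Prop :=
  ∀ (V : Type) (E : (V × V) →₀ ℤ) (v w : V), v ≠ w →
    (E.sum fun p a => a • (Finsupp.single p.2 (1 : ℤ) - Finsupp.single p.1 1)) =
      Finsupp.single w 1 - Finsupp.single v 1 →
    ∃ l : List V, l.head? = some v ∧ l.getLast? = some w ∧
      l.IsChain (fun a b => (a, b) ∈ E.support ∨ (b, a) ∈ E.support)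

end Pool.HA
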