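import Pool.Agent.Work.MP_7084a3_h91.Defs

set_option autoImplicit false

/-! # Basic lemmas on the coset complex and on Artin groups -/

namespace Pool.HA

section gen
variable {G S : Type} [Group G] {g : S → G}

theorem par_empty : par g ∅ = ⊥ := by simp [par]

theorem par_single (s : S) : par g {s} = Subgroup.zpowers (g s) := by
  simp [par, Subgroup.zpowers_eq_closure]

theorem par_mono {J J' : Finset S} (h : J ⊆ J') : par g J ≤ par g J' := by
  apply Subgroup.closure_mono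
  exact Set.image_mono (by exact_mod_cast h)

theorem par_pair [DecidableEq S] (s t : S) : par g {s, t} = pr g s t := by
  simp [par, pr, Set.image_pair]

theorem gen_mem_par {J : Finset S} {s : S} (h : s ∈ J) : g s ∈ par g J :=
  Subgroup.subset_closure ⟨s, by exact_mod_cast h, rfl⟩

theorem left_mem_pr (s t : S) : g s ∈ pr g s t := Subgroup.subset_closure (by simp)

theorem right_mem_pr (s t : S) : g t ∈ pr g s t := Subgroup.subset_closure (by simp)

theorem pr_comm (s t : S) : pr g s t = pr g t s := by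
  simp [pr, Set.pair_comm]

namespace Vtx

@[simp] theorem smul_J (h : G) (v : Vtx g) : (h • v).J = v.J := rfl

@[simp] theorem smul_ty (h : G) (v : Vtx g) : (h • v).ty = v.ty := rfl

theorem ty_eq (v : Vtx g) : v.ty = v.J.card := rfl

theorem ty_le (v : Vtx g) : v.ty ≤ 2 := v.1.2

theorem exists_mem (v : Vtx g) : ∃ x, v.mem x := QuotientGroup.mk_surjective v.2

theorem mem_iff {v : Vtx g} {x : G} (hx : v.mem x) (y : G) : v.mem y ↔ x⁻¹ * y ∈ par g v.J := by
  unfold mem at hx ⊢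
  rw [← hx, eq_comm, QuotientGroup.eq]
  rfl

theorem mem_smul_iff (h : G) (v : Vtx g) (x : G) : (h • v).mem x ↔ v.mem (h⁻¹ * x) := by
  obtain ⟨y, hy⟩ := exists_mem v
  have e : (h • v).mem (h * y) := by
    change (QuotientGroup.mk (h * y) : G ⧸ par g v.J) = h • v.2
    rw [← hy]
    rfl
  rw [mem_iff e, mem_iff hy]
  simp [mul_assoc]

theorem mem_smul {v : Vtx g} {x : G} (h : G) (hx : v.mem x) : (h • v).mem (h * x) := by
  rw [mem_smul_iff]; simpa using hx

theorem ext_mem {v w : Vtx g} (hJ : v.J = w.J) {x : G} (hv : v.mem x) (hw : w.mem x) : v = w := by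
  obtain ⟨⟨J, hJ'⟩, a⟩ := v
  obtain ⟨⟨K, hK'⟩, b⟩ := w
  change J = K at hJ
  subst hJ
  unfold mem at hv hw
  dsimp at hv hw
  subst hv hw
  rfl

theorem smul_eq_iff {v : Vtx g} {x : G} (hx : v.mem x) (h : G) :
    h • v = v ↔ x⁻¹ * h * x ∈ par g v.J := by
  constructor
  · intro e
    have h1 : v.mem (h * x) := by
      have := mem_smul h hx
      rwa [e] at this
    rw [mem_iff hx] at h1
    simpa [mul_assoc] using h1
  · intro e
    have h1 : v.mem (h * x) := by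
      rw [mem_iff hx]
      simpa [mul_assoc] using e
    exact ext_mem rfl (mem_smul h hx) h1

@[simp] theorem mk_J (J : Finset S) (hJ : J.card ≤ 2) (x : G) : (mk g J hJ x).J = J := rfl

theorem mk_mem (J : Finset S) (hJ : J.card ≤ 2) (x : G) : (mk g J hJ x).mem x := rfl

theorem mk_mem_iff (J : Finset S) (hJ : J.card ≤ 2) (x y : G) :
    (mk g J hJ x).mem y ↔ x⁻¹ * y ∈ par g J := mem_iff (mk_mem J hJ x) y

theorem eq_mk {v : Vtx g} {x : G} (hx : v.mem x) : v = mk g v.J v.ty_le x :=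
  ext_mem rfl hx (mk_mem _ _ _)

theorem smul_mk (J : Finset S) (hJ : J.card ≤ 2) (x h : G) :
    h • mk g J hJ x = mk g J hJ (h * x) :=
  ext_mem rfl (mem_smul h (mk_mem J hJ x)) (mk_mem J hJ (h * x))

theorem ad_symm {v w : Vtx g} (h : v.ad w) : w.ad v := by
  obtain ⟨⟨x, a, b⟩, c⟩ := h
  exact ⟨⟨x, b, a⟩, c.symm⟩

theorem ad_irrefl (v : Vtx g) : ¬ v.ad v := by
  rintro ⟨-, h | h⟩ <;> exact (ssubset_irrefl _ h)

theorem ad_smul {v w : Vtx g} (h : G) (hvw : v.ad w) : (h • v).ad (h • w) := by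
  obtain ⟨⟨x, a, b⟩, c⟩ := hvw
  exact ⟨⟨h * x, mem_smul h a, mem_smul h b⟩, c⟩

theorem ad_ty_ne {v w : Vtx g} (h : v.ad w) : v.ty ≠ w.ty := by
  rcases h.2 with h | h
  · exact (Finset.card_lt_card h).ne
  · exact (Finset.card_lt_card h).ne'

theorem ad_ne {v w : Vtx g} (h : v.ad w) : v ≠ w := by
  rintro rfl; exact ad_irrefl _ h

theorem ad_ss {v w : Vtx g} (h : v.ad w) (hl : v.ty < w.ty) : v.J ⊂ w.J := by
  rcases h.2 with h | h
  · exact h
  · exact absurd (Finset.card_lt_card h) (by simp only [ty_eq] at hl; omega)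

/-- the smaller vertex is contained in the bigger one -/
theorem ad_mem {v w : Vtx g} (h : v.ad w) (hl : v.ty < w.ty) {x : G} (hx : v.mem x) :
    w.mem x := by
  have h1 := ad_ss h hl
  obtain ⟨⟨y, a, b⟩, -⟩ := h
  rw [mem_iff b]
  rw [mem_iff a] at hx
  exact par_mono h1.subset hx

/-- the stabiliser of the smaller vertex fixes the bigger one -/
theorem fix_up {v w : Vtx g} (h : v.ad w) (hl : v.ty < w.ty) {r : G} (hr : r • v = v) :
    r • w = w := by
  have h1 := ad_ss h hl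
  obtain ⟨⟨y, a, b⟩, -⟩ := h
  rw [smul_eq_iff b]
  rw [smul_eq_iff a] at hr
  exact par_mono h1.subset hr

/-- adjacency from a common element and label sets -/
theorem ad_of {v w : Vtx g} {x : G} (hv : v.mem x) (hw : w.mem x) (hJ : v.J ⊂ w.J) : v.ad w :=
  ⟨⟨x, hv, hw⟩, Or.inl hJ⟩

theorem J0 {v : Vtx g} (h : v.ty = 0) : v.J = ∅ := Finset.card_eq_zero.1 h

theorem J1 {v : Vtx g} (h : v.ty = 1) : ∃ s, v.J = {s} := Finset.card_eq_one.1 h

theorem J2 [DecidableEq S] {v : Vtx g} (h : v.ty = 2) : ∃ s t, s ≠ t ∧ v.J = {s, t} :=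
  Finset.card_eq_two.1 h

/-- a type 0 vertex contains one element -/
theorem mem0 {v : Vtx g} (h : v.ty = 0) {x y : G} (hx : v.mem x) (hy : v.mem y) : x = y := by
  rw [mem_iff hx, J0 h, par_empty, Subgroup.mem_bot] at hy
  exact (inv_mul_eq_one.1 hy)

theorem fix0 {v : Vtx g} (h : v.ty = 0) {r : G} (hr : r • v = v) : r = 1 := by
  obtain ⟨x, hx⟩ := exists_mem v
  rw [smul_eq_iff hx, J0 h, par_empty, Subgroup.mem_bot] at hr
  have : r = x * (x⁻¹ * r * x) * x⁻¹ := by group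
  rw [this, hr]; group

theorem mem1 {v : Vtx g} {s : S} (h : v.J = {s}) {x : G} (hx : v.mem x) (y : G) :
    v.mem y ↔ ∃ k : ℤ, y = x * g s ^ k := by
  rw [mem_iff hx, h, par_single, Subgroup.mem_zpowers_iff]
  constructor
  · rintro ⟨k, hk⟩; exact ⟨k, by rw [hk]; group⟩
  · rintro ⟨k, rfl⟩; exact ⟨k, by group⟩

theorem fix1 {v : Vtx g} {s : S} (h : v.J = {s}) {x : G} (hx : v.mem x) (r : G) :
    r • v = v ↔ ∃ k : ℤ, r = x * g s ^ k * x⁻¹ := by
  rw [smul_eq_iff hx, h, par_single, Subgroup.mem_zpowers_iff]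
  constructor
  · rintro ⟨k, hk⟩; exact ⟨k, by rw [hk]; group⟩
  · rintro ⟨k, rfl⟩; exact ⟨k, by group⟩

theorem mem2 [DecidableEq S] {v : Vtx g} {s t : S} (h : v.J = {s, t}) {x : G} (hx : v.mem x)
    (y : G) : v.mem y ↔ x⁻¹ * y ∈ pr g s t := by
  rw [mem_iff hx, h, par_pair]

theorem fix2 [DecidableEq S] {v : Vtx g} {s t : S} (h : v.J = {s, t}) {x : G} (hx : v.mem x)
    (r : G) : r • v = v ↔ x⁻¹ * r * x ∈ pr g s t := by
  rw [smul_eq_iff hx, h, par_pair]

/-- version of `fix2` without `DecidableEq` -/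
theorem fix2' {v : Vtx g} {s t : S} (h : ∀ a, a ∈ v.J ↔ a = s ∨ a = t) {x : G} (hx : v.mem x)
    (r : G) : r • v = v ↔ x⁻¹ * r * x ∈ pr g s t := by
  classical
  exact fix2 (by ext a; simp [h a]) hx r

/-- three mutually adjacent vertices: the types are different and there is a common element -/
theorem flag {u v w : Vtx g} (h1 : u.ad v) (h2 : v.ad w) (h3 : u.ad w) :
    (u.ty ≠ v.ty ∧ v.ty ≠ w.ty ∧ u.ty ≠ w.ty) ∧ ∃ x, u.mem x ∧ v.mem x ∧ w.mem x := by
  refine ⟨⟨ad_ty_ne h1, ad_ty_ne h2, ad_ty_ne h3⟩, ?_⟩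
  have a1 := ad_ty_ne h1
  have a2 := ad_ty_ne h2
  have a3 := ad_ty_ne h3
  rcases lt_or_gt_of_ne a1 with b1 | b1
  · rcases lt_or_gt_of_ne a3 with b3 | b3
    · obtain ⟨x, hx⟩ := exists_mem u
      exact ⟨x, hx, ad_mem h1 b1 hx, ad_mem h3 b3 hx⟩
    · obtain ⟨x, hx⟩ := exists_mem w
      exact ⟨x, ad_mem (ad_symm h3) b3 hx, ad_mem (ad_symm h2) (b3.trans b1) hx, hx⟩
  · rcases lt_or_gt_of_ne a2 with b2 | b2
    · obtain ⟨x, hx⟩ := exists_mem v
      exact ⟨x, ad_mem (ad_symm h1) b1 hx, hx, ad_mem h2 b2 hx⟩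
    · obtain ⟨x, hx⟩ := exists_mem w
      exact ⟨x, ad_mem (ad_symm h3) (b2.trans b1) hx, ad_mem (ad_symm h2) b2 hx, hx⟩

/-- the types of three mutually adjacent vertices are `0, 1, 2` in some order -/
theorem flag_ty {u v w : Vtx g} (h1 : u.ad v) (h2 : v.ad w) (h3 : u.ad w) :
    (u.ty = 0 ∧ v.ty = 1 ∧ w.ty = 2) ∨ (u.ty = 0 ∧ v.ty = 2 ∧ w.ty = 1) ∨
    (u.ty = 1 ∧ v.ty = 0 ∧ w.ty = 2) ∨ (u.ty = 1 ∧ v.ty = 2 ∧ w.ty = 0) ∨
    (u.ty = 2 ∧ v.ty = 0 ∧ w.ty = 1) ∨ (u.ty = 2 ∧ v.ty = 1 ∧ w.ty = 0) := by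
  have a1 := ad_ty_ne h1
  have a2 := ad_ty_ne h2
  have a3 := ad_ty_ne h3
  have b1 := u.ty_le
  have b2 := v.ty_le
  have b3 := w.ty_le
  omega

end Vtx

theorem Fx.of_commute {r x : G} (h : Commute x r) {v : Vtx g} (hv : r • v = v) :
    r • (x • v) = x • v := by
  rw [← mul_smul, ← h.eq, mul_smul, hv]

end gen

section art
variable {S : Type} (M : CoxeterMatrix S)

theorem altG_gen (s t : S) (m : ℕ) :
    altG (gen M s) (gen M t) m = PresentedGroup.mk (braidRels M) (alt s t m) := by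
  induction m generalizing s t with
  | zero => simp [altG, alt]
  | succ m ih => rw [altG, alt, map_mul, ih]; rfl

/-- the braid relation -/
theorem braid {s t : S} (hst : s ≠ t) (h : M s t ≠ 0) :
    altG (gen M s) (gen M t) (M s t) = altG (gen M t) (gen M s) (M s t) := by
  rw [altG_gen, altG_gen, ← mul_inv_eq_one, ← map_inv, ← map_mul]
  exact PresentedGroup.one_of_mem ⟨s, t, hst, h, rfl⟩

@[simp] theorem esum_gen (s : S) : esum M (gen M s) = Multiplicative.ofAdd 1 :=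
  PresentedGroup.toGroup.of _

theorem esum_zpow (s : S) (k : ℤ) : esum M (gen M s ^ k) = Multiplicative.ofAdd k := by
  rw [map_zpow, esum_gen, ← ofAdd_zsmul]; simp

theorem gen_zpow_inj (s : S) {k l : ℤ} (h : gen M s ^ k = gen M s ^ l) : k = l := by
  have := congrArg (esum M) h
  rw [esum_zpow, esum_zpow] at this
  exact this

variable {M}

theorem rfl_gen (s : S) : Rfl (gen M) (gen M s) := ⟨1, s, by group⟩

theorem Rfl.conj {r : Art M} (h : Rfl (gen M) r) (y : Art M) : Rfl (gen M) (y * r * y⁻¹) := by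
  obtain ⟨x, s, rfl⟩ := h
  exact ⟨y * x, s, by group⟩

theorem Rfl.esum_eq {r : Art M} (h : Rfl (gen M) r) : esum M r = Multiplicative.ofAdd 1 := by
  obtain ⟨x, s, rfl⟩ := h
  rw [map_mul, map_mul, map_inv, mul_right_comm, mul_inv_cancel, one_mul, esum_gen]

theorem Rfl.esum_zpow_eq {r : Art M} (h : Rfl (gen M) r) (k : ℤ) :
    esum M (r ^ k) = Multiplicative.ofAdd k := by
  rw [map_zpow, h.esum_eq, ← ofAdd_zsmul]; simp

theorem Rfl.zpow_inj {r r' : Art M} (h : Rfl (gen M) r) (h' : Rfl (gen M) r') {k l : ℤ}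
    (e : r ^ k = r' ^ l) : k = l := by
  have := congrArg (esum M) e
  rw [h.esum_zpow_eq, h'.esum_zpow_eq] at this
  exact this

theorem Rfl.zpow_ne_one {r : Art M} (h : Rfl (gen M) r) {k : ℤ} (hk : k ≠ 0) : r ^ k ≠ 1 := by
  intro e
  apply hk
  have : r ^ k = r ^ (0 : ℤ) := by simpa using e
  exact h.zpow_inj h this

theorem Rfl.pow_ne_one {r : Art M} (h : Rfl (gen M) r) {k : ℕ} (hk : 0 < k) : r ^ k ≠ 1 := by
  have := h.zpow_ne_one (k := k) (by omega)
  simpa using this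

theorem Rfl.ne_one {r : Art M} (h : Rfl (gen M) r) : r ≠ 1 := by
  have := h.zpow_ne_one one_ne_zero
  simpa using this

/-- a reflection in the cyclic group generated by a reflection -/
theorem Rfl.eq_of_zpow {r r' : Art M} (h : Rfl (gen M) r) (h' : Rfl (gen M) r') {l : ℤ}
    (e : r = r' ^ l) : r = r' := by
  have h1 : r ^ (1 : ℤ) = r' ^ l := by simpa using e
  have := h.zpow_inj h' h1
  subst this
  simpa using e

/-- a reflection fixes a type 1 vertex -/
theorem Rfl.exists_fix {r : Art M} (h : Rfl (gen M) r) :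
    ∃ v : Vtx (gen M), v.ty = 1 ∧ r • v = v := by
  obtain ⟨x, s, rfl⟩ := h
  refine ⟨Vtx.mk _ {s} (by simp) x, by simp [Vtx.ty_eq], ?_⟩
  rw [Vtx.fix1 (s := s) rfl (Vtx.mk_mem _ _ _)]
  exact ⟨1, by simp⟩

/-- the stabiliser of a type 1 vertex is generated by a reflection -/
theorem stab1 {v : Vtx (gen M)} (hv : v.ty = 1) :
    ∃ r, Rfl (gen M) r ∧ r • v = v ∧ ∀ h : Art M, h • v = v → ∃ i : ℤ, h = r ^ i := by
  obtain ⟨s, hs⟩ := Vtx.J1 hv
  obtain ⟨x, hx⟩ := v.exists_mem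
  refine ⟨x * gen M s * x⁻¹, ⟨x, s, rfl⟩, ?_, ?_⟩
  · rw [Vtx.fix1 hs hx]; exact ⟨1, by simp⟩
  · intro h hh
    rw [Vtx.fix1 hs hx] at hh
    obtain ⟨k, rfl⟩ := hh
    exact ⟨k, by rw [conj_zpow]⟩

/-- two reflections fixing a common type 1 vertex are equal -/
theorem Rfl.eq_of_fix1 {r r' : Art M} (h : Rfl (gen M) r) (h' : Rfl (gen M) r')
    {v : Vtx (gen M)} (hv : v.ty = 1) (e : r • v = v) (e' : r' • v = v) : r = r' := by
  obtain ⟨q, hq, -, H⟩ := stab1 hv
  obtain ⟨i, hi⟩ := H r e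
  obtain ⟨j, hj⟩ := H r' e'
  rw [h.eq_of_zpow hq hi, h'.eq_of_zpow hq hj]

/-- a reflection fixing a type 1 vertex, in coordinates -/
theorem Rfl.eq_conj {r : Art M} (h : Rfl (gen M) r) {v : Vtx (gen M)} {s : S} (hv : v.J = {s})
    (e : r • v = v) {x : Art M} (hx : v.mem x) : r = x * gen M s * x⁻¹ := by
  rw [Vtx.fix1 hv hx] at e
  obtain ⟨k, hk⟩ := e
  have h1 : r = (x * gen M s * x⁻¹) ^ k := by rw [hk, conj_zpow]
  exact h.eq_of_zpow ⟨x, s, rfl⟩ h1

/-- an element `≠ 1` fixes no type 0 vertex -/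
theorem ty_ne_zero_of_fix {G S : Type} [Group G] {g : S → G} {h : G} (hh : h ≠ 1) {v : Vtx g}
    (hv : h • v = v) : v.ty ≠ 0 := fun h0 => hh (Vtx.fix0 h0 hv)

/-- of two adjacent vertices not of type 0, one has type 1 and the other has type 2 -/
theorem ad_12 {G S : Type} [Group G] {g : S → G} {v w : Vtx g} (h : v.ad w) (hv : v.ty ≠ 0)
    (hw : w.ty ≠ 0) : (v.ty = 1 ∧ w.ty = 2) ∨ (v.ty = 2 ∧ w.ty = 1) := by
  have := Vtx.ad_ty_ne h
  have := v.ty_le
  have := w.ty_le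
  omega

theorem HypType.two_le {M : CoxeterMatrix S} (h : HypType M) {s t : S} (hst : s ≠ t) :
    2 ≤ M s t := by
  have h0 := h.ne_zero s t
  have h1 := M.off_diagonal s t hst
  omega

/-- `M s t = 2` for at most one `t` -/
theorem HypType.match {M : CoxeterMatrix S} (h : HypType M) {s t r : S} (hst : s ≠ t)
    (hsr : s ≠ r) (htr : t ≠ r) (h2 : M s t = 2) : 3 ≤ M s r := by
  by_contra hc
  have h3 : M s r = 2 := by
    have := h.two_le hsr
    omega
  have := h.hyp s t r hst htr hsr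
  rw [h2, h3] at this
  have h4 : (0 : ℚ) ≤ 1 / (M t r : ℚ) := by positivity
  norm_num at this
  linarith [h4, this, show (0 : ℚ) ≤ ((M t r : ℚ))⁻¹ by positivity]

theorem lb_pair [DecidableEq S] {M : CoxeterMatrix S} {s t : S} (hst : s ≠ t) (h : M s t ≠ 0) :
    lb M {s, t} = M s t := by
  have h1 := M.off_diagonal s t hst
  apply le_antisymm
  · apply Finset.sup_le
    rintro ⟨a, b⟩ hab
    simp only [Finset.mem_product, Finset.mem_insert, Finset.mem_singleton] at hab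
    obtain ⟨rfl | rfl, rfl | rfl⟩ := hab
    · simp; omega
    · simp
    · exact (M.symmetric _ _).le
    · simp; omega
  · exact Finset.le_sup (f := fun p : S × S => M p.1 p.2) (b := (s, t)) (by simp)

end art

end Pool.HA
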