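import Pool.Agent.Work.MP_7084a3_h91.Defs

set_option autoImplicit false

/-! # Blocks D (dihedral parabolic subgroups)

`pr (gen M) s t` (the subgroup generated by `gen M s`, `gen M t`) with `m = M s t ≥ 2` finite. Exponent sum `esum M`. -/

namespace Pool.HA

/-! ## D. Free product facts: `UJ m u j`, `F = ⟨u⟩ * ⟨j⟩` -/

/-- DW1: if `wordF u j e = 1`, `e ≠ []`, then two different entries of `e` are divisible by `m` (`m ≥ 2`).
Strong induction on the length `r`. By `nf` some entry is divisible by `m`; `wordF e = 1` is invariant under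
cyclic rotation of `e` (conjugation), so let it be the first one, `e = a :: e'`; `u^a = 1`. `r = 1`: `j = 1`,
impossible (`j = 1` would give `wordF [1,-1] = 1`, against `nf`). Now `j * wordF e' = 1`. `r = 2`: `j u^b j = 1`
so `u^b = 1`; if `m ∤ b` then `wordF [b,b] = u^b j u^b j = 1`, against `nf`; so `m ∣ b`. `r = 3`:
`j u^b j u^c j = 1` gives `u^(b+c) = u^c u^b = j`… that is `wordF [b+c] = 1`: induction hypothesis (length 1)
says impossible. `r ≥ 4`, `e' = b :: f ++ [c]`: `wordF ((b+c) :: f) = 1` up to rotation (conjugate by `j u^b`);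
the induction hypothesis gives two entries divisible by `m` of `(b+c) :: f`, at least one of them in `f`. -/
def Stmt_DW1 : Prop :=
  ∀ (F : Type) [Group F] (m : ℕ) (u j : F), 2 ≤ m → UJ m u j → ∀ e : List ℤ, e ≠ [] →
    wordF u j e = 1 → ∃ (x : List ℤ) (a : ℤ) (y : List ℤ) (b : ℤ) (z : List ℤ),
      e = x ++ a :: (y ++ b :: z) ∧ (m : ℤ) ∣ a ∧ (m : ℤ) ∣ b

/-- DW2: rewriting an alternating word `(uj)^{a₁} (ju)^{a₂} ⋯` (even length, `a_i ≠ 0`, first exponent
positive, last one negative) as `wordF u j e` with nonzero entries and `∑ (|e_i| - 1) + 2 ≤ length`.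
Since `j² = 1`, `(ju)^b = j (uj)^b j`, so for even length the word is `∏ (uj)^{a_i} j`; for `a > 0` the factor is
`u (ju)^(a-1)`, for `a = -c < 0` it is `j u⁻¹ (j u⁻¹)^(c-1) j`. Define along prefixes (first entry `> 0`):
if the last exponent is `> 0` the product is `u^{e₁} j ⋯ j u^{e_r}` with `e_r > 0` and `∑(|e_i|-1) + 1 ≤ L`;
if it is `< 0` the product is `u^{e₁} j ⋯ u^{e_r} j` with `e_r < 0` and `∑(|e_i|-1) + 2 ≤ L`. Appending `a`:
(+,+): `e_r + 1` followed by `a-1` entries `1`; (+,-): `c` new entries `-1`; (-,+): `a` new entries `1`;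
(-,-): `e_r - 1` followed by `c-1` entries `-1`. -/
def Stmt_DW2 : Prop :=
  ∀ (F : Type) [Group F] (u j : F), j * j = 1 → ∀ l : List ℤ, (∀ a ∈ l, a ≠ 0) → Even l.length →
    (∀ a ∈ l.head?, 0 < a) → (∀ a ∈ l.getLast?, a < 0) → l ≠ [] →
    ∃ e : List ℤ, e ≠ [] ∧ (∀ a ∈ e, a ≠ 0) ∧ altP (u * j) (j * u) l = wordF u j e ∧
      (e.map (fun a => (a.natAbs : ℤ) - 1)).sum + 2 ≤ l.length

/-- DSL (uses DW1, DW2): an alternating word with nonzero exponents, exponent sum zero, even length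
`L > 0`, which is trivial has `L ≥ 2m`. Since the sum is zero there are positive and negative exponents; a
cyclic rotation makes the first one positive and the last one negative (a rotation by one step exchanges
the roles of `uj` and `ju`, which are exchanged by conjugation with `j`; the rotated word is still trivial).
DW2 and DW1 give two entries `e_i` with `|e_i| ≥ m`, so `2 (m-1) + 2 ≤ L`. -/
def Stmt_DSL : Prop :=
  ∀ (F : Type) [Group F] (m : ℕ) (u j : F), 2 ≤ m → UJ m u j → ∀ l : List ℤ, l ≠ [] →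
    (∀ a ∈ l, a ≠ 0) → Even l.length → l.sum = 0 → altP (u * j) (j * u) l = 1 → 2 * m ≤ l.length

/-- DTOR: torsion elements of `⟨u, j⟩`. First: every `x ∈ closure {u,j}` is conjugate in `closure {u,j}` to
some `u^a`, or `j`, or `wordF u j e` with `e ≠ []` and no entry divisible by `m`: among all products of
`u^{a}`'s and `j`'s conjugate to `x` take one of the form `u^a`, `u^a j`-words `wordF e` or `j` with the
smallest number of letters (every element is `u^a`, or conjugate (rotate) to a `wordF e`; if an entry is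
divisible by `m` and the length is at least 2, `wordF` gets shorter by two after a rotation as in DW1; if the
length is 1, it is `j`). If `x^K = 1` the last case is impossible: `(wordF e)^K = wordF (e repeated K times) ≠ 1`
by `nf`. -/
def Stmt_DTOR : Prop :=
  ∀ (F : Type) [Group F] (m : ℕ) (u j : F), 2 ≤ m → UJ m u j →
    ∀ x ∈ Subgroup.closure ({u, j} : Set F), ∀ K : ℕ, 0 < K → x ^ K = 1 →
      ∃ y ∈ Subgroup.closure ({u, j} : Set F),
        (∃ a : ℤ, x = y * u ^ a * y⁻¹) ∨ x = y * j * y⁻¹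

/-- DNF: Garside normal form. In a group with `altG s t m = altG t s m =: Δ` (`m ≥ 2`), every element of
`closure {s,t}` is `Δ^k * pos s t p` with `p` a positive word which has no alternating subword of length `m`.
`Δ s = t Δ` or `s Δ` (and the same for `t`) according to the parity of `m`, so `Δ` normalises; `s⁻¹ = Δ⁻¹ * (Δ s⁻¹)`
and `Δ s⁻¹` is a positive word of length `m - 1` (`Δ` ends with `s` in one of its two expressions); so every
element is `Δ^k * pos s t p` (move the powers of `Δ` to the left, exchanging or not the letters of `p`). Choose `p`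
of smallest length: if `p = p₁ ++ altL b m ++ p₂` then `pos p = pos p₁ * Δ * pos p₂ = Δ * pos (p₁' ++ p₂)`, shorter. -/
def Stmt_DNF : Prop :=
  ∀ (G : Type) [Group G] (s t : G) (m : ℕ), 2 ≤ m → altG s t m = altG t s m →
    ∀ x ∈ Subgroup.closure ({s, t} : Set G), ∃ (k : ℤ) (p : List Bool),
      x = altG s t m ^ k * pos s t p ∧ ∀ (p₁ p₂ : List Bool) (b : Bool), p ≠ p₁ ++ altL b m ++ p₂

/-- DNG: grouping a nonempty positive word `p` without alternating subword of length `m`, for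
`s = u j`, `t = j u`, `j² = 1`: `pos s t p = j^b * (u^{e₁} j u^{e₂} ⋯ j u^{e_r}) * j^{1+c} = j^b * wordF u j e * j^c`,
`b, c ∈ {0,1}`. The groups are the maximal alternating subwords, `e_i` their lengths (`1 ≤ e_i < m`): between two
different consecutive letters nothing remains (`(uj)(ju) = u²`, `u (j u)(u j)…`), between two equal consecutive
letters one `j` remains (`(uj)(uj) = u·j·u·j`, `(ju)(ju) = j·u·j·u`). `b = 1` iff the first letter is `t`, `c = 1` iff the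
last letter is `t`. Counting letters `j`: `b + c + r + ∑ e_i` is even. Proof by induction on `p` (add a
letter in front). If `r = 1` then `p` is alternating. -/
def Stmt_DNG : Prop :=
  ∀ (F : Type) [Group F] (m : ℕ) (u j : F), 2 ≤ m → j * j = 1 → ∀ p : List Bool, p ≠ [] →
    (∀ (p₁ p₂ : List Bool) (b : Bool), p ≠ p₁ ++ altL b m ++ p₂) →
    ∃ (b c : ℕ) (e : List ℤ), e ≠ [] ∧ (∀ a ∈ e, 1 ≤ a ∧ a < m) ∧ b ≤ 1 ∧ c ≤ 1 ∧
      pos (u * j) (j * u) p = j ^ b * wordF u j e * j ^ c ∧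
      e.sum = p.length ∧ Even ((b : ℤ) + c + e.length + e.sum) ∧
      (b = 0 ↔ p.head? = some true) ∧
      (e.length = 1 → ∃ d, p = altL d p.length)

/-- DW3 (uses DW1): if `j^b * wordF u j e * j^c = u^a`, `e ≠ []`, no entry of `e` divisible by `m`, then `e = [e₁]`,
`b` is even, `c` is odd and `m ∣ e₁ - a`. Cases (mod 2): `b, c` even: `wordF (e₁-a, e₂, …, e_r) = 1`; `b` odd, `c` even:
`wordF (e₁,…,e_r,-a) = 1`; `b, c` odd: `wordF (e₁,…,e_{r-1},e_r - a) = 1`; each has at most one entry divisible by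
`m`, against DW1. `b` even, `c` odd: `u^{e₁} j ⋯ j u^{e_r - a} = 1`, rotate: `wordF (e₂,…,e_{r-1},e_r - a + e₁) = 1` if
`r ≥ 2`, against DW1; if `r = 1`, `u^{e₁-a} = 1` and `m ∣ e₁ - a` (else `wordF [x,x] = 1`, `x = e₁ - a`). -/
def Stmt_DW3 : Prop :=
  ∀ (F : Type) [Group F] (m : ℕ) (u j : F), 2 ≤ m → UJ m u j → ∀ (e : List ℤ) (b c : ℕ) (a : ℤ),
    e ≠ [] → (∀ x ∈ e, ¬ (m : ℤ) ∣ x) → j ^ b * wordF u j e * j ^ c = u ^ a →
    ∃ e₁, e = [e₁] ∧ Even b ∧ Odd c ∧ (m : ℤ) ∣ e₁ - a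

/-! ### Matrices over `ℝ(q)` -/

/-- DREP: the reflection `hk M q d i` is invertible and the braid relations hold. Let `m = M i j ≥ 2`,
`i ≠ j`. The plane `span (e_i, e_j)` is invariant and `φ_i, φ_j` restricted to it are linearly independent
(the determinant is `(1+q)² - q λ²`), so `V = span (e_i,e_j) ⊕ (ker φ_i ∩ ker φ_j)`, and on the second summand both
are the identity. On the plane: `s = [[-q, λd],[0,1]]`, `t = [[1,0],[λd',-q]]`, `d d' = q`. Put
`J = [[0,d],[d',0]]`, `J² = q`, `U = [[λ,-d],[1/d,0]]`, `det U = 1`, `tr U = λ = 2cos(π/m)`, so `U^m = -1`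
(Cayley–Hamilton and `U^k = [sin kθ U - sin (k-1)θ]/sin θ`), `s = U J`, `t = J U`. `m = 2k`: `(st)^k = (q U²)^k = -q^k`,
`(ts)^k = (J U² J)^k = -q^k`. `m = 2k+1`: `(st)^k s = q^k U^m J = -q^k J`, `(ts)^k t = q^k J U^m = -q^k J`. -/
def Stmt_DREP : Prop :=
  ∀ (S K : Type) [Field K] [Algebra ℝ K] (M : CoxeterMatrix S) (q : K) (d : S → S → K),
    (∀ s t, M s t ≠ 0) → q ≠ 0 → (∀ i j, i ≠ j → d i j * d j i = q) →
    (∀ i j, i ≠ j → (1 + q) ^ 2 ≠ q * (algebraMap ℝ K (lam (M i j))) ^ 2) →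
    ∃ ρ : Art M →* Module.End K (S →₀ K), ∀ i, ρ (gen M i) = hk M q d i

/-- DPL (uses DREP): the matrices of the rank two parabolic subgroup. `K = ℝ(q)`, `q = X`; choose a linear
order on `S` with `s < t` and `d i j = 1` if `i < j`, `d i j = q` if `j < i`. Elements of `pr s t` preserve
`span (e_s,e_t)`; take the matrix in this basis. (`gen M s ↦ sM m`, `gen M t ↦ tM m`.) -/
def Stmt_DPL : Prop :=
  ∀ (S : Type) (M : CoxeterMatrix S), (∀ s t, M s t ≠ 0) → ∀ s t : S, s ≠ t →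
    ∃ Φ : ↥(pr (gen M) s t) →* Matrix (Fin 2) (Fin 2) KK,
      (∀ x, x.1 = gen M s → Φ x = sM (M s t)) ∧ (∀ x, x.1 = gen M t → Φ x = tM (M s t))

/-- DDEG: `U0^{e₁} J0 U0^{e₂} ⋯ J0 U0^{e_r}` (`r ≥ 1`, `m ∤ e_i`, `m ≥ 2`) and the same matrix times `J0` are not
scalar. `U0^e = [[a,b],[c,d]]` real with `b = -c = - sin(eθ)/sin θ ≠ 0`, `θ = π/m`. By induction the entries of
`Y = U0^{e₁} J0 ⋯ U0^{e_r}` are polynomials in `q` of degree `≤ r-1` and `Y₁₂` has degree exactly `r-1`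
(`Y J0 = [[q Y₁₂, Y₁₁],[q Y₂₂, Y₂₁]]`), so `Y₁₂ ≠ 0`. And `Y J0` has `(1,1)` entry of degree `r` and `(2,2)` entry of
degree `≤ r-1`. (Here in the form: units `U, J` of the matrix ring with `↑U = U0 m`, `↑J = J0`.) -/
def Stmt_DDEG : Prop :=
  ∀ (m : ℕ), 2 ≤ m → ∀ (U J : (Matrix (Fin 2) (Fin 2) KK)ˣ), (U : Matrix _ _ KK) = U0 m →
    (J : Matrix _ _ KK) = J0 → ∀ e : List ℤ, e ≠ [] → (∀ a ∈ e, ¬ (m : ℤ) ∣ a) → ∀ c : KK,
      (wordF U J e).val ≠ c • (1 : Matrix (Fin 2) (Fin 2) KK) ∧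
      (wordF U J e * J⁻¹).val ≠ c • (1 : Matrix (Fin 2) (Fin 2) KK)

/-- DUJ (uses DDEG): the group `PP` of units of `M₂(ℝ(q))` modulo its centre (the scalars), with `u, j` the
classes of `U0`, `J0`, satisfies `UJ m u j`. (`U0^m = -1`, `J0² = q`.) Together with DPL: the homomorphism
`θ : pr s t → PP`, `θ(gen s) = u j`, `θ(gen t) = j u`; `θ x = 1` iff `Φ x` is scalar. Here stated as: there are
`F, u, j, θ` and the matrix homomorphism `Φ`. -/
def Stmt_DTH : Prop :=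
  ∀ (S : Type) (M : CoxeterMatrix S), (∀ s t, M s t ≠ 0) → ∀ s t : S, s ≠ t →
    ∃ (F : Type) (_ : Group F) (u j : F) (θ : ↥(pr (gen M) s t) →* F)
      (Φ : ↥(pr (gen M) s t) →* Matrix (Fin 2) (Fin 2) KK), UJ (M s t) u j ∧
      (∀ x, x.1 = gen M s → Φ x = sM (M s t)) ∧ (∀ x, x.1 = gen M t → Φ x = tM (M s t)) ∧
      (∀ x, x.1 = gen M s → θ x = u * j) ∧ (∀ x, x.1 = gen M t → θ x = j * u) ∧
      (∀ x, θ x = 1 ↔ ∃ c : KK, Φ x = c • (1 : Matrix _ _ KK))

/-! ### Results on `par (gen M) {s,t}` -/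

/-- DINJ (uses DNF, DNG, DW3): `θ x = 1` and `esum x = 1` (exponent sum zero) imply `x = 1`. By DNF
`x = Δ^k * pos s t p`, `p` without alternating subword of length `m`; `θ Δ` is `1` (`m` even) or `j` (`m` odd)
(the alternating product of `uj` and `ju` of length `m` is `u^m` or `u^m j`). If `p ≠ []`, DNG gives
`1 = θ x = j^{b'} * wordF e * j^c` with all `1 ≤ e_i < m`, and DW3 with `a = 0` gives `m ∣ e₁`, impossible. So
`x = Δ^k`, exponent sum `m k = 0`. -/
def Stmt_DINJ : Prop :=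
  ∀ (S : Type) (M : CoxeterMatrix S), (∀ s t, M s t ≠ 0) → ∀ s t : S, s ≠ t →
    ∀ (F : Type) [Group F] (u j : F) (θ : ↥(pr (gen M) s t) →* F), UJ (M s t) u j →
      (∀ x, x.1 = gen M s → θ x = u * j) → (∀ x, x.1 = gen M t → θ x = j * u) →
      ∀ x, θ x = 1 → esum M x.1 = 1 → x = 1

/-- DSLG (uses DTH, DSL): alternating words in `gen s`, `gen t`. (Exponent sum zero by `esum`.) -/
def Stmt_DSLG : Prop :=
  ∀ (S : Type) (M : CoxeterMatrix S), (∀ s t, M s t ≠ 0) → ∀ s t : S, s ≠ t →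
    ∀ l : List ℤ, l ≠ [] → (∀ a ∈ l, a ≠ 0) → Even l.length →
      altP (gen M s) (gen M t) l = 1 → 2 * M s t ≤ l.length

/-- DNCM (uses DSLG): if `(gen s)^b` commutes with `gen t`, `b ≠ 0`, the word `s^b t s^{-b} t^{-1}` of length 4 is
trivial, so `M s t ≤ 2`. -/
def Stmt_DNCM : Prop :=
  ∀ (S : Type) (M : CoxeterMatrix S), (∀ s t, M s t ≠ 0) → ∀ s t : S, s ≠ t → 3 ≤ M s t →
    ∀ b : ℤ, Commute (gen M s ^ b) (gen M t) → b = 0

/-- DROOT (uses DTH, DINJ): roots of powers of a generator. `h^K = s^k`, `k ≠ 0`; let `i = esum h`, `i K = k`.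
`Φ h` commutes with `Φ(s)^k = 1 + [k](Φ(s) - 1)`, `[k] ≠ 0`, so with `Φ(s) = sM`, whose eigenvalues `-q`, `1` are
different: `Φ h` is diagonal in the same basis, with eigenvalues `μ₁, μ₂`, `μ₂^K = 1` in `ℝ(q)`, so `μ₂ = ±1`
(roots of unity in `ℝ(q)` are constants), `μ₁ μ₂ = det Φ h = (-q)^i` (`det` is a homomorphism, `det = -q` on both
generators), so `Φ h = ± Φ(s)^i`; thus `Φ(h s^{-i})` is scalar and `h = s^i` by DINJ. -/
def Stmt_DROOT : Prop :=
  ∀ (S : Type) (M : CoxeterMatrix S), (∀ s t, M s t ≠ 0) → ∀ s t : S, s ≠ t →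
    ∀ h ∈ pr (gen M) s t, ∀ (K : ℕ) (k : ℤ), 0 < K → k ≠ 0 → h ^ K = gen M s ^ k →
      ∃ i : ℤ, h = gen M s ^ i

/-- DCEN: `(st)^m` is central in `pr s t` (`m = M s t`). From the braid relation (`Δ² = (st)^m`, `Δ` permutes
the generators). -/
def Stmt_DCEN : Prop :=
  ∀ (S : Type) (M : CoxeterMatrix S), (∀ s t, M s t ≠ 0) → ∀ s t : S, s ≠ t →
    ∀ h ∈ pr (gen M) s t, Commute ((gen M s * gen M t) ^ M s t) h

/-- DCPC (uses DTH, DINJ, DTOR, DNF, DNG, DW1, DW3): elements with a central power, `m ≥ 3`.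
`Φ(y)^K` commutes with `sM, tM` (`λ ≠ 0`), so it is scalar and `θ(y)^K = 1`. By DTOR `θ(y) = x u^a x⁻¹` or
`x j x⁻¹`, `x ∈ closure {u,j}`. `H = range θ = closure {uj, ju}` contains `u² = (uj)(ju)`, is normalised by `u` and
`j`, and `closure {u,j} = H ∪ H u`; if `m` is odd `H` contains `u = (u²)^{(m+1)/2}` and `H = closure {u,j}`.
Conjugating `y` in `pr s t` we may assume `θ(y) = u^a`, or `θ(y) = j`, or (`m` even) `θ(y) = u j u⁻¹` (in the first
case `x u · u^a · u⁻¹ x⁻¹ = x u^a x⁻¹`). Write `y = Δ^i * pos s t p` (DNF); if `p ≠ []`, DNG: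
`θ(y) = j^{b'} * wordF e * j^c`, `b' ≡ b` (`m` even or `i` even) or `b' ≡ b+1` (`m` and `i` odd).
(1) `θ(y) = u^a`. If `p = []`, `y = Δ^i`, done. If `p ≠ []`, DW3: `e = [e₁]`, `b'` even, `c = 1`, `p = altL d e₁`.
`m` even, or `i` even: `b = 0`, so `d = true`, and `e₁` is even by the parity in DNG:
`y = Δ^i (st)^{e₁/2}`, a power of `st` (`Δ = (st)^{m/2}`, resp. `Δ² = (st)^m`). `m` and `i` odd: `b = 1`, `d = false`, `e₁` odd,
`Δ * pos (altL false e₁) = altG s t (m + e₁) = (st)^{(m+e₁)/2}`, so `y = Δ^{i-1} (st)^{(m+e₁)/2}` is a power of `st`.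
(2) `θ(y) = j`. If `p ≠ []` then `j^{b'+1} * wordF e * j^c = u^0`, DW3 gives `m ∣ e₁`, impossible. So `y = Δ^i`.
(3) `m` even, `θ(y) = u j u⁻¹`. `p = []` would give `u j u⁻¹ = 1`. `p ≠ []`: `j^b * wordF e * j^c = u j u⁻¹`.
`b = 1, c = 0`: `wordF (e₁,…,e_r,1,-1) = 1`, against `nf`. `b = 1, c = 1`: `wordF (e₁,…,e_r + 1,-1) = 1`, against DW1.
`b = 0, c = 0`: `wordF (e₁ - 1, e₂, …, e_r, 1) = 1`, against DW1. `b = 0, c = 1`: `wordF (e₁ - 1, e₂, …, e_r + 1) = 1` with
`r ≥ 2` (`r = 1`: `wordF [e₁] = 1`, no); by DW1 `e₁ = 1`, `e_r = m - 1`, and then `wordF (e₂,…,e_{r-1}) = 1`, so `r = 2`;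
parity in DNG: `0 + 1 + 2 + m` even, but `m` is even: contradiction. -/
def Stmt_DCPC : Prop :=
  ∀ (S : Type) (M : CoxeterMatrix S), (∀ s t, M s t ≠ 0) → ∀ s t : S, s ≠ t → 3 ≤ M s t →
    ∀ y ∈ pr (gen M) s t, ∀ K : ℕ, 0 < K →
      (∀ h ∈ pr (gen M) s t, Commute (y ^ K) h) →
      ∃ w ∈ pr (gen M) s t, ∃ l : ℤ, y = w * (gen M s * gen M t) ^ l * w⁻¹ ∨
        y = w * (altG (gen M s) (gen M t) (M s t)) ^ l * w⁻¹

/-- DTF (uses DCPC, DSLG): `pr s t` is torsion free. `m ≥ 3`: `h^K = 1` is central, by DCPC `h` is conjugate to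
`(st)^l` or `Δ^l`, exponent sum `2 l` or `m l` is zero, `h = 1`. `m = 2`: `s` and `t` commute, `h = s^a t^b`,
`s^{aK} t^{bK} = 1`, by DSLG `a = b = 0`. -/
def Stmt_DTF : Prop :=
  ∀ (S : Type) (M : CoxeterMatrix S), (∀ s t, M s t ≠ 0) → ∀ s t : S, s ≠ t →
    ∀ h ∈ pr (gen M) s t, ∀ K : ℕ, 0 < K → h ^ K = 1 → h = 1

/-- DPG (uses DREP with `q = 1`, or the Coxeter group): `gen t ∈ par J` implies `t ∈ J`: for `h ∈ par J` the
image of `ρ h - 1` is in `span (e_J)`, but `ρ(gen t) e_t - e_t = -(1+q) e_t`. -/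
def Stmt_DPG : Prop :=
  ∀ (S : Type) (M : CoxeterMatrix S), (∀ s t, M s t ≠ 0) → ∀ (J : Finset S) (t : S),
    gen M t ∈ par (gen M) J → t ∈ J

end Pool.HA
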