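import Pool.Agent.Work.MP_7084a3_h91.Defs

set_option autoImplicit false

/-! # Blocks W (Coxeter groups)

`ρ : M.Group →* End (S → ℝ)` with `IsRep M ρ` is the geometric representation, `bs s` the basis vector (simple
root) `α_s`, `bf M` the bilinear form (`bf M (bs s) (bs t) = - cos (π / M s t)`, and `1` for `s = t`).
`IsRt`: roots, `IsPR`: positive roots, `IsRf M ρ r v`: `r` is the reflection in the root `v` (so
`ρ r x = x - 2 (bf x v) v`). -/

namespace Pool.HA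

/-! ## General facts on one Coxeter group (all entries of `M` finite) -/

/-- GREP (uses DREP with `K = ℝ`, `q = 1`, `d = 1`, or directly): the geometric representation exists. The braid
relations hold and the squares are `1`, so `(r_s r_t)^{M s t} = 1`. -/
def Stmt_GREP : Prop :=
  ∀ (S : Type) [Fintype S] [DecidableEq S] (M : CoxeterMatrix S), (∀ s t, M s t ≠ 0) →
    ∃ ρ : M.Group →* Module.End ℝ (S → ℝ), IsRep M ρ

/-- BFI: the form is symmetric, bilinear (as stated), invariant; `bf v v = 1` for roots; the reflection in a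
root acts by the usual formula. -/
def Stmt_BFI : Prop :=
  ∀ (S : Type) [Fintype S] [DecidableEq S] (M : CoxeterMatrix S)
    (ρ : M.Group →* Module.End ℝ (S → ℝ)), IsRep M ρ →
    (∀ v w, bf M v w = bf M w v) ∧ (∀ (a b : ℝ) v v' w, bf M (a • v + b • v') w =
      a * bf M v w + b * bf M v' w) ∧ (∀ s t, bf M (bs s) (bs t) = -Real.cos (Real.pi / M s t)) ∧
    (∀ g v w, bf M (ρ g v) (ρ g w) = bf M v w) ∧ (∀ v, IsRt M ρ v → bf M v v = 1) ∧
    (∀ r v, IsRf M ρ r v → ∀ x, ρ r x = x - (2 * bf M x v) • v)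

/-- POS (uses BFI): every root is nonnegative or nonpositive. Tits' theorem: with `cs = M.toCoxeterSystem`,
`ℓ(w) < ℓ(w s)` implies `ρ w α_s ≥ 0` (and then `ℓ(w s) < ℓ(w)` implies `ρ w α_s ≤ 0`, apply it to `w s`). Strong induction on
`ℓ(w)`. `w ≠ 1`: let `t` with `ℓ(w t) < ℓ(w)`, `t ≠ s`. Let `k` be maximal such that `w = v * a_k`, `a_k` the product of the
alternating word of length `k` in `s, t` ending in `t`, and `ℓ(v) = ℓ(w) - k`; `k ≥ 1`. Let `p` be the first letter of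
`a_k`, `p'` the other one. `ℓ(v p') > ℓ(v)` by maximality (otherwise `w = (v p')(p' a_k)`); `ℓ(v p) > ℓ(v)` (otherwise
`w = (v p) a_{k-1}` has length `≤ ℓ(w) - 2`). Induction: `ρ v α_s ≥ 0`, `ρ v α_t ≥ 0`. `k ≤ m - 1`, `m = M s t`: otherwise, by the
braid relation, the last `m` letters can be replaced by the alternating word ending in `s`, and `ℓ(w s) < ℓ(w)`. For
`k ≤ m - 1`, `a_k α_s` is a nonnegative combination of `α_s, α_t` (`sin((k+1)θ)/sin θ` and `sin(kθ)/sin θ`, `θ = π/m`). So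
`ρ w α_s = ρ v (a_k α_s) ≥ 0`. -/
def Stmt_POS : Prop :=
  ∀ (S : Type) [Fintype S] [DecidableEq S] (M : CoxeterMatrix S)
    (ρ : M.Group →* Module.End ℝ (S → ℝ)), (∀ s t, M s t ≠ 0) → IsRep M ρ →
    ∀ (w : M.Group) (s : S),
      (M.toCoxeterSystem.length w < M.toCoxeterSystem.length (w * M.simple s) →
        ∀ t, 0 ≤ ρ w (bs s) t) ∧
      (M.toCoxeterSystem.length (w * M.simple s) < M.toCoxeterSystem.length w →
        ∀ t, ρ w (bs s) t ≤ 0)

/-- FAITH (uses POS): `ρ` is injective: if `w ≠ 1` there is `s` with `ℓ(w s) < ℓ(w)`, `ρ w α_s ≤ 0`, so `ρ w α_s ≠ α_s`. -/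
def Stmt_FAITH : Prop :=
  ∀ (S : Type) [Fintype S] [DecidableEq S] (M : CoxeterMatrix S)
    (ρ : M.Group →* Module.End ℝ (S → ℝ)), (∀ s t, M s t ≠ 0) → IsRep M ρ →
    ∀ w : M.Group, ρ w = 1 → w = 1

/-- NFIN (uses POS, BFI): finitely many positive roots are sent by `w` to nonpositive vectors. For `w = s` simple: only `α_s`
(a positive root `v ≠ α_s` has a coordinate `v t > 0`, `t ≠ s`, as `bf v v = 1`; it is unchanged by `s`, so `ρ s v` is
a positive root). For `w s`: the set is contained in `{α_s} ∪ ρ s (set of w)`. -/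
def Stmt_NFIN : Prop :=
  ∀ (S : Type) [Fintype S] [DecidableEq S] (M : CoxeterMatrix S)
    (ρ : M.Group →* Module.End ℝ (S → ℝ)), (∀ s t, M s t ≠ 0) → IsRep M ρ →
    (∀ s v, IsPR M ρ v → v ≠ bs s → IsPR M ρ (ρ (M.simple s) v)) ∧
    ∀ w : M.Group, {v | IsPR M ρ v ∧ ∀ t, (ρ w v) t ≤ 0}.Finite

/-- CONE (uses NFIN, POS): `UC` is a convex cone, invariant, and contains the functionals positive on the
simple roots. -/
def Stmt_CONE : Prop :=
  ∀ (S : Type) [Fintype S] [DecidableEq S] (M : CoxeterMatrix S)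
    (ρ : M.Group →* Module.End ℝ (S → ℝ)), (∀ s t, M s t ≠ 0) → IsRep M ρ →
    (∀ x ∈ UC M ρ, ∀ y ∈ UC M ρ, x + y ∈ UC M ρ) ∧ (∀ x ∈ UC M ρ, ∀ a : ℝ, 0 < a → a • x ∈ UC M ρ) ∧
    (∀ x ∈ UC M ρ, ∀ w, x ∘ₗ ρ w ∈ UC M ρ) ∧ (∀ x : (S → ℝ) →ₗ[ℝ] ℝ, (∀ s, 0 < x (bs s)) → x ∈ UC M ρ)

/-- REGD (uses NFIN, POS): a regular point of `UC` can be moved to the fundamental chamber. Induction on the
number of positive roots `v` with `x v < 0`: if some `x(α_s) < 0`, replace `x` by `x ∘ ρ s`: the number drops by one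
(NFIN, first part: `ρ s` permutes the positive roots other than `α_s`). If all `x(α_s) > 0` take `w = 1`. -/
def Stmt_REGD : Prop :=
  ∀ (S : Type) [Fintype S] [DecidableEq S] (M : CoxeterMatrix S)
    (ρ : M.Group →* Module.End ℝ (S → ℝ)), (∀ s t, M s t ≠ 0) → IsRep M ρ →
    ∀ x ∈ UC M ρ, (∀ v, IsRt M ρ v → x v ≠ 0) → ∃ w, ∀ s, 0 < x (ρ w (bs s))

/-- FINO (uses FAITH, NFIN, POS, BFI): if `|bf v₁ v₂| < 1` then `r₁ r₂` has finite order. Let `R = r₁ r₂`, `P = span(v₁,v₂)`,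
positive definite, `R` a rotation of `P` by an angle `2θ`, trivial on the orthogonal complement of `P` (and
`V = P ⊕ P^⊥`). If `R^k` is the identity on `P` for some `k > 0` then `ρ(R^k) = 1`, so `R^k = 1` (FAITH). Otherwise `θ/π` is
irrational, the roots `R^j v₁` are dense in the unit circle of `P`. Let `y` = sum of the coordinates; `y ≠ 0` on roots,
its sign tells positive from negative roots. `y|_P` and `(y ∘ r₁)|_P` are not positively proportional
(`y(r₁ v₁) = - y(v₁) ≠ 0`), so there is an open arc where `y > 0` and `y ∘ r₁ < 0`; it contains infinitely many of the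
roots `R^j v₁`, which are positive and sent by `r₁` to negative roots, against NFIN. -/
def Stmt_FINO : Prop :=
  ∀ (S : Type) [Fintype S] [DecidableEq S] (M : CoxeterMatrix S)
    (ρ : M.Group →* Module.End ℝ (S → ℝ)), (∀ s t, M s t ≠ 0) → IsRep M ρ →
    ∀ (r₁ r₂ : M.Group) (v₁ v₂ : S → ℝ), IsRf M ρ r₁ v₁ → IsRf M ρ r₂ v₂ → |bf M v₁ v₂| < 1 →
      ∃ k : ℕ, 0 < k ∧ (r₁ * r₂) ^ k = 1

/-- INFO (uses BFI): if `|bf v₁ v₂| ≥ 1` and `v₁ ≠ ± v₂` then `r₁ r₂` has infinite order. `v₁, v₂` are linearly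
independent. `T = ρ(r₁ r₂)` on `span(v₁,v₂)` has determinant 1 and trace `4b² - 2 ≥ 2`, `b = bf v₁ v₂`. With
`x_j = T^j v₁`: `x_{j+1} = (4b²-2) x_j - x_{j-1}`; `T v₁ ≠ v₁`; the coefficients of `x_j` are unbounded. -/
def Stmt_INFO : Prop :=
  ∀ (S : Type) [Fintype S] [DecidableEq S] (M : CoxeterMatrix S)
    (ρ : M.Group →* Module.End ℝ (S → ℝ)), IsRep M ρ →
    ∀ (r₁ r₂ : M.Group) (v₁ v₂ : S → ℝ), IsRf M ρ r₁ v₁ → IsRf M ρ r₂ v₂ → 1 ≤ |bf M v₁ v₂| →
      v₁ ≠ v₂ → v₁ ≠ -v₂ → ∀ k : ℕ, 0 < k → (r₁ * r₂) ^ k ≠ 1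

/-- ORD (uses BFI): the order of `s t` is `M s t` (rotation by `2π/m` on the plane of `α_s, α_t`). -/
def Stmt_ORD : Prop :=
  ∀ (S : Type) [Fintype S] [DecidableEq S] (M : CoxeterMatrix S)
    (ρ : M.Group →* Module.End ℝ (S → ℝ)), (∀ s t, M s t ≠ 0) → IsRep M ρ →
    ∀ s t, orderOf (M.simple s * M.simple t) = M s t

/-- TRC (uses BFI): if `r₁ r₂ = w (s t) w⁻¹`, `s ≠ t`, then `bf v₁ v₂ ^ 2 = cos² (π / M s t)`: the trace of the product of
the reflections in `v₁, v₂` is `n - 4 + 4 (bf v₁ v₂)²`. -/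
def Stmt_TRC : Prop :=
  ∀ (S : Type) [Fintype S] [DecidableEq S] (M : CoxeterMatrix S)
    (ρ : M.Group →* Module.End ℝ (S → ℝ)), IsRep M ρ →
    ∀ (r₁ r₂ w : M.Group) (v₁ v₂ : S → ℝ) (s t : S), IsRf M ρ r₁ v₁ → IsRf M ρ r₂ v₂ → s ≠ t →
      r₁ * r₂ = w * (M.simple s * M.simple t) * w⁻¹ →
      (bf M v₁ v₂) ^ 2 = (Real.cos (Real.pi / M s t)) ^ 2

/-! ## Two Coxeter groups -/

/-- the situation: `ψ` an isomorphism preserving reflections, `β s` a root of the reflection `ψ(s)` -/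
structure WC {S S' : Type} [Fintype S] [DecidableEq S] [Fintype S'] [DecidableEq S']
    (M : CoxeterMatrix S) (M' : CoxeterMatrix S') (ρ : M.Group →* Module.End ℝ (S → ℝ))
    (ρ' : M'.Group →* Module.End ℝ (S' → ℝ)) (ψ : M.Group ≃* M'.Group) (β : S → (S' → ℝ)) :
    Prop where
  hM : HypType M
  hM' : HypType M'
  rep : IsRep M ρ
  rep' : IsRep M' ρ'
  refl : ∀ s, IsRf M' ρ' (ψ (M.simple s)) (β s)
  refl' : ∀ s', ∃ w s, ψ.symm (M'.simple s') = w * M.simple s * w⁻¹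
  gram : ∀ s t, s ≠ t → |bf M' (β s) (β t)| = Real.cos (Real.pi / M s t)

/-- WCI (uses BFI, ORD, TRC): from an isomorphism as in WB to a situation `WC`. For `s` let `β s` be a root of the
reflection `ψ(s)`. `M s t ≥ 3`: `ψ(s)ψ(t) = w (s't') w⁻¹`, so `M' s' t' = M s t` by the orders (ORD) and TRC gives
`|bf| = cos(π / M s t)`. `M s t = 2`: the reflections commute and are different, so `bf (β s) (β t) = 0`
(`ρ(r_s) β_t = ± β_t`, as `r_s r_t r_s = r_t`). -/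
def Stmt_WCI : Prop :=
  ∀ (S S' : Type) [Fintype S] [DecidableEq S] [Fintype S'] [DecidableEq S']
    (M : CoxeterMatrix S) (M' : CoxeterMatrix S') (ρ : M.Group →* Module.End ℝ (S → ℝ))
    (ρ' : M'.Group →* Module.End ℝ (S' → ℝ)) (ψ : M.Group ≃* M'.Group), HypType M → HypType M' →
    IsRep M ρ → IsRep M' ρ' → (∀ s, ∃ w s', ψ (M.simple s) = w * M'.simple s' * w⁻¹) →
    (∀ s', ∃ w s, ψ.symm (M'.simple s') = w * M.simple s * w⁻¹) →
    (∀ s t, s ≠ t → 3 ≤ M s t → ∃ w s' t', s' ≠ t' ∧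
      ψ (M.simple s * M.simple t) = w * (M'.simple s' * M'.simple t') * w⁻¹) →
    ∃ β, WC M M' ρ ρ' ψ β

/-- SG3 (uses BFI, FINO, INFO): sign of a triple with all labels at least 3. Let `c_{st} = cos(π / M s t) ∈ [1/2, 1)`.
Suppose the product of the three `bf M' (β_i) (β_j)` is positive; changing signs of the `β`'s we may assume all are
`+ c`. Rename so that `c_{sr}` is the largest of the three. In `M.Group`: `s · (t r t)`: roots `α_s` and `α_r + 2 c_{tr} α_t`,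
form `-(c_{sr} + 2 c_{tr} c_{st}) ≤ -1`, infinite order (INFO). In `M'.Group`: roots `β_s`, `β_r - 2 c_{tr} β_t`, form
`c_{sr} - 2 c_{tr} c_{st} ∈ (-1, 1)` (`2 c_{tr} c_{st} ≤ 2 c_{sr} c_{st}`, and `2 c_{sr} c_{st} - c_{sr} < 1`), finite order (FINO).
Contradiction. (It is not zero, since the `c`'s are not.) -/
def Stmt_SG3 : Prop :=
  ∀ (S S' : Type) [Fintype S] [DecidableEq S] [Fintype S'] [DecidableEq S']
    (M : CoxeterMatrix S) (M' : CoxeterMatrix S') (ρ : M.Group →* Module.End ℝ (S → ℝ))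
    (ρ' : M'.Group →* Module.End ℝ (S' → ℝ)) (ψ : M.Group ≃* M'.Group) (β : S → (S' → ℝ)),
    WC M M' ρ ρ' ψ β → ∀ s t r, s ≠ t → t ≠ r → s ≠ r → 3 ≤ M s t → 3 ≤ M t r → 3 ≤ M s r →
      bf M' (β s) (β t) * bf M' (β t) (β r) * bf M' (β s) (β r) < 0

/-- SG4 (uses BFI, FINO, INFO): sign of a 4-cycle whose diagonals have label 2. `c₁ = c_{12}`, `c₂ = c_{23}`, `c₃ = c_{34}`,
`c₄ = c_{41} ∈ [1/2,1)`, `c_{13} = c_{24} = 0`. Suppose the product of the four forms is negative; changing signs: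
`bf(β₁,β₂) = -c₁`, `bf(β₂,β₃) = -c₂`, `bf(β₃,β₄) = -c₃`, `bf(β₄,β₁) = c₄`. In `M.Group`: `(s₂ s₁ s₂)(s₄ s₃ s₄)` has roots
`α₁ + 2 c₁ α₂`, `α₃ + 2 c₃ α₄`, form `-2(c₁ c₂ + c₃ c₄) ≤ -1`: infinite order; in `M'.Group` the form is
`2(c₃ c₄ - c₁ c₂)`. In the same way `(s₁ s₂ s₁)(s₃ s₄ s₃)`: forms `-2(c₁ c₄ + c₂ c₃)` and `2(c₁ c₄ - c₂ c₃)`. One of
`|c₁ c₂ - c₃ c₄|`, `|c₁ c₄ - c₂ c₃|` is less than `1/2` (otherwise, e.g. `c₁c₂ ≥ 1/2 + c₃c₄`, `c₁c₄ ≥ 1/2 + c₂c₃`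
give `c₂ > 1/2 + c₄/2`, `c₄ > 1/2 + c₂/2`, so `c₂ > 1`; the other sign cases are similar): FINO gives finite order,
contradiction. -/
def Stmt_SG4 : Prop :=
  ∀ (S S' : Type) [Fintype S] [DecidableEq S] [Fintype S'] [DecidableEq S']
    (M : CoxeterMatrix S) (M' : CoxeterMatrix S') (ρ : M.Group →* Module.End ℝ (S → ℝ))
    (ρ' : M'.Group →* Module.End ℝ (S' → ℝ)) (ψ : M.Group ≃* M'.Group) (β : S → (S' → ℝ)),
    WC M M' ρ ρ' ψ β → ∀ s₁ s₂ s₃ s₄, [s₁, s₂, s₃, s₄].Nodup → M s₁ s₃ = 2 → M s₂ s₄ = 2 →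
      0 < bf M' (β s₁) (β s₂) * bf M' (β s₂) (β s₃) * bf M' (β s₃) (β s₄) * bf M' (β s₄) (β s₁)

/-- SGA: choice of signs (abstract). `S` finite, `B` symmetric, `|B s t| = c s t`, the pairs with `c = 0` form a matching,
triples with nonzero `c` have negative product, 4-cycles with both diagonals zero have positive product.
Let `b` be a point (`S` empty is clear), `e b = 1`; `e s = - sign (B b s)` if `c b s ≠ 0`; if `b'` has `c b b' = 0` and
there is `s₀ ≠ b, b'`: `e b' = - e s₀ * sign (B s₀ b')` (otherwise `e b' = 1`). Check: pair `s, t` both `≠ b, b'`, `c s t ≠ 0`: triple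
`b, s, t`. Pair `t, b'`: `t = s₀` by definition; `c s₀ t ≠ 0`: triple `s₀, t, b'`; `c s₀ t = 0`: 4-cycle `b, s₀, b', t`. -/
def Stmt_SGA : Prop :=
  ∀ (S : Type) [Finite S] (B : S → S → ℝ), (∀ s t, B s t = B t s) →
    (∀ s t r, s ≠ t → s ≠ r → t ≠ r → B s t = 0 → B s r ≠ 0) →
    (∀ s t r, s ≠ t → t ≠ r → s ≠ r → B s t ≠ 0 → B t r ≠ 0 → B s r ≠ 0 →
      B s t * B t r * B s r < 0) →
    (∀ s₁ s₂ s₃ s₄, [s₁, s₂, s₃, s₄].Nodup → B s₁ s₃ = 0 → B s₂ s₄ = 0 →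
      0 < B s₁ s₂ * B s₂ s₃ * B s₃ s₄ * B s₄ s₁) →
    ∃ e : S → ℝ, (∀ s, e s = 1 ∨ e s = -1) ∧ ∀ s t, s ≠ t → e s * e t * B s t = -|B s t|

/-- SGN (uses SG3, SG4, SGA): a situation with the correct signs. -/
def Stmt_SGN : Prop :=
  ∀ (S S' : Type) [Fintype S] [DecidableEq S] [Fintype S'] [DecidableEq S']
    (M : CoxeterMatrix S) (M' : CoxeterMatrix S') (ρ : M.Group →* Module.End ℝ (S → ℝ))
    (ρ' : M'.Group →* Module.End ℝ (S' → ℝ)) (ψ : M.Group ≃* M'.Group) (β : S → (S' → ℝ)),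
    WC M M' ρ ρ' ψ β → ∃ β', WC M M' ρ ρ' ψ β' ∧
      ∀ s t, s ≠ t → bf M' (β' s) (β' t) = -Real.cos (Real.pi / M s t)

/-- GRAM: for a hyperbolic triple the Gram determinant is negative:
`1 - 2 cos A cos B cos C - cos² A - cos² B - cos² C = -4 cos σ cos(σ-A) cos(σ-B) cos(σ-C)`, `σ = (A+B+C)/2 < π/2`. -/
def Stmt_GRAM : Prop :=
  ∀ (a b c : ℕ), 2 ≤ a → 2 ≤ b → 2 ≤ c → (1 : ℚ) / a + 1 / b + 1 / c < 1 →
    1 - 2 * Real.cos (Real.pi / a) * Real.cos (Real.pi / b) * Real.cos (Real.pi / c) -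
      Real.cos (Real.pi / a) ^ 2 - Real.cos (Real.pi / b) ^ 2 - Real.cos (Real.pi / c) ^ 2 < 0

/-- NOFX (uses GRAM, BFI, CONE, POS): no point of the cone vanishes on three of the roots. Suppose `x ∈ UC`, `x = 0` on
`β_a, β_b, β_c`. `Ψ = {roots v, x v = 0}` is finite (`x ∈ UC`, POS) and stable under the reflections `r_a, r_b, r_c` (as
`x(r_a v) = x(v)` when `x β_a = 0`). Let `q(v,w) = ∑_{ψ ∈ Ψ} bf(v,ψ) bf(w,ψ)`: symmetric, positive semidefinite,
`q(β_a,β_a) ≥ 1`, invariant under `r_a, r_b, r_c`. Invariance under `r_a`: `q(v,β_a) = bf(v,β_a) q(β_a,β_a)`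
(`q(r_a v, β_a) = q(v, r_a β_a) = -q(v,β_a)`). So `bf(β_b,β_a) q(β_a,β_a) = q(β_a,β_b) = bf(β_a,β_b) q(β_b,β_b)`. At most
one of the three `bf` vanishes, so `q(β_i,β_i) = κ > 0` is the same for the three, and the Gram matrix of `bf` on them is
`1/κ` times a positive semidefinite one; its determinant is `≥ 0`, against GRAM. -/
def Stmt_NOFX : Prop :=
  ∀ (S S' : Type) [Fintype S] [DecidableEq S] [Fintype S'] [DecidableEq S']
    (M : CoxeterMatrix S) (M' : CoxeterMatrix S') (ρ : M.Group →* Module.End ℝ (S → ℝ))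
    (ρ' : M'.Group →* Module.End ℝ (S' → ℝ)) (ψ : M.Group ≃* M'.Group) (β : S → (S' → ℝ)),
    WC M M' ρ ρ' ψ β → (∀ s t, s ≠ t → bf M' (β s) (β t) = -Real.cos (Real.pi / M s t)) →
    ∀ a b c, a ≠ b → b ≠ c → a ≠ c → ∀ x ∈ UC M' ρ', ¬(x (β a) = 0 ∧ x (β b) = 0 ∧ x (β c) = 0)

/-- FXP (uses CONE, ORD): for `a ≠ b` there is a point of the cone vanishing on `β_a` and `β_b`: for `y ∈ UC` (CONE) take
`∑_{j < m} (y ∘ R^j + y ∘ r_a ∘ R^j)`, `R = ρ'(r_a r_b)`, `m = M a b` (`R^m = 1`): invariant under `R` and `r_a`; an invariant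
functional under `r_a` vanishes on `β_a`. -/
def Stmt_FXP : Prop :=
  ∀ (S S' : Type) [Fintype S] [DecidableEq S] [Fintype S'] [DecidableEq S']
    (M : CoxeterMatrix S) (M' : CoxeterMatrix S') (ρ : M.Group →* Module.End ℝ (S → ℝ))
    (ρ' : M'.Group →* Module.End ℝ (S' → ℝ)) (ψ : M.Group ≃* M'.Group) (β : S → (S' → ℝ)),
    WC M M' ρ ρ' ψ β → ∀ a b, a ≠ b → ∃ x ∈ UC M' ρ', x (β a) = 0 ∧ x (β b) = 0

/-- TRIP (uses NOFX, CONE, BFI): for `x` vanishing on `β_a, β_b` and `y` vanishing on `β_b, β_c`: `x(β_c) y(β_a) > 0`. Let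
`c_{ab}` etc. be the cosines, `p_a = (c_{ac} + c_{bc} c_{ab})/(1 - c_{ab}²) > 0` (at most one of the three vanishes), `p_b`
similar, `v = β_c + p_a β_a + p_b β_b` orthogonal to `β_a, β_b`, so fixed by `D = ⟨r_a, r_b⟩` (`2m` elements
`R^j, r_a R^j`, `j < m = M a b`). `Y = ∑_{w ∈ D} y ∘ w ∈ UC` is `D`-invariant, vanishes on `β_a, β_b`, and
`Y(β_c) = Y(v) = 2m y(v) = 2m p_a y(β_a)`. `x(β_c) ≠ 0`, `y(β_a) ≠ 0` by NOFX. If `x(β_c)` and `Y(β_c)` had opposite signs a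
positive combination of `x` and `Y` would vanish on the three roots, against NOFX. -/
def Stmt_TRIP : Prop :=
  ∀ (S S' : Type) [Fintype S] [DecidableEq S] [Fintype S'] [DecidableEq S']
    (M : CoxeterMatrix S) (M' : CoxeterMatrix S') (ρ : M.Group →* Module.End ℝ (S → ℝ))
    (ρ' : M'.Group →* Module.End ℝ (S' → ℝ)) (ψ : M.Group ≃* M'.Group) (β : S → (S' → ℝ)),
    WC M M' ρ ρ' ψ β → (∀ s t, s ≠ t → bf M' (β s) (β t) = -Real.cos (Real.pi / M s t)) →
    ∀ a b c, a ≠ b → b ≠ c → a ≠ c → ∀ x ∈ UC M' ρ', ∀ y ∈ UC M' ρ', x (β a) = 0 → x (β b) = 0 →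
      y (β b) = 0 → y (β c) = 0 → 0 < x (β c) * y (β a)

/-- GLOB (uses TRIP, NOFX, FXP, CONE): there are a sign `τ` and a point `x` of the cone with `τ x(β_c) > 0` for all `c`
(`|S| ≥ 3`). Two points of the cone vanishing on `β_a, β_b` have the same sign at `β_c` (positive combination and NOFX).
Let `x_{ab}` be as in FXP. Claim: `x_{ab}(β_c) x_{ab}(β_d) > 0` for distinct `a,b,c,d`. Suppose `x_{ab}(β_c) > 0 > x_{ab}(β_d)`. TRIP for
`a,b,c`: `x_{ac}(β_b) > 0`; for `a,b,d`: `x_{ad}(β_b) < 0`; for `a,c,d`: `x_{ac}(β_d)` and `x_{ad}(β_c)` have the same sign. A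
positive combination `z` of `x_{ac}` and `x_{ad}` vanishes on `β_a, β_b`, with `z(β_c)`, `z(β_d)` of the same sign as
`x_{ad}(β_c)`, `x_{ac}(β_d)`: but `z(β_c) > 0 > z(β_d)` by comparison with `x_{ab}`. Contradiction. So the sign of
`x_{ab}(β_c)` is the same for all distinct `a,b,c` (TRIP and the claim connect any two triples). `x` = sum of all
`x_{ab}`. -/
def Stmt_GLOB : Prop :=
  ∀ (S S' : Type) [Fintype S] [DecidableEq S] [Fintype S'] [DecidableEq S']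
    (M : CoxeterMatrix S) (M' : CoxeterMatrix S') (ρ : M.Group →* Module.End ℝ (S → ℝ))
    (ρ' : M'.Group →* Module.End ℝ (S' → ℝ)) (ψ : M.Group ≃* M'.Group) (β : S → (S' → ℝ)),
    WC M M' ρ ρ' ψ β → (∀ s t, s ≠ t → bf M' (β s) (β t) = -Real.cos (Real.pi / M s t)) →
    3 ≤ Fintype.card S → ∃ τ : ℝ, (τ = 1 ∨ τ = -1) ∧ ∃ x ∈ UC M' ρ', ∀ c, 0 < x (τ • β c)

/-- DOM (uses GLOB, REGD, CONE, POS, BFI): after an inner automorphism and a global sign, all `β_c` are positive roots.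
Let `x` be as in GLOB, `y` = sum of coordinates, `x' = x + δ y`, `δ > 0` small: `x'(τ β_c) > 0`, `x' ∈ UC`, and `x'` is
regular: for a positive root `v` with `x v ≥ 0`, `x' v > 0`; the positive roots with `x v < 0` are finitely many, for
`δ` small `x' v < 0`. REGD: `w` with `x'(ρ' w α_s) > 0` for all `s`. Then `γ_c = τ ρ'(w⁻¹) β_c` is a root with
`(x' ∘ ρ' w)(γ_c) > 0`, and `x' ∘ ρ' w` is positive on the simple roots, so `γ_c` is a positive root. `ψ` is replaced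
by `w⁻¹ ψ w`. -/
def Stmt_DOM : Prop :=
  ∀ (S S' : Type) [Fintype S] [DecidableEq S] [Fintype S'] [DecidableEq S']
    (M : CoxeterMatrix S) (M' : CoxeterMatrix S') (ρ : M.Group →* Module.End ℝ (S → ℝ))
    (ρ' : M'.Group →* Module.End ℝ (S' → ℝ)) (ψ : M.Group ≃* M'.Group) (β : S → (S' → ℝ)),
    WC M M' ρ ρ' ψ β → (∀ s t, s ≠ t → bf M' (β s) (β t) = -Real.cos (Real.pi / M s t)) →
    3 ≤ Fintype.card S → ∃ (ψ' : M.Group ≃* M'.Group) (γ : S → (S' → ℝ)), WC M M' ρ ρ' ψ' γ ∧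
      (∀ s t, s ≠ t → bf M' (γ s) (γ t) = -Real.cos (Real.pi / M s t)) ∧ ∀ s, IsPR M' ρ' (γ s)

/-- MONO (uses BFI, POS): conclusion. The linear map `f : (S → ℝ) → (S' → ℝ)`, `bs c ↦ γ_c`, satisfies
`f (ρ w v) = ρ' (ψ w) (f v)` (check on simple reflections; `bf M' (f v) (f w) = bf M v w`). Each simple root `α_{s'}`
of `M'`: `ψ.symm s' = w s w⁻¹`, so `α_{s'} = ± f(ρ w bs s)` (both are roots of the same reflection: a root is
determined up to sign by its reflection), so `α_{s'} = ± ∑ n_c γ_c` with all `n_c ≥ 0` (POS for `M`); the sign is `+` since the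
`γ_c` are nonnegative. The `γ_c` with `n_c > 0` are nonnegative and add up to a multiple of `α_{s'}`, so such a `γ_c` is a
multiple of `α_{s'}`, and equal to it since `bf γ_c γ_c = 1`. So for each `s'` there is `c = c(s')` with `γ_c = α_{s'}`; it is
unique (`bf (γ_c) (γ_{c'}) ≤ 0` for `c ≠ c'`). `s' ↦ c(s')` is injective. It is surjective: otherwise the
`γ_{c(s')}` reflections generate `M'.Group`, so the simple reflections of a proper subset `J ⊂ S` generate `M.Group`; but for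
`d ∉ J` and `w` in the subgroup generated by `J`, `ρ w v - v ∈ span(bs c, c ∈ J)`, while `ρ d (bs d) - bs d = -2 bs d`.
Finally `cos(π / M' s' t') = cos(π / M c(s') c(t'))` gives equal labels. -/
def Stmt_MONO : Prop :=
  ∀ (S S' : Type) [Fintype S] [DecidableEq S] [Fintype S'] [DecidableEq S']
    (M : CoxeterMatrix S) (M' : CoxeterMatrix S') (ρ : M.Group →* Module.End ℝ (S → ℝ))
    (ρ' : M'.Group →* Module.End ℝ (S' → ℝ)) (ψ : M.Group ≃* M'.Group) (γ : S → (S' → ℝ)),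
    WC M M' ρ ρ' ψ γ → (∀ s t, s ≠ t → bf M' (γ s) (γ t) = -Real.cos (Real.pi / M s t)) →
    (∀ s, IsPR M' ρ' (γ s)) → ∃ e : S ≃ S', ∀ s t, M' (e s) (e t) = M s t

end Pool.HA
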