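import Pool.Agent.Work.MP_7084a3_h91.InterfaceW
import Pool.Agent.Work.MP_7084a3_h91.InterfaceX
import Pool.Agent.Work.MP_7084a3_h91.InterfaceK

set_option autoImplicit false

/-! # Assembly -/

namespace Pool.HA

/-- the Coxeter group part -/
theorem wmain (hGREP : Stmt_GREP) (hWCI : Stmt_WCI) (hSGN : Stmt_SGN) (hDOM : Stmt_DOM)
    (hMONO : Stmt_MONO) (S S' : Type) [Finite S] [Finite S']
    (M : CoxeterMatrix S) (M' : CoxeterMatrix S') (hM : HypType M) (hM' : HypType M')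
    (h3 : 3 ≤ Nat.card S) (ψ : M.Group ≃* M'.Group)
    (h1 : ∀ s, ∃ w s', ψ (M.simple s) = w * M'.simple s' * w⁻¹)
    (h2 : ∀ s', ∃ w s, ψ.symm (M'.simple s') = w * M.simple s * w⁻¹)
    (h4 : ∀ s t, s ≠ t → 3 ≤ M s t → ∃ w s' t', s' ≠ t' ∧
        ψ (M.simple s * M.simple t) = w * (M'.simple s' * M'.simple t') * w⁻¹) :
    ∃ e : S ≃ S', ∀ s t, M' (e s) (e t) = M s t := by
  classical
  have := Fintype.ofFinite S
  have := Fintype.ofFinite S'
  obtain ⟨ρ, hρ⟩ := hGREP S M hM.ne_zero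
  obtain ⟨ρ', hρ'⟩ := hGREP S' M' hM'.ne_zero
  obtain ⟨β, hβ⟩ := hWCI S S' M M' ρ ρ' ψ hM hM' hρ hρ' h1 h2 h4
  obtain ⟨β', hβ', hg⟩ := hSGN S S' M M' ρ ρ' ψ β hβ
  obtain ⟨ψ', γ, hγ, hg', hp⟩ := hDOM S S' M M' ρ ρ' ψ β' hβ' hg (by
    rwa [← Nat.card_eq_fintype_card])
  exact hMONO S S' M M' ρ ρ' ψ' γ hγ hg' hp

/-- rigidity for at least three generators -/
theorem rig3 (hWB : Stmt_WB) (hGREP : Stmt_GREP) (hWCI : Stmt_WCI) (hSGN : Stmt_SGN)
    (hDOM : Stmt_DOM) (hMONO : Stmt_MONO) (S S' : Type) [Finite S] [Finite S']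
    (M : CoxeterMatrix S) (M' : CoxeterMatrix S') (hM : HypType M) (hM' : HypType M')
    (h3 : 3 ≤ Nat.card S) (h3' : 3 ≤ Nat.card S') (h : Nonempty (Art M ≃* Art M')) :
    ∃ e : S ≃ S', ∀ s t, M' (e s) (e t) = M s t := by
  obtain ⟨ψ, a, b, c⟩ := hWB S S' M M' hM hM' h3 h3' h
  exact wmain hGREP hWCI hSGN hDOM hMONO S S' M M' hM hM' h3 ψ a b c

/-- rigidity for two generators -/
theorem rig2 (hK3 : Stmt_K3) (S S' : Type) [Finite S] [Finite S']
    (M : CoxeterMatrix S) (M' : CoxeterMatrix S') (hM : HypType M) (hM' : HypType M')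
    (h3 : Nat.card S = 2) (h3' : Nat.card S' = 2) (h : Nonempty (Art M ≃* Art M')) :
    ∃ e : S ≃ S', ∀ s t, M' (e s) (e t) = M s t := by
  classical
  have key := hK3 S S' M M' hM.ne_zero hM'.ne_zero h3 h3' h
  obtain ⟨e⟩ : Nonempty (S ≃ S') := Finite.card_eq.1 (h3.trans h3'.symm)
  refine ⟨e, fun s t => ?_⟩
  by_cases hst : s = t
  · subst hst; simp
  · exact (key s t (e s) (e t) hst (fun h => hst (e.injective h))).symm

/-- rigidity -/
theorem rig (hWB : Stmt_WB) (hGREP : Stmt_GREP) (hWCI : Stmt_WCI) (hSGN : Stmt_SGN)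
    (hDOM : Stmt_DOM) (hMONO : Stmt_MONO) (hK1 : Stmt_K1) (hK2 : Stmt_K2) (hK3 : Stmt_K3)
    (hREL : Stmt_REL) (S S' : Type) [Finite S] [Finite S']
    (M : CoxeterMatrix S) (M' : CoxeterMatrix S') (hM : HypType M) (hM' : HypType M')
    (h2 : 2 ≤ Nat.card S) (h2' : 2 ≤ Nat.card S') :
    Nonempty (Art M ≃* Art M') ↔ ∃ e : S ≃ S', ∀ s t, M' (e s) (e t) = M s t := by
  constructor
  · intro h
    rcases Nat.lt_or_ge 2 (Nat.card S) with h3 | h3
    · rcases Nat.lt_or_ge 2 (Nat.card S') with h3' | h3'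
      · exact rig3 hWB hGREP hWCI hSGN hDOM hMONO S S' M M' hM hM' h3 h3' h
      · exfalso
        obtain ⟨φ⟩ := h
        obtain ⟨z, hz, hc⟩ := hK2 S' M' hM'.ne_zero (le_antisymm h3' h2')
        have := hK1 S M hM h3 (φ.symm z) (fun y => by
          have h1 := hc (φ y)
          have h4 := congrArg φ.symm h1.eq
          rw [map_mul, map_mul, φ.symm_apply_apply] at h4
          exact h4)
        exact hz (by simpa using this)
    · rcases Nat.lt_or_ge 2 (Nat.card S') with h3' | h3'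
      · exfalso
        obtain ⟨φ⟩ := h
        obtain ⟨z, hz, hc⟩ := hK2 S M hM.ne_zero (le_antisymm h3 h2)
        have := hK1 S' M' hM' h3' (φ z) (fun y => by
          have h1 := hc (φ.symm y)
          have h4 := congrArg φ h1.eq
          rw [map_mul, map_mul, φ.apply_symm_apply] at h4
          exact h4)
        exact hz (by simpa using this)
      · exact rig2 hK3 S S' M M' hM hM' (le_antisymm h3 h2) (le_antisymm h3' h2') h
  · rintro ⟨e, he⟩
    exact hREL S S' M M' e he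

end Pool.HA
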