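import Pool.Agent.Work.MP_7084a3_h91.B.ACT
import Pool.Agent.Work.MP_7084a3_h91.B.CLO
import Pool.Agent.Work.MP_7084a3_h91.B.FCAT
import Pool.Agent.Work.MP_7084a3_h91.B.FROT
import Pool.Agent.Work.MP_7084a3_h91.B.FTRI
import Pool.Agent.Work.MP_7084a3_h91.B.FBR
import Pool.Agent.Work.MP_7084a3_h91.B.GB
import Pool.Agent.Work.MP_7084a3_h91.B.ASPH
import Pool.Agent.Work.MP_7084a3_h91.B.AXIS
import Pool.Agent.Work.MP_7084a3_h91.B.BD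
import Pool.Agent.Work.MP_7084a3_h91.B.BD1
import Pool.Agent.Work.MP_7084a3_h91.B.BFI
import Pool.Agent.Work.MP_7084a3_h91.B.EST0
import Pool.Agent.Work.MP_7084a3_h91.B.LP0
import Pool.Agent.Work.MP_7084a3_h91.B.LP1
import Pool.Agent.Work.MP_7084a3_h91.B.LK2
import Pool.Agent.Work.MP_7084a3_h91.B.DREP
import Pool.Agent.Work.MP_7084a3_h91.B.DPL
import Pool.Agent.Work.MP_7084a3_h91.B.DDEG
import Pool.Agent.Work.MP_7084a3_h91.B.DTH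
import Pool.Agent.Work.MP_7084a3_h91.B.DSL
import Pool.Agent.Work.MP_7084a3_h91.B.DSLG
import Pool.Agent.Work.MP_7084a3_h91.B.LP2
import Pool.Agent.Work.MP_7084a3_h91.B.NPC
import Pool.Agent.Work.MP_7084a3_h91.B.STR
import Pool.Agent.Work.MP_7084a3_h91.B.FCW
import Pool.Agent.Work.MP_7084a3_h91.B.ISO
import Pool.Agent.Work.MP_7084a3_h91.B.FINS
import Pool.Agent.Work.MP_7084a3_h91.B.EXC
import Pool.Agent.Work.MP_7084a3_h91.B.FREV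
import Pool.Agent.Work.MP_7084a3_h91.B.FMAP
import Pool.Agent.Work.MP_7084a3_h91.B.EQV
import Pool.Agent.Work.MP_7084a3_h91.B.TTOK
import Pool.Agent.Work.MP_7084a3_h91.B.EXF1
import Pool.Agent.Work.MP_7084a3_h91.B.EXF
import Pool.Agent.Work.MP_7084a3_h91.B.XISO
import Pool.Agent.Work.MP_7084a3_h91.B.FTREE
import Pool.Agent.Work.MP_7084a3_h91.B.FTWO
import Pool.Agent.Work.MP_7084a3_h91.B.WCH
import Pool.Agent.Work.MP_7084a3_h91.B.BIG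
import Pool.Agent.Work.MP_7084a3_h91.B.CONN
import Pool.Agent.Work.MP_7084a3_h91.B.UNI
import Pool.Agent.Work.MP_7084a3_h91.B.INJ2
import Pool.Agent.Work.MP_7084a3_h91.B.ZZ1
import Pool.Agent.Work.MP_7084a3_h91.B.ZO
import Pool.Agent.Work.MP_7084a3_h91.B.ZPER
import Pool.Agent.Work.MP_7084a3_h91.B.ZZ2
import Pool.Agent.Work.MP_7084a3_h91.B.X2
import Pool.Agent.Work.MP_7084a3_h91.B.ZL
import Pool.Agent.Work.MP_7084a3_h91.B.ZG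
import Pool.Agent.Work.MP_7084a3_h91.B.X1
import Pool.Agent.Work.MP_7084a3_h91.B.DNF
import Pool.Agent.Work.MP_7084a3_h91.B.DNG
import Pool.Agent.Work.MP_7084a3_h91.B.DW1
import Pool.Agent.Work.MP_7084a3_h91.B.DW3
import Pool.Agent.Work.MP_7084a3_h91.B.DINJ
import Pool.Agent.Work.MP_7084a3_h91.B.DROOT
import Pool.Agent.Work.MP_7084a3_h91.B.F3
import Pool.Agent.Work.MP_7084a3_h91.B.ZX
import Pool.Agent.Work.MP_7084a3_h91.B.X3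
import Pool.Agent.Work.MP_7084a3_h91.B.F4
import Pool.Agent.Work.MP_7084a3_h91.B.DTOR
import Pool.Agent.Work.MP_7084a3_h91.B.DCPC
import Pool.Agent.Work.MP_7084a3_h91.B.DTF
import Pool.Agent.Work.MP_7084a3_h91.B.TFE
import Pool.Agent.Work.MP_7084a3_h91.B.CYC
import Pool.Agent.Work.MP_7084a3_h91.B.F6
import Pool.Agent.Work.MP_7084a3_h91.B.F5
import Pool.Agent.Work.MP_7084a3_h91.B.DPG
import Pool.Agent.Work.MP_7084a3_h91.B.F10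
import Pool.Agent.Work.MP_7084a3_h91.B.DCEN
import Pool.Agent.Work.MP_7084a3_h91.B.CZ
import Pool.Agent.Work.MP_7084a3_h91.B.F8
import Pool.Agent.Work.MP_7084a3_h91.B.INT
import Pool.Agent.Work.MP_7084a3_h91.B.F7
import Pool.Agent.Work.MP_7084a3_h91.B.DNCM
import Pool.Agent.Work.MP_7084a3_h91.B.CA
import Pool.Agent.Work.MP_7084a3_h91.B.CB
import Pool.Agent.Work.MP_7084a3_h91.B.CC
import Pool.Agent.Work.MP_7084a3_h91.B.POS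
import Pool.Agent.Work.MP_7084a3_h91.B.NFIN
import Pool.Agent.Work.MP_7084a3_h91.B.CONE
import Pool.Agent.Work.MP_7084a3_h91.B.GRAM
import Pool.Agent.Work.MP_7084a3_h91.B.NOFX
import Pool.Agent.Work.MP_7084a3_h91.B.TRIP
import Pool.Agent.Work.MP_7084a3_h91.B.FXP
import Pool.Agent.Work.MP_7084a3_h91.B.GLOB
import Pool.Agent.Work.MP_7084a3_h91.B.REGD
import Pool.Agent.Work.MP_7084a3_h91.B.DOM
import Pool.Agent.Work.MP_7084a3_h91.B.DW2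
import Pool.Agent.Work.MP_7084a3_h91.B.FAITH
import Pool.Agent.Work.MP_7084a3_h91.B.FINO
import Pool.Agent.Work.MP_7084a3_h91.B.GREP
import Pool.Agent.Work.MP_7084a3_h91.B.INFO
import Pool.Agent.Work.MP_7084a3_h91.B.K1
import Pool.Agent.Work.MP_7084a3_h91.B.K2
import Pool.Agent.Work.MP_7084a3_h91.B.K3
import Pool.Agent.Work.MP_7084a3_h91.B.MONO
import Pool.Agent.Work.MP_7084a3_h91.B.ORD
import Pool.Agent.Work.MP_7084a3_h91.B.PROD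
import Pool.Agent.Work.MP_7084a3_h91.B.REL
import Pool.Agent.Work.MP_7084a3_h91.B.SG3
import Pool.Agent.Work.MP_7084a3_h91.B.SG4
import Pool.Agent.Work.MP_7084a3_h91.B.SGA
import Pool.Agent.Work.MP_7084a3_h91.B.SGN
import Pool.Agent.Work.MP_7084a3_h91.B.TRC
import Pool.Agent.Work.MP_7084a3_h91.B.WB
import Pool.Agent.Work.MP_7084a3_h91.B.WCI
import Pool.Agent.Work.MP_7084a3_h91.Assemble

set_option autoImplicit false

/-! # All blocks together -/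

namespace Pool.HA

theorem S_ACT : Stmt_ACT := stmt_ACT 
theorem S_CLO : Stmt_CLO := stmt_CLO 
theorem S_FCAT : Stmt_FCAT := stmt_FCAT 
theorem S_FROT : Stmt_FROT := stmt_FROT S_FCAT
theorem S_FTRI : Stmt_FTRI := stmt_FTRI S_FROT
theorem S_FBR : Stmt_FBR := stmt_FBR S_FROT S_FCAT
theorem S_GB : Stmt_GB := stmt_GB S_CLO S_FTRI S_FBR
theorem S_ASPH : Stmt_ASPH := stmt_ASPH S_GB S_FBR
theorem S_AXIS : Stmt_AXIS := stmt_AXIS 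
theorem S_BD : Stmt_BD := stmt_BD 
theorem S_BD1 : Stmt_BD1 := stmt_BD1 
theorem S_BFI : Stmt_BFI := stmt_BFI 
theorem S_EST0 : Stmt_EST0 := stmt_EST0 
theorem S_LP0 : Stmt_LP0 := stmt_LP0 S_EST0
theorem S_LP1 : Stmt_LP1 := stmt_LP1 
theorem S_LK2 : Stmt_LK2 := stmt_LK2 
theorem S_DREP : Stmt_DREP := stmt_DREP 
theorem S_DPL : Stmt_DPL := stmt_DPL S_DREP
theorem S_DDEG : Stmt_DDEG := stmt_DDEG 
theorem S_DTH : Stmt_DTH := stmt_DTH S_DPL S_DDEG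
theorem S_DSL : Stmt_DSL := stmt_DSL 
theorem S_DSLG : Stmt_DSLG := stmt_DSLG S_DTH S_DSL
theorem S_LP2 : Stmt_LP2 := stmt_LP2 S_LK2 S_DSLG
theorem S_NPC : Stmt_NPC := stmt_NPC S_LP0 S_LP1 S_LP2
theorem S_STR : Stmt_STR := stmt_STR S_LK2 S_DSLG
theorem S_FCW : Stmt_FCW := stmt_FCW 
theorem S_ISO : Stmt_ISO := stmt_ISO S_GB S_ASPH S_FCW
theorem S_FINS : Stmt_FINS := stmt_FINS S_FCAT
theorem S_EXC : Stmt_EXC := stmt_EXC S_FINS S_FROT S_FTRI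
theorem S_FREV : Stmt_FREV := stmt_FREV S_FCAT S_FROT
theorem S_FMAP : Stmt_FMAP := stmt_FMAP 
theorem S_EQV : Stmt_EQV := stmt_EQV S_FMAP
theorem S_TTOK : Stmt_TTOK := stmt_TTOK 
theorem S_EXF1 : Stmt_EXF1 := stmt_EXF1 S_EXC S_FINS S_FROT S_FTRI S_FBR S_FREV S_FCAT S_EQV S_TTOK
theorem S_EXF : Stmt_EXF := stmt_EXF S_EXF1 S_FROT S_FTRI S_FBR S_TTOK
theorem S_XISO : Stmt_XISO := stmt_XISO S_NPC S_STR S_ISO S_EXF S_TTOK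
theorem S_FTREE : Stmt_FTREE := stmt_FTREE 
theorem S_FTWO : Stmt_FTWO := stmt_FTWO S_FTREE S_FBR S_FCW S_FROT
theorem S_WCH : Stmt_WCH := stmt_WCH 
theorem S_BIG : Stmt_BIG := stmt_BIG S_XISO S_FTWO S_TTOK S_WCH
theorem S_CONN : Stmt_CONN := stmt_CONN 
theorem S_UNI : Stmt_UNI := stmt_UNI S_ASPH S_FREV S_FCAT S_FBR S_FCW
theorem S_INJ2 : Stmt_INJ2 := stmt_INJ2 S_EXF S_CONN S_NPC S_UNI S_FCAT S_FROT S_FBR S_FREV S_FTRI S_TTOK S_WCH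
theorem S_ZZ1 : Stmt_ZZ1 := stmt_ZZ1 
theorem S_ZO : Stmt_ZO := stmt_ZO 
theorem S_ZPER : Stmt_ZPER := stmt_ZPER 
theorem S_ZZ2 : Stmt_ZZ2 := stmt_ZZ2 S_ZO S_ZPER
theorem S_X2 : Stmt_X2 := stmt_X2 S_XISO S_INJ2 S_BD S_BD1 S_CONN S_WCH S_ACT S_ZZ1 S_ZZ2 S_ZPER
theorem S_ZL : Stmt_ZL := stmt_ZL S_ZO
theorem S_ZG : Stmt_ZG := stmt_ZG 
theorem S_X1 : Stmt_X1 := stmt_X1 S_XISO S_INJ2 S_BD S_BD1 S_CONN S_WCH S_ACT S_ZL S_ZPER S_ZG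
theorem S_DNF : Stmt_DNF := stmt_DNF 
theorem S_DNG : Stmt_DNG := stmt_DNG 
theorem S_DW1 : Stmt_DW1 := stmt_DW1 
theorem S_DW3 : Stmt_DW3 := stmt_DW3 S_DW1
theorem S_DINJ : Stmt_DINJ := stmt_DINJ S_DNF S_DNG S_DW3
theorem S_DROOT : Stmt_DROOT := stmt_DROOT S_DTH S_DINJ
theorem S_F3 : Stmt_F3 := stmt_F3 S_X1 S_DROOT
theorem S_ZX : Stmt_ZX := stmt_ZX 
theorem S_X3 : Stmt_X3 := stmt_X3 S_AXIS S_F3 S_XISO S_INJ2 S_BD S_BD1 S_CONN S_WCH S_ACT S_ZL S_ZX S_ZPER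
theorem S_F4 : Stmt_F4 := stmt_F4 S_F3
theorem S_DTOR : Stmt_DTOR := stmt_DTOR 
theorem S_DCPC : Stmt_DCPC := stmt_DCPC S_DTH S_DTOR S_DNF S_DNG S_DW1 S_DW3
theorem S_DTF : Stmt_DTF := stmt_DTF S_DCPC S_DSLG
theorem S_TFE : Stmt_TFE := stmt_TFE S_DTF
theorem S_CYC : Stmt_CYC := stmt_CYC S_XISO
theorem S_F6 : Stmt_F6 := stmt_F6 S_AXIS S_F3 S_CYC S_DROOT S_TFE
theorem S_F5 : Stmt_F5 := stmt_F5 S_X1 S_TFE S_F4 S_F6
theorem S_DPG : Stmt_DPG := stmt_DPG S_DREP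
theorem S_F10 : Stmt_F10 := stmt_F10 S_DPG
theorem S_DCEN : Stmt_DCEN := stmt_DCEN 
theorem S_CZ : Stmt_CZ := stmt_CZ S_F5 S_F4 S_F3 S_DCEN S_DCPC
theorem S_F8 : Stmt_F8 := stmt_F8 S_F3 S_BIG
theorem S_INT : Stmt_INT := stmt_INT S_F5 S_F3 S_F8
theorem S_F7 : Stmt_F7 := stmt_F7 S_F10 S_CZ S_INT S_DCEN
theorem S_DNCM : Stmt_DNCM := stmt_DNCM S_DSLG
theorem S_CA : Stmt_CA := stmt_CA S_X2 S_X3 S_F3 S_F4 S_F5 S_F6 S_F7 S_CZ S_DNCM S_DCEN S_DCPC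
theorem S_CB : Stmt_CB := stmt_CB S_CA S_CZ
theorem S_CC : Stmt_CC := stmt_CC S_CB S_CZ S_F10 S_F3 S_F5 S_INT
theorem S_POS : Stmt_POS := stmt_POS S_BFI
theorem S_NFIN : Stmt_NFIN := stmt_NFIN S_BFI S_POS
theorem S_CONE : Stmt_CONE := stmt_CONE S_NFIN S_POS
theorem S_GRAM : Stmt_GRAM := stmt_GRAM 
theorem S_NOFX : Stmt_NOFX := stmt_NOFX S_GRAM S_BFI S_POS
theorem S_TRIP : Stmt_TRIP := stmt_TRIP S_NOFX S_CONE S_BFI
theorem S_FXP : Stmt_FXP := stmt_FXP S_CONE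
theorem S_GLOB : Stmt_GLOB := stmt_GLOB S_TRIP S_NOFX S_FXP S_CONE
theorem S_REGD : Stmt_REGD := stmt_REGD S_NFIN S_POS
theorem S_DOM : Stmt_DOM := stmt_DOM S_GLOB S_REGD S_CONE S_POS S_BFI
theorem S_DW2 : Stmt_DW2 := stmt_DW2 
theorem S_FAITH : Stmt_FAITH := stmt_FAITH S_POS
theorem S_FINO : Stmt_FINO := stmt_FINO S_FAITH S_NFIN S_POS S_BFI
theorem S_GREP : Stmt_GREP := stmt_GREP 
theorem S_INFO : Stmt_INFO := stmt_INFO S_BFI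
theorem S_K1 : Stmt_K1 := stmt_K1 S_F7 S_F4 S_DPG
theorem S_K2 : Stmt_K2 := stmt_K2 S_DCEN
theorem S_K3 : Stmt_K3 := stmt_K3 S_DCPC S_DNCM S_DSLG
theorem S_MONO : Stmt_MONO := stmt_MONO S_BFI S_POS
theorem S_ORD : Stmt_ORD := stmt_ORD S_BFI
theorem S_PROD : Stmt_PROD := stmt_PROD S_CB S_CC S_DCPC S_DCEN
theorem S_REL : Stmt_REL := stmt_REL 
theorem S_SG3 : Stmt_SG3 := stmt_SG3 S_BFI S_FINO S_INFO
theorem S_SG4 : Stmt_SG4 := stmt_SG4 S_BFI S_FINO S_INFO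
theorem S_SGA : Stmt_SGA := stmt_SGA 
theorem S_SGN : Stmt_SGN := stmt_SGN S_SG3 S_SG4 S_SGA
theorem S_TRC : Stmt_TRC := stmt_TRC S_BFI
theorem S_WB : Stmt_WB := stmt_WB S_CC S_PROD
theorem S_WCI : Stmt_WCI := stmt_WCI S_BFI S_ORD S_TRC S_FAITH

end Pool.HA
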