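import Mathlib

set_option autoImplicit false

/-! # Definitions for MP_7084a3_al: rigidity of infinity-free two-dimensional Artin groups of
hyperbolic type.  Everything lives in `Type`. -/

namespace Pool.HA

/-! ## 1. Artin groups -/

/-- the alternating word `s t s t ⋯` with `m` letters -/
def alt {S : Type} (s t : S) : ℕ → FreeGroup S
  | 0 => 1
  | m + 1 => FreeGroup.of s * alt t s m

/-- the braid relators of a Coxeter matrix (an entry `0` means infinity: no relation) -/
def braidRels {S : Type} (M : CoxeterMatrix S) : Set (FreeGroup S) :=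
  {r | ∃ s t : S, s ≠ t ∧ M s t ≠ 0 ∧ r = alt s t (M s t) * (alt t s (M s t))⁻¹}

/-- the Artin group of a Coxeter matrix -/
abbrev Art {S : Type} (M : CoxeterMatrix S) : Type := PresentedGroup (braidRels M)

/-- the standard generators -/
def gen {S : Type} (M : CoxeterMatrix S) (s : S) : Art M := PresentedGroup.of s

/-- `M` is infinity-free and every triple of distinct generators is hyperbolic -/
structure HypType {S : Type} (M : CoxeterMatrix S) : Prop where
  ne_zero : ∀ s t, M s t ≠ 0
  hyp : ∀ s t r, s ≠ t → t ≠ r → s ≠ r →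
    (1 : ℚ) / (M s t : ℚ) + 1 / (M t r : ℚ) + 1 / (M s r : ℚ) < 1

/-- alternating product in a group: `x y x y ⋯` with `m` letters -/
def altG {G : Type} [Group G] (x y : G) : ℕ → G
  | 0 => 1
  | m + 1 => x * altG y x m

/-- alternating product of powers `x ^ a₁ * y ^ a₂ * x ^ a₃ * ⋯` along a list of integers -/
def altP {G : Type} [Group G] (x y : G) : List ℤ → G
  | [] => 1
  | a :: l => x ^ a * altP y x l

/-! ## 2. Fillings of closed walks (abstract)

A closed walk is a list of vertices `[v₀, …, v_{L-1}]`, meaning `v₀ → v₁ → ⋯ → v_{L-1} → v₀`;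
`[]` is the trivial closed walk. -/

section Fill
variable {V A : Type} [AddCommGroup A]

/-- `Fill adj T l D n`: the closed walk `l` bounds a disc diagram with `n` triangles and chain `D`. -/
inductive Fill (adj : V → V → Prop) (T : V → V → V → A) : List V → A → ℕ → Prop
  | nil : Fill adj T [] 0 0
  | sph {u v : V} {D : A} {n : ℕ} : adj u v → Fill adj T [u, v] D n → Fill adj T [] D n
  | pair {u v : V} {P₁ P₂ : List V} {D₁ D₂ : A} {n₁ n₂ : ℕ} : adj u v →
      (∀ x ∈ P₁.head?, x = v) → (∀ x ∈ P₂.head?, x = u) →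
      Fill adj T P₁ D₁ n₁ → Fill adj T P₂ D₂ n₂ →
      Fill adj T (u :: (P₁ ++ v :: P₂)) (D₁ + D₂) (n₁ + n₂)
  | tri {u v c : V} {q : List V} {D : A} {n : ℕ} : adj u v → adj u c → adj c v →
      Fill adj T (u :: c :: v :: q) D n → Fill adj T (u :: v :: q) (D + T u v c) (n + 1)

/-- symmetry of adjacency, no loops, `T` alternating -/
structure TriOK (adj : V → V → Prop) (T : V → V → V → A) : Prop where
  symm : ∀ u v, adj u v → adj v u
  irr : ∀ u, ¬ adj u u
  cyc : ∀ u v w, T u v w = T v w u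
  anti : ∀ u v w, T v u w = - T u v w

/-- `l` is a closed walk -/
def CW (adj : V → V → Prop) (l : List V) : Prop :=
  ∀ x q y, l = x ++ q :: y → ∃ r ∈ (y ++ x).head?, adj q r

/-- the reverse of a closed walk (same base point) -/
def rv : List V → List V
  | [] => []
  | u :: q => u :: q.reverse

end Fill

/-! ## 3. Links, angles, straightness (abstract) -/

section Link
variable {V : Type}

/-- a step in the link of a vertex: from `a` to `b`; `k = 0`: through the triangle,
`k = 1, 2`: a gap of weight `k` -/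
structure Stp (V : Type) where
  a : V
  b : V
  k : ℕ

noncomputable def wt (ang : V → V → V → ℝ) (v : V) (s : Stp V) : ℝ :=
  if s.k = 0 then ang v s.a s.b else (s.k : ℝ)

/-- total weight of a link path at `v` -/
noncomputable def wts (ang : V → V → V → ℝ) (v : V) (ω : List (Stp V)) : ℝ :=
  (ω.map (wt ang v)).sum

/-- composable, and reduced if both steps are triangle steps -/
def Cmp (s t : Stp V) : Prop := s.b = t.a ∧ (s.k = 0 → t.k = 0 → s.a ≠ t.b)

def TStp (adj : V → V → Prop) (v : V) (s : Stp V) : Prop :=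
  s.k = 0 ∧ adj v s.a ∧ adj v s.b ∧ adj s.a s.b

/-- a reduced path in the link of `v` (all steps are triangles at `v`) -/
def LPath (adj : V → V → Prop) (v : V) (ω : List (Stp V)) : Prop :=
  (∀ s ∈ ω, TStp adj v s) ∧ ω.IsChain Cmp

/-- every nonempty reduced link path from `b` to `a` at `v` has weight at least one, `a ≠ b` -/
def Str (adj : V → V → Prop) (ang : V → V → V → ℝ) (v a b : V) : Prop :=
  a ≠ b ∧ ∀ ω : List (Stp V), ω ≠ [] → LPath adj v ω →
    (∀ s ∈ ω.head?, s.a = b) → (∀ s ∈ ω.getLast?, s.b = a) → 1 ≤ wts ang v ω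

/-- nonpositive curvature (with `ε` removed from every triangle, angles in units of `π`) -/
structure NPC (adj : V → V → Prop) (ang : V → V → V → ℝ) (ε : ℝ) : Prop where
  pos : 0 < ε
  symm : ∀ u v, adj u v → adj v u
  irr : ∀ u, ¬ adj u u
  comm : ∀ u v w, ang u v w = ang u w v
  nonneg : ∀ u v w, adj u v → adj v w → adj u w → 0 ≤ ang u v w
  sum : ∀ u v w, adj u v → adj v w → adj u w → ang u v w + ang v w u + ang w u v = 1 - ε
  loop : ∀ v (ω : List (Stp V)), ω ≠ [] → LPath adj v ω →
    (∀ s ∈ ω.getLast?, ∀ t ∈ ω.head?, Cmp s t) → 2 ≤ wts ang v ω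

end Link

/-! ## 4. States for the Gauss–Bonnet induction -/

section State
variable {V A : Type} [AddCommGroup A]

/-- a sector at `v`: a nonempty chain of steps; gaps of kind `1` are straight -/
def SecOK (adj : V → V → Prop) (ang : V → V → V → ℝ) (v : V) (ω : List (Stp V)) : Prop :=
  ω ≠ [] ∧ ω.IsChain Cmp ∧
    ∀ s ∈ ω, TStp adj v s ∨ (s.k = 1 ∧ Str adj ang v s.a s.b) ∨ s.k = 2

/-- compatibility of two consecutive entries `(v, ω)`, `(v', ω')` of a state: `ω` starts at the next
vertex `v'`, `ω'` ends at the previous vertex `v`, and the outer triangles at the edge agree -/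
def Nxt (adj : V → V → Prop) (E E' : V × List (Stp V)) : Prop :=
  adj E.1 E'.1 ∧ ∀ s ∈ E.2.head?, ∀ t ∈ E'.2.getLast?, s.a = E'.1 ∧ t.b = E.1 ∧
    (s.k = 0 ↔ t.k = 0) ∧ (s.k = 0 → s.b = t.a)

/-- a state: a cyclic list of entries (vertex, outer sector) -/
def StOK (adj : V → V → Prop) (ang : V → V → V → ℝ) (Q : List (V × List (Stp V))) : Prop :=
  (∀ E ∈ Q, SecOK adj ang E.1 E.2) ∧
    ∀ x E y, Q = x ++ E :: y → ∃ E' ∈ (y ++ x).head?, Nxt adj E E'

/-- minimality of the number of triangles for given walk and chain -/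
def MinF (adj : V → V → Prop) (T : V → V → V → A) (l : List V) (D : A) (n : ℕ) : Prop :=
  Fill adj T l D n ∧ ∀ n', Fill adj T l D n' → n ≤ n'

/-- gluing back an outer triangle increases the area -/
def InvB (adj : V → V → Prop) (T : V → V → V → A) (Q : List (V × List (Stp V))) (D : A) (n : ℕ) :
    Prop :=
  ∀ x E y, Q = x ++ E :: y → ∀ s ∈ E.2.head?, s.k = 0 →
    ∀ n', Fill adj T (x.map Prod.fst ++ E.1 :: s.b :: y.map Prod.fst) (D - T E.1 s.a s.b) n' →
      n + 1 ≤ n'

/-- gluing back the same outer triangle at an edge and at its inverse -/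
def InvC (adj : V → V → Prop) (T : V → V → V → A) (Q : List (V × List (Stp V))) (D : A) (n : ℕ) :
    Prop :=
  ∀ x E y E' z, Q = x ++ E :: (y ++ E' :: z) → ∀ s ∈ E.2.head?, ∀ s' ∈ E'.2.head?,
    s.k = 0 → s'.k = 0 → s.a = E'.1 → s'.a = E.1 → s.b = s'.b →
    ∀ n', Fill adj T (x.map Prod.fst ++ E.1 :: s.b :: (y.map Prod.fst ++
      E'.1 :: s'.b :: z.map Prod.fst)) D n' → n + 2 ≤ n'

/-- the number of cyclic positions which are not flagged straight -/
def nns (P : List (V × Bool)) : ℕ := P.countP (fun p => !p.2)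

/-- all flagged positions of the closed walk are straight (`r` next, `p` previous vertex) -/
def FlagOK (adj : V → V → Prop) (ang : V → V → V → ℝ) (P : List (V × Bool)) : Prop :=
  ∀ x q y, P = x ++ q :: y → q.2 = true →
    ∀ r ∈ (y ++ x).head?, ∀ p ∈ (y ++ x).getLast?, Str adj ang q.1 r.1 p.1

end State

/-! ## 4b. Finitely supported integer functions with permutations -/

/-- `ℓ¹` norm -/
def nf {X : Type} (D : X →₀ ℤ) : ℕ := D.sum (fun _ a => a.natAbs)

/-- action of a permutation -/
noncomputable def mv {X : Type} (σ : Equiv.Perm X) : (X →₀ ℤ) →+ (X →₀ ℤ) :=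
  Finsupp.mapDomain.addMonoidHom σ

/-! ## 5. The coset complex -/

section Coset
variable {G S : Type} [Group G]

/-- the subgroup generated by the generators in `J` -/
def par (g : S → G) (J : Finset S) : Subgroup G := Subgroup.closure (g '' (J : Set S))

/-- the subgroup generated by two generators -/
def pr (g : S → G) (s t : S) : Subgroup G := Subgroup.closure {g s, g t}

/-- vertices: pairs (set of at most two labels, coset) -/
def Vtx (g : S → G) : Type := Σ J : {J : Finset S // J.card ≤ 2}, G ⧸ par g J.1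

namespace Vtx
variable {g : S → G}

/-- the label set -/
def J (v : Vtx g) : Finset S := v.1.1

/-- the type (0, 1 or 2) -/
def ty (v : Vtx g) : ℕ := v.1.1.card

/-- membership of a group element in the coset -/
def mem (v : Vtx g) (x : G) : Prop := (QuotientGroup.mk x : G ⧸ par g v.1.1) = v.2

/-- adjacency -/
def ad (v w : Vtx g) : Prop := (∃ x, v.mem x ∧ w.mem x) ∧ (v.J ⊂ w.J ∨ w.J ⊂ v.J)

/-- the vertex with labels `J` containing `x` -/
def mk (g : S → G) (J : Finset S) (hJ : J.card ≤ 2) (x : G) : Vtx g := ⟨⟨J, hJ⟩, (x : G ⧸ par g J)⟩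

instance : MulAction G (Vtx g) where
  smul h v := ⟨v.1, h • v.2⟩
  one_smul v := by
    change (⟨v.1, (1 : G) • v.2⟩ : Vtx g) = v
    rw [one_smul]; rfl
  mul_smul a b v := by
    change (⟨v.1, (a * b) • v.2⟩ : Vtx g) = ⟨v.1, a • b • v.2⟩
    rw [mul_smul]

end Vtx

/-- the order label of a finite set of generators: the maximum of `M s t` over `s, t ∈ J`; for
`J = {s, t}` this is `M s t` -/
def lb (M : CoxeterMatrix S) (J : Finset S) : ℕ := (J ×ˢ J).sup (fun p => M p.1 p.2)

/-- angles at `v` in the triangle `v, a, b` (units of `π`) -/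
noncomputable def ang {g : S → G} [DecidableEq S] (M : CoxeterMatrix S) (ε : ℝ) (v a b : Vtx g) : ℝ :=
  if v.ty = 0 then 1 / 2 - 1 / (2 * (lb M (v.J ∪ a.J ∪ b.J) : ℝ)) - ε
  else if v.ty = 1 then 1 / 2
  else 1 / (2 * (lb M (v.J ∪ a.J ∪ b.J) : ℝ))

/-- chains -/
abbrev C0 (g : S → G) : Type := Vtx g →₀ ℤ
abbrev C1 (g : S → G) : Type := (Vtx g × Vtx g) →₀ ℤ
abbrev C2 (g : S → G) : Type := (Vtx g × Vtx g × Vtx g) →₀ ℤ

open Classical in
/-- basis element of `C2` for a triple of types `0, 1, 2`, otherwise `0` -/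
noncomputable def dlt {g : S → G} (x y z : Vtx g) : C2 g :=
  if x.ty = 0 ∧ y.ty = 1 ∧ z.ty = 2 then Finsupp.single (x, y, z) 1 else 0

/-- the alternating triangle chain -/
noncomputable def TT {g : S → G} (x y z : Vtx g) : C2 g :=
  dlt x y z + dlt y z x + dlt z x y - dlt y x z - dlt x z y - dlt z y x

open Classical in
noncomputable def dl1 {g : S → G} (x y : Vtx g) : C1 g :=
  if x.ty < y.ty then Finsupp.single (x, y) 1 else 0

/-- the alternating edge chain -/
noncomputable def EE {g : S → G} (x y : Vtx g) : C1 g := dl1 x y - dl1 y x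

/-- boundary maps -/
noncomputable def bd2 (g : S → G) : C2 g →+ C1 g :=
  Finsupp.liftAddHom (fun t => (AddMonoidHom.flip (smulAddHom ℤ (C1 g)))
    (EE t.1 t.2.1 + EE t.2.1 t.2.2 + EE t.2.2 t.1))

noncomputable def bd1 (g : S → G) : C1 g →+ C0 g :=
  Finsupp.liftAddHom (fun t => (AddMonoidHom.flip (smulAddHom ℤ (C0 g)))
    (Finsupp.single t.2 1 - Finsupp.single t.1 1))

/-- the chain of an open walk -/
noncomputable def wch {g : S → G} : List (Vtx g) → C1 g
  | [] => 0
  | [_] => 0
  | x :: y :: l => EE x y + wch (y :: l)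

/-- the chain of a closed walk -/
noncomputable def cch {g : S → G} (l : List (Vtx g)) : C1 g :=
  match l with
  | [] => 0
  | x :: l => wch (x :: l ++ [x])

/-- action of a group element on chains -/
noncomputable def act2 {g : S → G} (h : G) : C2 g →+ C2 g :=
  Finsupp.mapDomain.addMonoidHom (fun t => (h • t.1, h • t.2.1, h • t.2.2))
noncomputable def act1 {g : S → G} (h : G) : C1 g →+ C1 g :=
  Finsupp.mapDomain.addMonoidHom (fun t => (h • t.1, h • t.2))
noncomputable def act0 {g : S → G} (h : G) : C0 g →+ C0 g :=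
  Finsupp.mapDomain.addMonoidHom (fun t => h • t)

/-- `ℓ¹` norm -/
def nrm {g : S → G} (D : C2 g) : ℕ := nf D

/-- chains supported on flags -/
def Flagged {g : S → G} (D : C2 g) : Prop :=
  ∀ t ∈ D.support, t.1.ty = 0 ∧ t.2.1.ty = 1 ∧ t.2.2.ty = 2 ∧ t.1.ad t.2.1 ∧ t.2.1.ad t.2.2 ∧
    t.1.ad t.2.2

/-- an open walk from `v` to `w` -/
def Wk {g : S → G} (l : List (Vtx g)) (v w : Vtx g) : Prop :=
  l.head? = some v ∧ l.getLast? = some w ∧ l.IsChain Vtx.ad

/-- no backtracking -/
def Red {V : Type} (l : List V) : Prop := ∀ x a b c y, l = x ++ a :: b :: c :: y → a ≠ c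

/-- reflections: conjugates of the standard generators -/
def Rfl (g : S → G) (r : G) : Prop := ∃ x s, r = x * g s * x⁻¹

/-- all vertices of the list are fixed by `h` -/
def Fx {g : S → G} (h : G) (l : List (Vtx g)) : Prop := ∀ v ∈ l, h • v = v

/-- a flagged closed walk: at each flagged position `q`, the previous and the next vertex are
different, and some reflection fixes the previous vertex, `q` and the next vertex -/
def RFlag {g : S → G} (P : List (Vtx g × Bool)) : Prop :=
  ∀ x q y, P = x ++ q :: y → q.2 = true →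
    ∀ r ∈ (y ++ x).head?, ∀ p ∈ (y ++ x).getLast?, r.1 ≠ p.1 ∧
      ∃ ρ, Rfl g ρ ∧ ρ • r.1 = r.1 ∧ ρ • q.1 = q.1 ∧ ρ • p.1 = p.1

/-- the concatenation of `l`, `x l`, …, `x ^ (N-1) l`, for a walk `l` from `p` to `x p`; it is a
walk from `p` to `x ^ N p` -/
def pw {g : S → G} (x : G) (l : List (Vtx g)) : ℕ → List (Vtx g)
  | 0 => l.take 1
  | N + 1 => l.dropLast ++ (pw x l N).map (fun v => x • v)

/-- the closed walk of type 0 and type 1 vertices read along a word, without the last vertex -/
def wwalk (g : S → G) : G → List (S × Bool) → List (Vtx g)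
  | _, [] => []
  | x, (s, b) :: L => Vtx.mk g ∅ (by simp) x :: Vtx.mk g {s} (by simp) x ::
      wwalk g (x * (if b then g s else (g s)⁻¹)) L

end Coset

/-- the conditions on `ε` -/
def EpsOK {S : Type} (M : CoxeterMatrix S) (ε : ℝ) : Prop :=
  0 < ε ∧ ε ≤ 1 / 24 ∧ ∀ s t r, s ≠ t → t ≠ r → s ≠ r →
    (1 : ℝ) / (M s t : ℝ) + 1 / (M t r : ℝ) + 1 / (M s r : ℝ) + 6 * ε ≤ 1

/-- exponent sum -/
noncomputable def esum {S : Type} (M : CoxeterMatrix S) : Art M →* Multiplicative ℤ :=
  PresentedGroup.toGroup (f := fun _ => Multiplicative.ofAdd (1 : ℤ)) (by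
    rintro r ⟨s, t, -, -, rfl⟩
    have key : ∀ (m : ℕ) (s t : S),
        FreeGroup.lift (fun _ : S => Multiplicative.ofAdd (1 : ℤ)) (alt s t m) =
          Multiplicative.ofAdd (m : ℤ) := by
      intro m
      induction m with
      | zero => intro s t; simp [alt]
      | succ m ih =>
        intro s t
        rw [alt, map_mul, ih, FreeGroup.lift_apply_of, ← ofAdd_add]
        congr 1
        push_cast; ring
    rw [map_mul, map_inv, key, key, mul_inv_cancel])

/-! ## 6. Dihedral Artin groups: the free product of `ℤ/m` and `ℤ/2` and 2 by 2 matrices -/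

section Dih
variable {F : Type} [Group F]

/-- `u^{e₁} j u^{e₂} j ⋯ u^{e_r} j` -/
def wordF (u j : F) (e : List ℤ) : F := (e.map (fun a => u ^ a * j)).prod

/-- `u, j` generate a free product of `ℤ/m` and `ℤ/2` -/
structure UJ (m : ℕ) (u j : F) : Prop where
  um : u ^ m = 1
  jj : j * j = 1
  nf : ∀ e : List ℤ, e ≠ [] → (∀ a ∈ e, ¬ (m : ℤ) ∣ a) → wordF u j e ≠ 1

/-- the field of rational functions in `q` -/
abbrev KK : Type := RatFunc ℝ

/-- `2 cos (π / m)` -/
noncomputable def lam (m : ℕ) : ℝ := 2 * Real.cos (Real.pi / m)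

noncomputable def U0 (m : ℕ) : Matrix (Fin 2) (Fin 2) KK := !![algebraMap ℝ KK (lam m), -1; 1, 0]
noncomputable def J0 : Matrix (Fin 2) (Fin 2) KK := !![0, 1; RatFunc.X, 0]
noncomputable def sM (m : ℕ) : Matrix (Fin 2) (Fin 2) KK :=
  !![-RatFunc.X, algebraMap ℝ KK (lam m); 0, 1]
noncomputable def tM (m : ℕ) : Matrix (Fin 2) (Fin 2) KK :=
  !![1, 0; algebraMap ℝ KK (lam m) * RatFunc.X, -RatFunc.X]

/-- value of a positive word (`true` is `s`, `false` is `t`) -/
def pos (s t : F) (p : List Bool) : F := (p.map (fun b => if b then s else t)).prod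

/-- alternating word of length `m` starting with `b` -/
def altL (b : Bool) : ℕ → List Bool
  | 0 => []
  | m + 1 => b :: altL (!b) m

end Dih

/-- the one-parameter reflection: `v ↦ v + φ_i(v) e_i`, `φ_i(e_i) = -(1+q)`,
`φ_i(e_j) = 2 cos(π/m_ij) d_ij` -/
noncomputable def hk {S K : Type} [Field K] [Algebra ℝ K] (M : CoxeterMatrix S) (q : K)
    (d : S → S → K) (i : S) : Module.End K (S →₀ K) := by
  classical
  exact 1 + (Finsupp.lsingle i) ∘ₗ
    (Finsupp.lsum K (fun j => (LinearMap.lsmul K K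
      (if j = i then -(1 + q) else algebraMap ℝ K (lam (M i j)) * d i j))))

/-! ## 7. Coxeter groups: geometric representation -/

section Cox
variable {S : Type} [Fintype S] [DecidableEq S]

/-- the symmetric bilinear form -/
noncomputable def bf (M : CoxeterMatrix S) (v w : S → ℝ) : ℝ :=
  ∑ s, ∑ t, v s * w t * (-Real.cos (Real.pi / M s t))

/-- basis vector -/
def bs (s : S) : S → ℝ := Pi.single s 1

/-- `ρ` is the geometric representation -/
def IsRep (M : CoxeterMatrix S) (ρ : M.Group →* Module.End ℝ (S → ℝ)) : Prop :=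
  ∀ s v, ρ (M.simple s) v = v - (2 * bf M v (bs s)) • bs s

/-- roots -/
def IsRt (M : CoxeterMatrix S) (ρ : M.Group →* Module.End ℝ (S → ℝ)) (v : S → ℝ) : Prop :=
  ∃ w s, v = ρ w (bs s)

/-- positive roots -/
def IsPR (M : CoxeterMatrix S) (ρ : M.Group →* Module.End ℝ (S → ℝ)) (v : S → ℝ) : Prop :=
  IsRt M ρ v ∧ ∀ t, 0 ≤ v t

/-- the interior of the Tits cone (in the dual space) -/
def UC (M : CoxeterMatrix S) (ρ : M.Group →* Module.End ℝ (S → ℝ)) :
    Set ((S → ℝ) →ₗ[ℝ] ℝ) :=
  {x | {v | IsPR M ρ v ∧ x v ≤ 0}.Finite}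

/-- `r` is the reflection in the root `v` -/
def IsRf (M : CoxeterMatrix S) (ρ : M.Group →* Module.End ℝ (S → ℝ)) (r : M.Group) (v : S → ℝ) :
    Prop := ∃ w s, r = w * M.simple s * w⁻¹ ∧ (v = ρ w (bs s) ∨ v = -ρ w (bs s))

end Cox

end Pool.HA
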